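import Mathlib

set_option autoImplicit false

/-!
# Nonzeros of polynomials with few nonzero coordinates
-/

namespace Pool.Agent.W946.Kos

open Finset

variable {K σ : Type*} [Field K]

theorem coeff_bind_restrict (D : Finset σ) [DecidableEq σ] (m : σ →₀ ℕ) (hm : m.support ⊆ D)
    (P : MvPolynomial σ K) :
    (MvPolynomial.bind₁ (fun x => if x ∈ D then MvPolynomial.X x else 0 :
      σ → MvPolynomial σ K) P).coeff m = P.coeff m := by
  classical
  induction P using MvPolynomial.induction_on' with
  | monomial u a =>
    rw [MvPolynomial.bind₁_monomial]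
    by_cases hu : u.support ⊆ D
    · have : (∏ i ∈ u.support, (if i ∈ D then MvPolynomial.X i else 0 : MvPolynomial σ K) ^ u i) =
          ∏ i ∈ u.support, (MvPolynomial.X i : MvPolynomial σ K) ^ u i :=
        prod_congr rfl fun i hi => by rw [if_pos (hu hi)]
      rw [this, MvPolynomial.monomial_eq]
      rfl
    · obtain ⟨i, hi, hiD⟩ := not_subset.1 hu
      have h0 : (∏ i ∈ u.support, (if i ∈ D then MvPolynomial.X i else 0 :
          MvPolynomial σ K) ^ u i) = 0 := by
        refine prod_eq_zero hi ?_
        rw [if_neg hiD, zero_pow (Finsupp.mem_support_iff.1 hi)]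
      rw [h0, mul_zero, MvPolynomial.coeff_zero, MvPolynomial.coeff_monomial, if_neg]
      rintro rfl
      exact hu hm
  | add p q hp hq =>
    rw [map_add, MvPolynomial.coeff_add, MvPolynomial.coeff_add, hp, hq]

theorem exists_small_support [Infinite K] {P : MvPolynomial σ K} (hP : P ≠ 0) :
    ∃ (D : Finset σ) (t : σ → K), D.card ≤ P.totalDegree ∧ (∀ x, x ∉ D → t x = 0) ∧
      MvPolynomial.eval t P ≠ 0 := by
  classical
  obtain ⟨m, hm⟩ := MvPolynomial.exists_coeff_ne_zero hP
  refine ⟨m.support, ?_⟩
  have hcard : m.support.card ≤ P.totalDegree := by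
    refine le_trans ?_ (MvPolynomial.le_totalDegree (MvPolynomial.mem_support_iff.2 hm))
    rw [Finset.card_eq_sum_ones, Finsupp.sum]
    refine sum_le_sum fun i hi => ?_
    exact Nat.one_le_iff_ne_zero.2 (Finsupp.mem_support_iff.1 hi)
  by_contra hcon
  push Not at hcon
  have h0 : MvPolynomial.bind₁ (fun x => if x ∈ m.support then MvPolynomial.X x else 0 :
      σ → MvPolynomial σ K) P = 0 := by
    refine MvPolynomial.funext fun t => ?_
    rw [map_zero]
    have h1 := hcon (fun x => if x ∈ m.support then t x else 0) hcard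
      (fun x hx => if_neg hx)
    rw [← h1, MvPolynomial.eval, MvPolynomial.eval₂Hom_bind₁]
    congr 2
    funext x
    split_ifs
    · simp
    · simp
  apply hm
  rw [← coeff_bind_restrict m.support m subset_rfl P, h0, MvPolynomial.coeff_zero]

theorem totalDegree_det_le {n : Type*} [Fintype n] [DecidableEq n]
    (M : Matrix n n (MvPolynomial σ K)) (h : ∀ i j, (M i j).totalDegree ≤ 1) :
    M.det.totalDegree ≤ Fintype.card n := by
  rw [Matrix.det_apply]
  refine MvPolynomial.totalDegree_finsetSum_le fun π _ => ?_
  have h1 : (∏ i, M (π i) i).totalDegree ≤ Fintype.card n := by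
    refine (MvPolynomial.totalDegree_finsetProd _ _).trans ?_
    refine (sum_le_sum fun i _ => h (π i) i).trans ?_
    rw [sum_const, smul_eq_mul, mul_one, card_univ]
  rcases Int.units_eq_one_or (Equiv.Perm.sign π) with h2 | h2
  · rw [h2, one_smul]
    exact h1
  · rw [h2, Units.smul_def, Units.val_neg, Units.val_one, neg_smul, one_smul,
      MvPolynomial.totalDegree_neg]
    exact h1

end Pool.Agent.W946.Kos
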