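import Pool.Agent.W946.Kos
import Pool.Agent.W946.KosPoly
import Pool.Agent.H88R3.MM.Circ

set_option autoImplicit false

/-!
# Quadratic algorithms for matrix multiplication: the lower bound over an infinite field
-/

namespace Pool.Agent.W946.Kos

open Finset Pool.Agent.H88R3.MM
open scoped Kronecker

variable {K : Type*} [Field K] {m : ℕ}

/-- The symmetric matrix of the polarization of the quadratic form `∑ i j, G i j * (A B) i j` in
the entries of `A` and `B`. -/
def symM (G : Matrix (Fin m) (Fin m) K) : Matrix (Vars m) (Vars m) K :=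
  Matrix.of fun x y => match x, y with
    | .inl a, .inr b => if a.2 = b.1 then G a.1 b.2 else 0
    | .inr b, .inl a => if a.2 = b.1 then G a.1 b.2 else 0
    | .inl _, .inl _ => 0
    | .inr _, .inr _ => 0

/-- the pairing of two matrices -/
def pr (G w : Matrix (Fin m) (Fin m) K) : K := ∑ i, ∑ j, G i j * w i j

/-- A quadratic algorithm: the product `A B` is `∑ l, u l (A, B) * v l (A, B) • w l`; in polarized
form. -/
def IsQuad {L : Type*} [Fintype L] (u v : L → Vars m → K) (w : L → Matrix (Fin m) (Fin m) K) :
    Prop :=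
  ∀ G : Matrix (Fin m) (Fin m) K, symM G =
    ∑ l, pr G (w l) • (Matrix.vecMulVec (u l) (v l) + Matrix.vecMulVec (v l) (u l))

theorem symM_eq_zero {G : Matrix (Fin m) (Fin m) K} (h : symM G = 0) : G = 0 := by
  ext i j
  have := congrFun (congrFun h (Sum.inl (i, i))) (Sum.inr (i, j))
  simpa [symM] using this

theorem symM_sum {ι : Type*} (s : Finset ι) (G : ι → Matrix (Fin m) (Fin m) K) :
    symM (∑ i ∈ s, G i) = ∑ i ∈ s, symM (G i) := by
  ext x y
  rw [Matrix.sum_apply]
  rcases x with a | a <;> rcases y with b | b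
  · simp [symM]
  · simp only [symM, Matrix.of_apply, Matrix.sum_apply]
    split_ifs <;> simp
  · simp only [symM, Matrix.of_apply, Matrix.sum_apply]
    split_ifs <;> simp
  · simp [symM]

section span

variable {L : Type*} [Fintype L] {u v : L → Vars m → K} {w : L → Matrix (Fin m) (Fin m) K}

/-- uncurried matrices -/
def unc (w : Matrix (Fin m) (Fin m) K) : Fin m × Fin m → K := fun x => w x.1 x.2

theorem pr_of_functional (f : (Fin m × Fin m → K) →ₗ[K] K) (w : Matrix (Fin m) (Fin m) K) :
    pr (Matrix.of fun i j => f (Pi.single (i, j) 1)) w = f (unc w) := by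
  classical
  rw [LinearMap.pi_apply_eq_sum_univ f, Fintype.sum_prod_type]
  unfold pr
  refine sum_congr rfl fun i _ => sum_congr rfl fun j _ => ?_
  rw [Matrix.of_apply, smul_eq_mul, mul_comm]
  congr 1
  congr 1
  funext x
  rw [Pi.single_apply]
  exact if_congr eq_comm rfl rfl

theorem IsQuad.span_eq_top (h : IsQuad u v w) :
    Submodule.span K (Set.range fun l => unc (w l)) = ⊤ := by
  classical
  by_contra hne
  obtain ⟨f, hf0, hf⟩ := Submodule.exists_le_ker_of_lt_top _ (lt_top_iff_ne_top.2 hne)
  apply hf0
  set G : Matrix (Fin m) (Fin m) K := Matrix.of fun i j => f (Pi.single (i, j) 1) with hG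
  have h1 : symM G = 0 := by
    rw [h G]
    refine sum_eq_zero fun l _ => ?_
    rw [hG, pr_of_functional]
    have : f (unc (w l)) = 0 := hf (Submodule.subset_span ⟨l, rfl⟩)
    rw [this, zero_smul]
  have h2 := symM_eq_zero h1
  refine LinearMap.pi_ext' fun x => ?_
  refine LinearMap.ext_ring ?_
  have := congrFun (congrFun h2 x.1) x.2
  rw [hG, Matrix.of_apply] at this
  simpa using this

end span

theorem rank_kron_vecMulVec_le {m n : Type*} [Fintype m] [Fintype n] (a b : m → K)
    (B : Matrix n n K) : (Matrix.vecMulVec a b ⊗ₖ B).rank ≤ B.rank := by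
  have : (Matrix.vecMulVec a b ⊗ₖ B) =
      Matrix.of fun (x y : m × n) => a x.1 * B x.2 y.2 * b y.1 := by
    ext x y
    rw [Matrix.kroneckerMap_apply, Matrix.vecMulVec_apply, Matrix.of_apply]
    ring
  rw [this]
  exact rank_scaled B _ _ _ _

theorem choose_id (p : ℕ) : (p + 1) * (2 * p + 1).choose p = (2 * p + 1) * (2 * p).choose p := by
  have h1 := Nat.add_one_mul_choose_eq (2 * p) p
  have h2 : (2 * p + 1).choose (p + 1) = (2 * p + 1).choose p := by
    rw [← Nat.choose_symm_of_eq_add (show 2 * p + 1 = (p + 1) + p by ring)]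
  rw [h2] at h1
  linarith

open Classical in
/-- The bound for quadratic algorithms over an infinite field. -/
theorem core [Infinite K] {L : Type*} [Fintype L] {u v : L → Vars m → K}
    {w : L → Matrix (Fin m) (Fin m) K} (h : IsQuad u v w) (q p : ℕ) (hqp : q * (p + 1) ≤ m) :
    m ^ 2 + (2 * p + 1) * m * q ≤ Fintype.card L + q * (p + 1) * (2 * p + 1).choose p := by
  -- a basis among the output matrices
  obtain ⟨κ, a, ha, hspan, hLI⟩ := exists_linearIndependent' K fun l => unc (w l)
  rw [h.span_eq_top] at hspan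
  have : Finite κ := Finite.of_injective a ha
  let _ : Fintype κ := Fintype.ofFinite κ
  set b : Module.Basis κ K (Fin m × Fin m → K) := Module.Basis.mk hLI hspan.ge with hb
  have hbg : ∀ g, b g = unc (w (a g)) := fun g => by
    rw [hb, Module.Basis.mk_apply]
    rfl
  have hcardκ : Fintype.card κ = m ^ 2 := by
    have h1 := Module.finrank_eq_card_basis b
    rw [Module.finrank_fintype_fun_eq_card, Fintype.card_prod, Fintype.card_fin] at h1
    rw [← h1, sq]
  -- the dual basis
  set Γ : κ → Matrix (Fin m) (Fin m) K := fun g =>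
    Matrix.of fun i j => b.coord g (Pi.single (i, j) 1) with hΓ
  have hΓw : ∀ g x, pr (Γ g) x = b.coord g (unc x) := fun g x => pr_of_functional _ x
  have hpr_sum : ∀ (t : κ → K) (x : Matrix (Fin m) (Fin m) K),
      pr (∑ g, t g • Γ g) x = ∑ g, t g * b.coord g (unc x) := by
    intro t x
    have : ∀ g, t g * b.coord g (unc x) = ∑ i, ∑ j, t g * (Γ g i j * x i j) := by
      intro g
      rw [← hΓw]
      unfold pr
      rw [mul_sum]
      exact sum_congr rfl fun i _ => by rw [mul_sum]
    simp only [this]
    rw [sum_comm]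
    unfold pr
    refine sum_congr rfl fun i _ => ?_
    rw [sum_comm]
    refine sum_congr rfl fun j _ => ?_
    rw [Matrix.sum_apply, sum_mul]
    exact sum_congr rfl fun g _ => by rw [Matrix.smul_apply, smul_eq_mul]; ring
  have hpr_w : ∀ (t : κ → K) (g : κ), pr (∑ g, t g • Γ g) (w (a g)) = t g := by
    intro t g
    rw [hpr_sum, ← hbg]
    rw [Finset.sum_eq_single g]
    · simp
    · intro g' _ hg'
      rw [Module.Basis.coord_apply, Module.Basis.repr_self, Finsupp.single_apply,
        if_neg (fun h => hg' h.symm), mul_zero]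
    · intro hc
      exact absurd (mem_univ _) hc
  have hrep : ∀ G : Matrix (Fin m) (Fin m) K, ∑ g, pr G (w (a g)) • Γ g = G := by
    intro G
    let fG : (Fin m × Fin m → K) →ₗ[K] K := ∑ x : Fin m × Fin m, G x.1 x.2 • LinearMap.proj x
    have hfG : ∀ x, fG (unc x) = pr G x := by
      intro x
      simp only [fG, LinearMap.sum_apply, LinearMap.smul_apply, LinearMap.proj_apply, smul_eq_mul,
        Fintype.sum_prod_type]
      rfl
    let f2 : (Fin m × Fin m → K) →ₗ[K] K := ∑ g, pr G (w (a g)) • b.coord g
    have hf2 : f2 = fG := by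
      refine b.ext fun g => ?_
      rw [hbg, hfG]
      simp only [f2, LinearMap.sum_apply, LinearMap.smul_apply, smul_eq_mul]
      rw [← hpr_sum, hpr_w]
    ext i j
    have h1 := congrArg (fun f : (Fin m × Fin m → K) →ₗ[K] K => f (Pi.single (i, j) 1)) hf2
    simp only [f2, fG, LinearMap.sum_apply, LinearMap.smul_apply, LinearMap.proj_apply,
      smul_eq_mul] at h1
    rw [Matrix.sum_apply]
    simp only [Matrix.smul_apply, smul_eq_mul, hΓ, Matrix.of_apply]
    rw [h1, Finset.sum_eq_single (i, j)]
    · simp
    · intro x _ hx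
      rw [Pi.single_apply, if_neg hx, mul_zero]
    · intro hc
      exact absurd (mem_univ _) hc
  -- the embedding of the blocks
  set e : Fin q × Fin (p + 1) → Fin m := fun x => Fin.castLE hqp (finProdFinEquiv x) with he
  have heinj : Function.Injective e := fun x y hxy =>
    finProdFinEquiv.injective (Fin.castLE_injective hqp hxy)
  -- the polynomial
  set σ := Fin (2 * p + 1) × κ with hσ
  set N := (Fin q × Fin (p + 1)) × Sub p with hN
  have hcardN : Fintype.card N = q * (p + 1) * (2 * p + 1).choose p := by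
    change Fintype.card ((Fin q × Fin (p + 1)) × Sub p) = _
    rw [Fintype.card_prod, Fintype.card_prod, Fintype.card_fin, Fintype.card_fin, card_Sub]
  set MM : Matrix N N (MvPolynomial σ K) := Matrix.of fun x y =>
    ∑ s : Fin (2 * p + 1), ∑ g : κ, MvPolynomial.X (s, g) *
      MvPolynomial.C (Γ g (e x.1) (e y.1) * kos K p s x.2 y.2) with hMM
  have heval : ∀ t : σ → K, MvPolynomial.eval t MM.det =
      (∑ s, (∑ g, t (s, g) • Γ g).submatrix e e ⊗ₖ kos K p s).det := by
    intro t
    rw [RingHom.map_det]
    congr 1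
    ext x y
    rw [RingHom.mapMatrix_apply, Matrix.map_apply, hMM, Matrix.of_apply, map_sum,
      Matrix.sum_apply]
    refine sum_congr rfl fun s _ => ?_
    rw [map_sum, Matrix.kroneckerMap_apply, Matrix.submatrix_apply, Matrix.sum_apply, sum_mul]
    refine sum_congr rfl fun g _ => ?_
    rw [map_mul, MvPolynomial.eval_X, MvPolynomial.eval_C, Matrix.smul_apply, smul_eq_mul]
    ring
  have hdeg : MM.det.totalDegree ≤ q * (p + 1) * (2 * p + 1).choose p := by
    rw [← hcardN]
    refine totalDegree_det_le MM fun x y => ?_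
    rw [hMM, Matrix.of_apply]
    refine MvPolynomial.totalDegree_finsetSum_le fun s _ =>
      MvPolynomial.totalDegree_finsetSum_le fun g _ => ?_
    refine (MvPolynomial.totalDegree_mul _ _).trans ?_
    rw [MvPolynomial.totalDegree_C, MvPolynomial.totalDegree_X]
  have hP0 : MM.det ≠ 0 := by
    -- the good family
    obtain ⟨c, hc⟩ : ∃ c : Fin (2 * p + 1) → K, Function.Injective c :=
      ⟨fun i => Infinite.natEmbedding K i, fun i j hij =>
        Fin.ext ((Infinite.natEmbedding K).injective hij)⟩
    set G0 : Fin (2 * p + 1) → Matrix (Fin m) (Fin m) K := fun s => Matrix.of fun i j =>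
      ∑ x, ∑ y, if e x = i ∧ e y = j then good q p c s x y else 0 with hG0
    have hsub : ∀ s, (G0 s).submatrix e e = good q p c s := by
      intro s
      ext x y
      rw [Matrix.submatrix_apply, hG0]
      simp only [Matrix.of_apply]
      rw [Finset.sum_eq_single x, Finset.sum_eq_single y]
      · rw [if_pos ⟨rfl, rfl⟩]
      · intro y' _ hy'
        rw [if_neg (fun h => hy' (heinj h.2))]
      · intro hc
        exact absurd (mem_univ _) hc
      · intro x' _ hx'
        refine sum_eq_zero fun y' _ => ?_
        rw [if_neg (fun h => hx' (heinj h.1))]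
      · intro hc
        exact absurd (mem_univ _) hc
    intro h0
    have h1 := heval fun x => pr (G0 x.1) (w (a x.2))
    rw [h0, map_zero] at h1
    simp only [hrep, hsub] at h1
    exact good_det_ne_zero q hc h1.symm
  obtain ⟨D, t, hD, htD, ht⟩ := exists_small_support hP0
  rw [heval] at ht
  -- the matrices
  set G : Fin (2 * p + 1) → Matrix (Fin m) (Fin m) K := fun s => ∑ g, t (s, g) • Γ g with hG
  set κ' : Finset κ := D.image Prod.snd with hκ'
  have hκ'card : κ'.card ≤ q * (p + 1) * (2 * p + 1).choose p :=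
    card_image_le.trans (hD.trans hdeg)
  have hkill : ∀ g, g ∉ κ' → ∀ s, pr (G s) (w (a g)) = 0 := by
    intro g hg s
    rw [hG]
    simp only
    rw [hpr_w (fun g => t (s, g)) g]
    refine htD _ fun hc => hg ?_
    rw [hκ', mem_image]
    exact ⟨_, hc, rfl⟩
  -- the flattening
  set Φ : Matrix (Vars m × Sub p) (Vars m × Sub p) K := ∑ s, symM (G s) ⊗ₖ kos K p s with hΦ
  have hΦsum : Φ = ∑ l, (Matrix.vecMulVec (u l) (v l) ⊗ₖ (∑ s, pr (G s) (w l) • kos K p s) +
      Matrix.vecMulVec (v l) (u l) ⊗ₖ (∑ s, pr (G s) (w l) • kos K p s)) := by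
    rw [hΦ]
    ext x y
    rw [Matrix.sum_apply, Matrix.sum_apply]
    simp only [Matrix.kroneckerMap_apply, Matrix.add_apply, Matrix.sum_apply, Matrix.smul_apply,
      smul_eq_mul, h (G _)]
    simp only [sum_mul, mul_sum, ← sum_add_distrib]
    rw [sum_comm]
    refine sum_congr rfl fun l _ => sum_congr rfl fun s _ => ?_
    ring
  set S : Finset L := (univ.filter (· ∉ κ')).image a with hS
  have hScard : S.card + κ'.card = m ^ 2 := by
    rw [hS, card_image_of_injective _ ha, ← hcardκ, ← card_univ (α := κ)]
    have h1 := card_filter_add_card_filter_not (s := (univ : Finset κ)) (fun g => g ∉ κ')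
    rw [← h1]
    congr 2
    ext g
    simp
  have hup : Φ.rank ≤ (univ \ S).card * (2 * (2 * p).choose p) := by
    rw [hΦsum]
    refine (rank_sum_le _ _).trans ?_
    have h1 : ∀ l ∈ S, (Matrix.vecMulVec (u l) (v l) ⊗ₖ (∑ s, pr (G s) (w l) • kos K p s) +
        Matrix.vecMulVec (v l) (u l) ⊗ₖ (∑ s, pr (G s) (w l) • kos K p s)).rank = 0 := by
      intro l hl
      rw [hS, mem_image] at hl
      obtain ⟨g, hg, rfl⟩ := hl
      rw [mem_filter] at hg
      have : (∑ s, pr (G s) (w (a g)) • kos K p s) = 0 :=
        sum_eq_zero fun s _ => by rw [hkill g hg.2 s, zero_smul]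
      rw [this, Matrix.kronecker_zero, Matrix.kronecker_zero, add_zero, Matrix.rank_zero]
    rw [← sum_sdiff (subset_univ S), sum_eq_zero h1, add_zero]
    refine (sum_le_card_nsmul _ _ (2 * (2 * p).choose p) fun l _ => ?_).trans
      (le_of_eq (smul_eq_mul _ _))
    refine (rank_add_le _ _).trans ?_
    exact (Nat.add_le_add ((rank_kron_vecMulVec_le _ _ _).trans (rank_kos _))
      ((rank_kron_vecMulVec_le _ _ _).trans (rank_kos _))).trans (le_of_eq (two_mul _).symm)
  -- the lower bound for the rank
  set R1 : Matrix N N K := ∑ s, (G s).submatrix e e ⊗ₖ kos K p s with hR1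
  set R2 : Matrix N N K := ∑ s, ((G s).submatrix e e).transpose ⊗ₖ kos K p s with hR2
  have hR1d : R1.det ≠ 0 := ht
  have hR2d : R2.det ≠ 0 := by
    have h1 : R2 = ((-1 : K) ^ p) • R1.transpose := by
      rw [hR2, hR1, Matrix.transpose_sum, Finset.smul_sum]
      refine sum_congr rfl fun s _ => ?_
      ext x y
      have h2 : kos K p s x.2 y.2 = (-1 : K) ^ p * kos K p s y.2 x.2 :=
        congrFun (congrFun (kos_transpose (K := K) s) y.2) x.2
      simp only [Matrix.kroneckerMap_apply, Matrix.smul_apply, Matrix.transpose_apply,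
        smul_eq_mul]
      rw [h2]
      ring
    rw [h1, Matrix.det_smul, Matrix.det_transpose]
    exact mul_ne_zero (pow_ne_zero _ (pow_ne_zero _ (neg_ne_zero.2 one_ne_zero))) hR1d
  have hlow : 2 * m * (q * (p + 1) * (2 * p + 1).choose p) ≤ Φ.rank := by
    let row : N × (Bool × Fin m) → Vars m × Sub p := fun x =>
      if x.2.1 then (Sum.inr (x.2.2, e x.1.1), x.1.2) else (Sum.inl (e x.1.1, x.2.2), x.1.2)
    let col : N × (Bool × Fin m) → Vars m × Sub p := fun x =>
      if x.2.1 then (Sum.inl (e x.1.1, x.2.2), x.1.2) else (Sum.inr (x.2.2, e x.1.1), x.1.2)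
    have hblock : Φ.submatrix row col =
        Matrix.blockDiagonal (fun k : Bool × Fin m => if k.1 then R2 else R1) := by
      ext ⟨⟨x, T⟩, ⟨β, k⟩⟩ ⟨⟨x', T'⟩, ⟨β', k'⟩⟩
      rw [Matrix.submatrix_apply, Matrix.blockDiagonal_apply]
      cases β <;> cases β' <;>
        simp only [row, col, Bool.false_eq_true, if_false, if_true, Prod.mk.injEq, false_and,
          true_and, hΦ, Matrix.sum_apply, Matrix.kroneckerMap_apply, symM, Matrix.of_apply,
          hR1, hR2, Matrix.submatrix_apply, Matrix.transpose_apply, zero_mul, sum_const_zero,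
          reduceCtorEq]
      · by_cases hk : k = k'
        · simp [hk]
        · simp [hk]
      · by_cases hk : k = k'
        · simp [hk]
        · rw [if_neg hk]
          exact sum_eq_zero fun s _ => by rw [if_neg (fun h => hk h.symm), zero_mul]
    have hdet : (Matrix.blockDiagonal (fun k : Bool × Fin m => if k.1 then R2 else R1)).det ≠ 0 := by
      rw [Matrix.det_blockDiagonal]
      refine prod_ne_zero_iff.2 fun k _ => ?_
      split_ifs
      · exact hR2d
      · exact hR1d
    have h1 := Matrix.rank_of_det_ne_zero hdet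
    rw [← hblock] at h1
    have h2 := Matrix.rank_submatrix_le Φ row col
    rw [h1, Fintype.card_prod, hcardN, Fintype.card_prod, Fintype.card_bool,
      Fintype.card_fin] at h2
    refine le_trans (le_of_eq (by ring)) h2
  -- conclusion
  have h1 : (univ \ S).card + S.card = Fintype.card L := by
    rw [← card_univ]
    exact card_sdiff_add_card_eq_card (subset_univ S)
  have h2 := hlow.trans hup
  have h3 := choose_id p
  have hpos : 0 < (2 * p).choose p := Nat.choose_pos (by omega)
  have h4 : (2 * p + 1) * m * q ≤ (univ \ S).card := by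
    have h5 : (2 * (2 * p).choose p) * ((2 * p + 1) * m * q) ≤
        (2 * (2 * p).choose p) * (univ \ S).card := by
      calc (2 * (2 * p).choose p) * ((2 * p + 1) * m * q)
          = 2 * m * (q * ((2 * p + 1) * (2 * p).choose p)) := by ring
        _ = 2 * m * (q * (p + 1) * (2 * p + 1).choose p) := by rw [← h3]; ring
        _ ≤ _ := h2
        _ = _ := by ring
    exact Nat.le_of_mul_le_mul_left h5 (by positivity)
  omega

end Pool.Agent.W946.Kos
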