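import Pool.Agent.W946.LcMain

set_option autoImplicit false

/-!
# Matrices with large dual distances: Hilbert matrices and complex Hadamard matrices
-/

namespace Pool.Agent.W946.Lc

open Finset

/-- The Hilbert matrix with the entries `1 / (i + j + 1)`, `0 ≤ i, j < n`. -/
noncomputable def hilbert (K : Type*) [Field K] (n : ℕ) : Matrix (Fin n) (Fin n) K :=
  Matrix.of fun i j => (((i : ℕ) : K) + ((j : ℕ) : K) + 1)⁻¹

/-- A complex Hadamard matrix: all entries have absolute value `1` and the rows are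
orthogonal. -/
def IsComplexHadamard {n : ℕ} (A : Matrix (Fin n) (Fin n) ℂ) : Prop :=
  (∀ i j, ‖A i j‖ = 1) ∧ A * A.conjTranspose = (n : ℂ) • (1 : Matrix (Fin n) (Fin n) ℂ)

theorem exists_large (M : ℝ) : ∃ n₀ : ℕ, 1 ≤ n₀ ∧ ∀ n : ℕ, n₀ ≤ n →
    M * (1 + Real.log n) ≤ 2 * Real.sqrt n := by
  set B : ℝ := max M 1 with hB
  have hB1 : 1 ≤ B := le_max_right _ _
  have hBM : M ≤ B := le_max_left _ _
  obtain ⟨n₁, hn₁⟩ := exists_nat_gt ((5 * B) ^ 4)
  refine ⟨n₁ + 1, by omega, fun n hn => ?_⟩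
  have hn1 : (5 * B) ^ 4 ≤ (n : ℝ) := hn₁.le.trans (by exact_mod_cast (by omega : n₁ ≤ n))
  have hn0 : (1 : ℝ) ≤ n := by exact_mod_cast (by omega : 1 ≤ n)
  set s : ℝ := Real.sqrt (Real.sqrt n) with hs
  have hs0 : 0 ≤ s := Real.sqrt_nonneg _
  have hs2 : s ^ 2 = Real.sqrt n := Real.sq_sqrt (Real.sqrt_nonneg _)
  have hs4 : s ^ 4 = n := by
    have : s ^ 4 = (s ^ 2) ^ 2 := by ring
    rw [this, hs2, Real.sq_sqrt (by linarith)]
  have hsB : 5 * B ≤ s := by
    rw [← hs4] at hn1
    exact le_of_pow_le_pow_left₀ (by norm_num) hs0 hn1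
  have hs1 : 1 ≤ s := by linarith
  have hlog : Real.log n ≤ 4 * s := by
    rw [← hs4, Real.log_pow]
    have := Real.log_le_sub_one_of_pos (show 0 < s by linarith)
    push_cast
    linarith
  have hlog0 : 0 ≤ Real.log n := Real.log_nonneg hn0
  rw [← hs2]
  have h1 : M * (1 + Real.log n) ≤ B * (1 + Real.log n) :=
    mul_le_mul_of_nonneg_right hBM (by linarith)
  have h2 : B * (1 + Real.log n) ≤ B * (5 * s) := by
    refine mul_le_mul_of_nonneg_left ?_ (by linarith)
    linarith
  nlinarith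

theorem two_sqrt_le {n a b : ℕ} (h : n ≤ a * b) : 2 * Real.sqrt n ≤ (a : ℝ) + b := by
  have h1 : (n : ℝ) ≤ a * b := by exact_mod_cast h
  have h2 : Real.sqrt n ≤ ((a : ℝ) + b) / 2 := by
    rw [Real.sqrt_le_left (by positivity)]
    nlinarith [sq_nonneg ((a : ℝ) - b)]
  linarith

/-- The uncertainty principle for Hilbert matrices. -/
theorem hilbert_uncertainty {K : Type*} [Field K] [CharZero K] {n : ℕ} {x : Fin n → K}
    (hx : x ≠ 0) : n + 1 ≤ wt x + wt ((hilbert K n).mulVec x) := by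
  classical
  rw [wt_eq, wt_eq]
  set S : Finset (Fin n) := univ.filter fun i => x i ≠ 0 with hS
  set Z : Finset (Fin n) := univ.filter fun i => (hilbert K n).mulVec x i = 0 with hZ
  have h1 : Z.card + (univ.filter fun i => (hilbert K n).mulVec x i ≠ 0).card = n := by
    rw [hZ]
    have := card_filter_add_card_filter_not (s := (univ : Finset (Fin n)))
      (fun i => (hilbert K n).mulVec x i = 0)
    rw [card_univ, Fintype.card_fin] at this
    exact this
  suffices h : Z.card < S.card by omega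
  by_contra hcon
  push Not at hcon
  have hne : ∀ i j : Fin n, (((i : ℕ) : K) + ((j : ℕ) : K) + 1) ≠ 0 := by
    intro i j
    exact_mod_cast (by omega : (i : ℕ) + (j : ℕ) + 1 ≠ 0)
  -- the numerator
  set P : Polynomial K := ∑ j ∈ S, Polynomial.C (x j) *
    ∏ l ∈ S.erase j, (Polynomial.X + Polynomial.C (((l : ℕ) : K) + 1)) with hP
  have hPdeg : P.degree < S.card := by
    refine (Polynomial.degree_sum_le _ _).trans_lt ?_
    rw [Finset.sup_lt_iff (by exact_mod_cast WithBot.bot_lt_coe S.card)]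
    intro j hj
    refine (Polynomial.degree_mul_le _ _).trans_lt ?_
    have e1 : (Polynomial.C (x j)).degree ≤ 0 := Polynomial.degree_C_le
    have e2 : (∏ l ∈ S.erase j, (Polynomial.X + Polynomial.C (((l : ℕ) : K) + 1))).degree =
        ((S.erase j).card : WithBot ℕ) := by
      rw [Polynomial.degree_prod, sum_congr rfl fun l _ => Polynomial.degree_X_add_C _, sum_const]
      simp
    rw [e2]
    have e3 : (S.erase j).card < S.card := card_erase_lt_of_mem hj
    calc (Polynomial.C (x j)).degree + ((S.erase j).card : WithBot ℕ)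
        ≤ 0 + ((S.erase j).card : WithBot ℕ) := by gcongr
      _ < S.card := by rw [zero_add]; exact_mod_cast e3
  have hPeval : ∀ i ∈ Z, P.eval ((i : ℕ) : K) = 0 := by
    intro i hi
    have e1 : P.eval ((i : ℕ) : K) = (∏ l ∈ S, (((i : ℕ) : K) + ((l : ℕ) : K) + 1)) *
        (hilbert K n).mulVec x i := by
      rw [hP, Polynomial.eval_finsetSum, Matrix.mulVec, dotProduct, mul_sum]
      have e2 : ∑ j, (∏ l ∈ S, (((i : ℕ) : K) + ((l : ℕ) : K) + 1)) *
          (hilbert K n i j * x j) = ∑ j ∈ S, (∏ l ∈ S, (((i : ℕ) : K) + ((l : ℕ) : K) + 1)) *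
          (hilbert K n i j * x j) := by
        symm
        refine sum_subset (subset_univ _) fun j _ hj => ?_
        have : x j = 0 := by
          by_contra h
          exact hj (mem_filter.2 ⟨mem_univ _, h⟩)
        rw [this, mul_zero, mul_zero]
      rw [e2]
      refine sum_congr rfl fun j hj => ?_
      rw [Polynomial.eval_mul, Polynomial.eval_C, Polynomial.eval_prod, ← mul_prod_erase S _ hj]
      simp only [Polynomial.eval_add, Polynomial.eval_X, Polynomial.eval_C, hilbert,
        Matrix.of_apply]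
      have e3 := hne i j
      have e4 : ∏ l ∈ S.erase j, (((i : ℕ) : K) + (((l : ℕ) : K) + 1)) =
          ∏ l ∈ S.erase j, (((i : ℕ) : K) + ((l : ℕ) : K) + 1) :=
        prod_congr rfl fun l _ => by ring
      rw [e4]
      field_simp
    rw [e1, (mem_filter.1 hi).2, mul_zero]
  have hP0 : P = 0 := by
    refine Polynomial.eq_zero_of_degree_lt_of_eval_finset_eq_zero
      (Z.image fun i : Fin n => ((i : ℕ) : K)) ?_ ?_
    · rw [card_image_of_injective _ fun i j h => Fin.ext (by exact_mod_cast h)]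
      exact hPdeg.trans_le (by exact_mod_cast hcon)
    · intro y hy
      obtain ⟨i, hi, rfl⟩ := mem_image.1 hy
      exact hPeval i hi
  -- it is not zero
  obtain ⟨j, hj⟩ := Function.ne_iff.1 hx
  have hjS : j ∈ S := mem_filter.2 ⟨mem_univ _, hj⟩
  have e1 : P.eval (-(((j : ℕ) : K) + 1)) = x j *
      ∏ l ∈ S.erase j, (((l : ℕ) : K) - ((j : ℕ) : K)) := by
    rw [hP, Polynomial.eval_finsetSum, Finset.sum_eq_single j]
    · rw [Polynomial.eval_mul, Polynomial.eval_C, Polynomial.eval_prod]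
      congr 1
      refine prod_congr rfl fun l _ => ?_
      simp only [Polynomial.eval_add, Polynomial.eval_X, Polynomial.eval_C]
      ring
    · intro j' _ hne'
      rw [Polynomial.eval_mul, Polynomial.eval_prod, prod_eq_zero (i := j), mul_zero]
      · exact mem_erase.2 ⟨fun h => hne' h.symm, hjS⟩
      · simp
    · intro h
      exact absurd hjS h
  rw [hP0, Polynomial.eval_zero] at e1
  have e2 : ∏ l ∈ S.erase j, (((l : ℕ) : K) - ((j : ℕ) : K)) ≠ 0 := by
    rw [prod_ne_zero_iff]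
    intro l hl h
    rw [sub_eq_zero] at h
    exact (mem_erase.1 hl).1 (Fin.ext (by exact_mod_cast h))
  exact mul_ne_zero hj e2 e1.symm

theorem hilbert_vecMul {K : Type*} [Field K] {n : ℕ} (y : Fin n → K) :
    Matrix.vecMul y (hilbert K n) = (hilbert K n).mulVec y := by
  have h : (hilbert K n).transpose = hilbert K n := by
    ext i j
    simp only [hilbert, Matrix.transpose_apply, Matrix.of_apply]
    rw [add_comm ((j : ℕ) : K)]
  conv_lhs => rw [← h]
  rw [Matrix.vecMul_transpose]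

/-- The uncertainty principle for complex Hadamard matrices. -/
theorem hadamard_uncertainty {n : ℕ} {A : Matrix (Fin n) (Fin n) ℂ}
    (hA : ∀ i j, ‖A i j‖ = 1) (hA' : A.conjTranspose * A = (n : ℂ) • 1) {x : Fin n → ℂ}
    (hx : x ≠ 0) : n ≤ wt x * wt (A.mulVec x) := by
  classical
  rw [wt_eq, wt_eq]
  set S : Finset (Fin n) := univ.filter fun i => x i ≠ 0 with hS
  set T : Finset (Fin n) := univ.filter fun i => A.mulVec x i ≠ 0 with hT
  -- the norms
  have h1 : (∑ i, ‖A.mulVec x i‖ ^ 2 : ℝ) = n * ∑ i, ‖x i‖ ^ 2 := by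
    have e1 : dotProduct (star (A.mulVec x)) (A.mulVec x) =
        (n : ℂ) * dotProduct (star x) x := by
      rw [Matrix.star_mulVec, ← Matrix.dotProduct_mulVec, Matrix.mulVec_mulVec, hA',
        Matrix.smul_mulVec, Matrix.one_mulVec, dotProduct_smul, smul_eq_mul]
    have e2 : ∀ z : Fin n → ℂ, dotProduct (star z) z = ((∑ i, ‖z i‖ ^ 2 : ℝ) : ℂ) := by
      intro z
      rw [dotProduct]
      push_cast
      refine sum_congr rfl fun i _ => ?_
      rw [Pi.star_apply, RCLike.star_def, Complex.conj_mul']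
    rw [e2, e2] at e1
    exact_mod_cast e1
  set V : ℝ := ∑ i, ‖x i‖ ^ 2 with hV
  have hVpos : 0 < V := by
    obtain ⟨j, hj⟩ := Function.ne_iff.1 hx
    refine lt_of_lt_of_le ?_ (single_le_sum (f := fun i => ‖x i‖ ^ 2)
      (fun i _ => by positivity) (mem_univ j))
    have : 0 < ‖x j‖ := norm_pos_iff.2 hj
    positivity
  have h2 : (∑ j, ‖x j‖) ^ 2 ≤ S.card * V := by
    have e1 : ∑ j, ‖x j‖ = ∑ j ∈ S, ‖x j‖ := by
      symm
      refine sum_subset (subset_univ _) fun j _ hj => ?_
      have : x j = 0 := by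
        by_contra h
        exact hj (mem_filter.2 ⟨mem_univ _, h⟩)
      rw [this, norm_zero]
    rw [e1]
    refine (sq_sum_le_card_mul_sum_sq).trans ?_
    refine mul_le_mul_of_nonneg_left ?_ (by positivity)
    exact sum_le_sum_of_subset_of_nonneg (subset_univ _) fun i _ _ => by positivity
  have h3 : ∀ i, ‖A.mulVec x i‖ ≤ ∑ j, ‖x j‖ := by
    intro i
    rw [Matrix.mulVec, dotProduct]
    refine (norm_sum_le _ _).trans (sum_le_sum fun j _ => ?_)
    rw [norm_mul, hA, one_mul]
  have h4 : (∑ i, ‖A.mulVec x i‖ ^ 2 : ℝ) ≤ T.card * (S.card * V) := by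
    have e1 : (∑ i, ‖A.mulVec x i‖ ^ 2 : ℝ) = ∑ i ∈ T, ‖A.mulVec x i‖ ^ 2 := by
      symm
      refine sum_subset (subset_univ _) fun j _ hj => ?_
      have : A.mulVec x j = 0 := by
        by_contra h
        exact hj (mem_filter.2 ⟨mem_univ _, h⟩)
      rw [this, norm_zero]
      norm_num
    rw [e1, ← nsmul_eq_mul]
    refine sum_le_card_nsmul _ _ _ fun i _ => ?_
    exact (pow_le_pow_left₀ (norm_nonneg _) (h3 i) 2).trans h2
  rw [h1] at h4
  have h5 : (n : ℝ) ≤ T.card * S.card := by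
    have : (n : ℝ) * V ≤ (T.card * S.card) * V := by linarith
    exact le_of_mul_le_mul_right this hVpos
  have h6 : n ≤ T.card * S.card := by exact_mod_cast h5
  rw [mul_comm]
  exact h6

theorem IsComplexHadamard.conj_mul {n : ℕ} {A : Matrix (Fin n) (Fin n) ℂ}
    (h : IsComplexHadamard A) (hn : 1 ≤ n) :
    A.conjTranspose * A = (n : ℂ) • (1 : Matrix (Fin n) (Fin n) ℂ) := by
  have hn0 : (n : ℂ) ≠ 0 := by exact_mod_cast (by omega : n ≠ 0)
  have h1 : A * ((n : ℂ)⁻¹ • A.conjTranspose) = 1 := by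
    rw [Matrix.mul_smul, h.2, smul_smul, inv_mul_cancel₀ hn0, one_smul]
  have h2 := mul_eq_one_comm.1 h1
  rw [Matrix.smul_mul] at h2
  rw [← h2, smul_smul, mul_inv_cancel₀ hn0, one_smul]

theorem IsComplexHadamard.transpose {n : ℕ} {A : Matrix (Fin n) (Fin n) ℂ}
    (h : IsComplexHadamard A) :
    A.transpose.conjTranspose * A.transpose = (n : ℂ) • (1 : Matrix (Fin n) (Fin n) ℂ) := by
  have h1 : A.transpose.conjTranspose * A.transpose = (A * A.conjTranspose).transpose := by
    rw [Matrix.transpose_mul]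
    rfl
  rw [h1, h.2, Matrix.transpose_smul, Matrix.transpose_one]

end Pool.Agent.W946.Lc
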