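import Mathlib

set_option autoImplicit false

/-!
# The Koszul flattening in coordinates

`kos s` is the matrix of the bilinear form `(α, β) ↦ α ∧ e_s ∧ β` on the `p`-th exterior power of
a `2p+1`-dimensional space (up to signs): its rows and columns are indexed by the `p`-element
subsets of a set of `2p+1` points.
-/

namespace Pool.Agent.W946.Kos

open Finset

/-- the `p`-element subsets of a set of `2p+1` points -/
abbrev Sub (p : ℕ) : Type := {S : Finset (Fin (2 * p + 1)) // S.card = p}

theorem card_Sub (p : ℕ) : Fintype.card (Sub p) = (2 * p + 1).choose p := by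
  rw [Fintype.card_of_subtype (powersetCard p (univ : Finset (Fin (2 * p + 1))))]
  · rw [card_powersetCard, card_univ, Fintype.card_fin]
  · intro S
    rw [mem_powersetCard_univ]

/-- the sign of the insertion of `s` into `S` -/
def eps (K : Type*) [Field K] {n : ℕ} (s : Fin n) (S : Finset (Fin n)) : K :=
  (-1) ^ (S.filter (· < s)).card

/-- the sign of a set -/
def sg (K : Type*) [Field K] {n : ℕ} (S : Finset (Fin n)) : K := (-1) ^ (∑ x ∈ S, (x : ℕ))

/-- the matrix of the wedge product with the `s`-th basis vector -/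
def kos (K : Type*) [Field K] (p : ℕ) (s : Fin (2 * p + 1)) : Matrix (Sub p) (Sub p) K :=
  Matrix.of fun T S => if s ∉ S.1 ∧ insert s S.1 = T.1ᶜ then eps K s S.1 * sg K S.1 else 0

variable {K : Type*} [Field K] {p : ℕ}

theorem eps_mul_self {n : ℕ} (s : Fin n) (S : Finset (Fin n)) : eps K s S * eps K s S = 1 := by
  unfold eps
  rw [← pow_add, ← two_mul, pow_mul]
  simp

theorem sg_mul_self {n : ℕ} (S : Finset (Fin n)) : sg K S * sg K S = 1 := by
  unfold sg
  rw [← pow_add, ← two_mul, pow_mul]
  simp

theorem eps_ne_zero {n : ℕ} (s : Fin n) (S : Finset (Fin n)) : eps K s S ≠ 0 :=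
  fun h => by simpa [h] using eps_mul_self (K := K) s S

theorem sg_ne_zero {n : ℕ} (S : Finset (Fin n)) : sg K S ≠ 0 :=
  fun h => by simpa [h] using sg_mul_self (K := K) S

theorem cond_symm {n : ℕ} {s : Fin n} {S T : Finset (Fin n)} (h : s ∉ S ∧ insert s S = Tᶜ) :
    s ∉ T ∧ insert s T = Sᶜ := by
  obtain ⟨h1, h2⟩ := h
  have h3 : ∀ x, x ∉ T ↔ (x = s ∨ x ∈ S) := by
    intro x
    rw [← mem_compl, ← h2, mem_insert]
  refine ⟨(h3 s).2 (Or.inl rfl), ?_⟩
  ext x
  rw [mem_insert, mem_compl]
  constructor
  · rintro (rfl | hx)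
    · exact h1
    · intro hS
      exact (h3 x).2 (Or.inr hS) hx
  · intro hS
    by_contra hcon
    push Not at hcon
    rcases (h3 x).1 hcon.2 with h | h
    · exact hcon.1 h
    · exact hS h

theorem sign_prod {s : Fin (2 * p + 1)} {S T : Finset (Fin (2 * p + 1))}
    (h : s ∉ S ∧ insert s S = Tᶜ) :
    (eps K s S * sg K S) * (eps K s T * sg K T) = (-1) ^ p := by
  have h' := cond_symm h
  obtain ⟨h1, h2⟩ := h
  have h3 : ∀ x, x ∉ T ↔ (x = s ∨ x ∈ S) := by
    intro x
    rw [← mem_compl, ← h2, mem_insert]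
  have hd : Disjoint S T := by
    rw [disjoint_left]
    intro x hx hT
    exact (h3 x).2 (Or.inr hx) hT
  have e1 : (S.filter (· < s)).card + (T.filter (· < s)).card = (s : ℕ) := by
    rw [← card_union_of_disjoint (disjoint_filter_filter hd), ← filter_union]
    have : (S ∪ T).filter (· < s) = Finset.Iio s := by
      ext x
      rw [mem_filter, mem_union, mem_Iio]
      constructor
      · exact fun h => h.2
      · intro hx
        refine ⟨?_, hx⟩
        by_cases hT : x ∈ T
        · exact Or.inr hT
        · rcases (h3 x).1 hT with h | h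
          · exact absurd h hx.ne
          · exact Or.inl h
    rw [this, Fin.card_Iio]
  have e2 : (∑ x ∈ S, (x : ℕ)) + (∑ x ∈ T, (x : ℕ)) + (s : ℕ) = p * (2 * p + 1) := by
    have e3 : (∑ x ∈ S, (x : ℕ)) + (s : ℕ) = ∑ x ∈ Tᶜ, (x : ℕ) := by
      rw [← h2, sum_insert h1, add_comm]
    have e4 : (∑ x ∈ T, (x : ℕ)) + ∑ x ∈ Tᶜ, (x : ℕ) = ∑ x : Fin (2 * p + 1), (x : ℕ) :=
      sum_add_sum_compl T _
    have e5 : ∑ x : Fin (2 * p + 1), (x : ℕ) = p * (2 * p + 1) := by
      rw [Fin.sum_univ_eq_sum_range (fun i => i) (2 * p + 1), Finset.sum_range_id]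
      rw [show (2 * p + 1) * (2 * p + 1 - 1) = (p * (2 * p + 1)) * 2 by
        rw [Nat.add_sub_cancel]; ring]
      exact Nat.mul_div_cancel _ (by norm_num)
    omega
  unfold eps sg
  rw [← pow_add, ← pow_add, ← pow_add]
  have e6 : (S.filter (· < s)).card + (∑ x ∈ S, (x : ℕ)) +
      ((T.filter (· < s)).card + ∑ x ∈ T, (x : ℕ)) = p * (2 * p + 1) := by omega
  rw [e6, show p * (2 * p + 1) = 2 * (p * p) + p by ring, pow_add, pow_mul]
  simp

theorem kos_transpose (s : Fin (2 * p + 1)) :
    (kos K p s).transpose = ((-1 : K) ^ p) • kos K p s := by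
  ext T S
  rw [Matrix.transpose_apply, Matrix.smul_apply, smul_eq_mul]
  unfold kos
  simp only [Matrix.of_apply]
  by_cases h : s ∉ S.1 ∧ insert s S.1 = T.1ᶜ
  · have h' := cond_symm h
    rw [if_pos h, if_pos h']
    have h1 := sign_prod (K := K) h
    have h2 : (eps K s S.1 * sg K S.1) * (eps K s S.1 * sg K S.1) = 1 := by
      linear_combination (eps K s S.1 * eps K s S.1) * sg_mul_self (K := K) S.1 +
        eps_mul_self (K := K) s S.1
    rw [← h1]
    linear_combination -(eps K s T.1 * sg K T.1) * h2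
  · have h' : ¬ (s ∉ T.1 ∧ insert s T.1 = S.1ᶜ) := fun hc => h (cond_symm hc)
    rw [if_neg h, if_neg h', mul_zero]

/-! ### The rank of the wedge product with a vector -/

/-- a column without the sign of its index -/
def colF (w : Fin (2 * p + 1) → K) (S : Finset (Fin (2 * p + 1))) : Sub p → K :=
  fun T => ∑ s, if s ∉ S ∧ insert s S = T.1ᶜ then w s * eps K s S else 0

theorem eps_insert {n : ℕ} {j s : Fin n} {R : Finset (Fin n)} (hj : j ∉ R) :
    eps K s (insert j R) = if j < s then - eps K s R else eps K s R := by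
  unfold eps
  by_cases h : j < s
  · rw [if_pos h, filter_insert, if_pos h, card_insert_of_notMem, pow_succ]
    · ring
    · intro hc
      exact hj (mem_of_mem_filter _ hc)
  · rw [if_neg h, filter_insert, if_neg h]

theorem colF_rel (w : Fin (2 * p + 1) → K) (R : Finset (Fin (2 * p + 1))) :
    ∑ j, (if j ∉ R then (w j * eps K j R) • colF w (insert j R) else 0) = 0 := by
  funext T
  rw [Finset.sum_apply, Pi.zero_apply]
  have e : ∀ j : Fin (2 * p + 1),
      (if j ∉ R then (w j * eps K j R) • colF w (insert j R) else 0) T =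
      ∑ s, (if j ∉ R ∧ s ∉ insert j R ∧ insert s (insert j R) = T.1ᶜ then
        (w j * eps K j R) * (w s * eps K s (insert j R)) else 0) := by
    intro j
    by_cases hj : j ∉ R
    · rw [if_pos hj, Pi.smul_apply, smul_eq_mul, colF, mul_sum]
      refine sum_congr rfl fun s _ => ?_
      by_cases hc : s ∉ insert j R ∧ insert s (insert j R) = T.1ᶜ
      · rw [if_pos hc, if_pos ⟨hj, hc⟩]
      · rw [if_neg hc, if_neg (fun h => hc h.2), mul_zero]
    · rw [if_neg hj, Pi.zero_apply]
      exact (sum_eq_zero fun s _ => if_neg (fun h => hj h.1)).symm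
  rw [sum_congr rfl fun j _ => e j, ← Finset.sum_product']
  have hsw : ∀ x : Fin (2 * p + 1) × Fin (2 * p + 1),
      (x.1 ∉ R ∧ x.2 ∉ insert x.1 R ∧ insert x.2 (insert x.1 R) = T.1ᶜ) →
      (x.2 ∉ R ∧ x.1 ∉ insert x.2 R ∧ insert x.1 (insert x.2 R) = T.1ᶜ) := by
    rintro ⟨j, s⟩ ⟨h1, h2, h3⟩
    simp only [mem_insert, not_or] at h1 h2 h3 ⊢
    refine ⟨h2.2, ⟨fun h => h2.1 h.symm, h1⟩, ?_⟩
    rw [← h3, insert_comm]
  refine Finset.sum_involution (fun x _ => (x.2, x.1)) ?_ ?_ ?_ ?_
  · rintro ⟨j, s⟩ -
    by_cases hc : j ∉ R ∧ s ∉ insert j R ∧ insert s (insert j R) = T.1ᶜ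
    · have hc' := hsw (j, s) hc
      simp only at hc' ⊢
      rw [if_pos hc, if_pos hc', eps_insert hc.1, eps_insert hc'.1]
      have hne : s ≠ j := fun h => hc.2.1 (by rw [h]; exact mem_insert_self _ _)
      rcases lt_or_gt_of_ne hne with h | h
      · rw [if_neg (not_lt.2 h.le), if_pos h]
        ring
      · rw [if_pos h, if_neg (not_lt.2 h.le)]
        ring
    · have hc' : ¬ (s ∉ R ∧ j ∉ insert s R ∧ insert j (insert s R) = T.1ᶜ) :=
        fun h => hc (hsw (s, j) h)
      simp only
      rw [if_neg hc, if_neg hc', add_zero]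
  · rintro ⟨j, s⟩ - hne heq
    simp only [Prod.mk.injEq] at heq
    apply hne
    simp only
    rw [if_neg]
    intro hc
    exact hc.2.1 (by rw [heq.1]; exact mem_insert_self _ _)
  · intro x _
    exact mem_univ _
  · intro x _
    rfl

theorem rank_kos (w : Fin (2 * p + 1) → K) : (∑ s, w s • kos K p s).rank ≤ (2 * p).choose p := by
  classical
  by_cases hw : w = 0
  · subst hw
    simp
  obtain ⟨i₀, hi₀⟩ := Function.ne_iff.1 hw
  rw [Pi.zero_apply] at hi₀
  set Z : Finset (Finset (Fin (2 * p + 1))) := powersetCard p (univ.erase i₀) with hZ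
  have hcardZ : Z.card = (2 * p).choose p := by
    rw [hZ, card_powersetCard, card_erase_of_mem (mem_univ _), card_univ, Fintype.card_fin]
    rfl
  set V : Submodule K (Sub p → K) := Submodule.span K ((Z.image (colF w) : Finset _) : Set _)
    with hV
  have hcol : ∀ S : Finset (Fin (2 * p + 1)), S.card = p → colF w S ∈ V := by
    intro S hS
    by_cases hi : i₀ ∈ S
    · set R := S.erase i₀ with hR
      have hiR : i₀ ∉ R := notMem_erase _ _
      have hcR : R.card + 1 = p := by
        rw [hR, card_erase_add_one hi, hS]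
      have hrel := colF_rel w R
      rw [← add_sum_erase _ _ (mem_univ i₀), if_pos hiR, hR, insert_erase hi, ← hR] at hrel
      have hne : w i₀ * eps K i₀ R ≠ 0 := mul_ne_zero hi₀ (eps_ne_zero _ _)
      rw [← Submodule.smul_mem_iff V hne]
      rw [eq_neg_of_add_eq_zero_left hrel]
      refine Submodule.neg_mem _ (Submodule.sum_mem _ fun j hj => ?_)
      by_cases hjR : j ∉ R
      swap
      · rw [if_neg hjR]
        exact Submodule.zero_mem _
      · rw [if_pos hjR]
        refine Submodule.smul_mem _ _ (Submodule.subset_span ?_)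
        rw [Finset.mem_coe, mem_image]
        refine ⟨insert j R, ?_, rfl⟩
        rw [hZ, mem_powersetCard]
        refine ⟨?_, by rw [card_insert_of_notMem hjR, hcR]⟩
        intro x hx
        rw [mem_insert] at hx
        rw [mem_erase]
        refine ⟨?_, mem_univ _⟩
        rintro rfl
        rcases hx with hx | hx
        · exact ne_of_mem_erase hj hx.symm
        · exact hiR hx
    · refine Submodule.subset_span ?_
      rw [Finset.mem_coe, mem_image]
      refine ⟨S, ?_, rfl⟩
      rw [hZ, mem_powersetCard]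
      refine ⟨fun x hx => ?_, hS⟩
      rw [mem_erase]
      exact ⟨fun h => hi (h ▸ hx), mem_univ _⟩
  have hfin : Module.finrank K V ≤ (2 * p).choose p := by
    rw [← hcardZ]
    exact (finrank_span_finset_le_card _).trans card_image_le
  rw [Matrix.rank_eq_finrank_span_cols]
  refine le_trans (Submodule.finrank_mono ?_) hfin
  rw [Submodule.span_le]
  rintro _ ⟨S, rfl⟩
  have e : (∑ s, w s • kos K p s).col S = sg K S.1 • colF w S.1 := by
    funext T
    rw [Matrix.col_apply, Matrix.sum_apply, Pi.smul_apply, smul_eq_mul, colF, mul_sum]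
    refine sum_congr rfl fun s _ => ?_
    rw [Matrix.smul_apply, smul_eq_mul]
    unfold kos
    rw [Matrix.of_apply]
    split_ifs
    · ring
    · ring
  rw [e]
  exact Submodule.smul_mem _ _ (hcol S.1 S.2)

/-! ### A family for which the flattening is invertible -/

theorem sum_kos_apply (s : Fin (2 * p + 1)) (T : Sub p) (y : Sub p → K) :
    ∑ S, kos K p s T S * y S = if h : s ∉ T.1 then
      eps K s ((insert s T.1)ᶜ) * sg K ((insert s T.1)ᶜ) * y ⟨(insert s T.1)ᶜ, by
        rw [card_compl, Fintype.card_fin, card_insert_of_notMem h, T.2]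
        omega⟩ else 0 := by
  have hiff : ∀ S : Finset (Fin (2 * p + 1)), (s ∉ S ∧ insert s S = T.1ᶜ) →
      s ∉ T.1 ∧ S = (insert s T.1)ᶜ := by
    intro S hS
    have := cond_symm hS
    exact ⟨this.1, by rw [this.2, compl_compl]⟩
  by_cases h : s ∉ T.1
  · rw [dif_pos h]
    rw [Finset.sum_eq_single (⟨(insert s T.1)ᶜ, by
        rw [card_compl, Fintype.card_fin, card_insert_of_notMem h, T.2]
        omega⟩ : Sub p)]
    · unfold kos
      rw [Matrix.of_apply, if_pos]
      apply cond_symm
      exact ⟨h, by rw [compl_compl]⟩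
    · intro S _ hS
      unfold kos
      rw [Matrix.of_apply, if_neg, zero_mul]
      intro hc
      exact hS (Subtype.ext (hiff S.1 hc).2)
    · intro hc
      exact absurd (mem_univ _) hc
  · rw [dif_neg h]
    refine sum_eq_zero fun S _ => ?_
    unfold kos
    rw [Matrix.of_apply, if_neg, zero_mul]
    intro hc
    exact h (hiff S.1 hc).1

/-- the matrices `G_s` of the good family: blocks of rank one, given by the points `a s` of the
moment curve -/
def good (q p : ℕ) (a : Fin (2 * p + 1) → K) (s : Fin (2 * p + 1)) :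
    Matrix (Fin q × Fin (p + 1)) (Fin q × Fin (p + 1)) K :=
  Matrix.of fun x y => if x.1 = y.1 then a s ^ (x.2 : ℕ) * a s ^ (y.2 : ℕ) else 0

open scoped Kronecker in
theorem good_det_ne_zero (q : ℕ) {a : Fin (2 * p + 1) → K} (ha : Function.Injective a) :
    (∑ s, good q p a s ⊗ₖ kos K p s).det ≠ 0 := by
  classical
  intro hdet
  obtain ⟨x, hx0, hx⟩ := Matrix.exists_mulVec_eq_zero_iff.2 hdet
  apply hx0
  -- the contracted vectors
  set y : Fin q → Fin (2 * p + 1) → Sub p → K :=
    fun c s S => ∑ b : Fin (p + 1), a s ^ (b : ℕ) * x ((c, b), S) with hy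
  have h1 : ∀ (c : Fin q) (b : Fin (p + 1)) (T : Sub p),
      ∑ s, a s ^ (b : ℕ) * ∑ S, kos K p s T S * y c s S = 0 := by
    intro c b T
    have h2 := congrFun hx ((c, b), T)
    rw [Pi.zero_apply, Matrix.mulVec, dotProduct] at h2
    rw [← h2]
    simp only [Matrix.sum_apply, Finset.sum_mul]
    rw [Finset.sum_comm]
    refine sum_congr rfl fun s _ => ?_
    rw [Fintype.sum_prod_type, Fintype.sum_prod_type]
    rw [Finset.sum_eq_single c]
    · rw [Finset.sum_comm, mul_sum]
      refine sum_congr rfl fun S _ => ?_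
      rw [hy]
      simp only [mul_sum]
      refine sum_congr rfl fun b' _ => ?_
      rw [Matrix.kroneckerMap_apply]
      unfold good
      rw [Matrix.of_apply]
      simp only [if_true]
      ring
    · intro c' _ hc'
      refine sum_eq_zero fun b' _ => sum_eq_zero fun S _ => ?_
      rw [Matrix.kroneckerMap_apply]
      unfold good
      rw [Matrix.of_apply]
      simp only
      rw [if_neg (fun h => hc' h.symm)]
      ring
    · intro h
      exact absurd (mem_univ _) h
  -- the contracted vectors vanish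
  have h2 : ∀ (c : Fin q) (s : Fin (2 * p + 1)) (S : Sub p), s ∉ S.1 → y c s S = 0 := by
    intro c s S hs
    have hTc : ((insert s S.1)ᶜ).card = p := by
      rw [card_compl, Fintype.card_fin, card_insert_of_notMem hs, S.2]
      omega
    set T : Sub p := ⟨(insert s S.1)ᶜ, hTc⟩ with hT
    have hcc : (T.1ᶜ).card = p + 1 := by
      rw [hT, compl_compl, card_insert_of_notMem hs, S.2]
    have hsT : s ∈ T.1ᶜ := by
      rw [hT, compl_compl]
      exact mem_insert_self _ _
    set f := T.1ᶜ.orderEmbOfFin hcc with hf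
    have hfm : ∀ i, f i ∈ T.1ᶜ := fun i => orderEmbOfFin_mem _ _ i
    have hinj : Function.Injective fun i => a (f i) := ha.comp f.injective
    set v : Fin (p + 1) → K := fun i => ∑ S', kos K p (f i) T S' * y c (f i) S' with hv
    have h3 : v = 0 := by
      refine Matrix.eq_zero_of_forall_pow_sum_mul_pow_eq_zero hinj fun b => ?_
      have h4 := h1 c b T
      have h5 : ∑ s, a s ^ (b : ℕ) * ∑ S, kos K p s T S * y c s S =
          ∑ s ∈ T.1ᶜ, a s ^ (b : ℕ) * ∑ S, kos K p s T S * y c s S := by
        symm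
        refine sum_subset (subset_univ _) fun s' _ hs' => ?_
        rw [sum_kos_apply, dif_neg, mul_zero]
        rw [mem_compl, not_not] at hs'
        exact fun h => h hs'
      rw [h5] at h4
      have h6 : T.1ᶜ = univ.image f := by
        rw [← coe_inj, coe_image, coe_univ, Set.image_univ, hf, range_orderEmbOfFin]
      rw [h6, sum_image (fun i _ j _ h => f.injective h)] at h4
      rw [← h4]
      exact sum_congr rfl fun i _ => by rw [hv]; ring
    obtain ⟨i, hi⟩ : ∃ i, f i = s := by
      have h6 : s ∈ Set.range f := by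
        rw [hf, range_orderEmbOfFin]
        exact hsT
      exact h6
    have h7 := congrFun h3 i
    rw [hv] at h7
    simp only [hi, Pi.zero_apply] at h7
    have hsT' : s ∉ T.1 := mem_compl.1 hsT
    rw [sum_kos_apply, dif_pos hsT'] at h7
    have h8 : (insert s T.1)ᶜ = S.1 := by
      rw [hT]
      ext z
      simp only [mem_compl, mem_insert, not_or, not_and, not_not]
      constructor
      · rintro ⟨hz, hz'⟩
        exact hz' hz
      · intro hz
        exact ⟨fun h => hs (h ▸ hz), fun _ => hz⟩
    have h9 : y c s ⟨(insert s T.1)ᶜ, by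
        rw [card_compl, Fintype.card_fin, card_insert_of_notMem hsT', T.2]
        omega⟩ = y c s S := congrArg (y c s) (Subtype.ext h8)
    rw [h9] at h7
    rcases mul_eq_zero.1 h7 with h | h
    · exact absurd h (mul_ne_zero (eps_ne_zero _ _) (sg_ne_zero _))
    · exact h
  -- the vector vanishes
  funext z
  obtain ⟨⟨c, b⟩, S⟩ := z
  rw [Pi.zero_apply]
  have hcc : (S.1ᶜ).card = p + 1 := by
    rw [card_compl, Fintype.card_fin, S.2]
    omega
  set f := S.1ᶜ.orderEmbOfFin hcc with hf
  have hinj : Function.Injective fun i => a (f i) := ha.comp f.injective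
  have h3 : (fun b' : Fin (p + 1) => x ((c, b'), S)) = 0 := by
    refine Matrix.eq_zero_of_forall_index_sum_pow_mul_eq_zero hinj fun i => ?_
    have := h2 c (f i) S (mem_compl.1 (orderEmbOfFin_mem _ _ i))
    rw [hy] at this
    exact this
  exact congrFun h3 b

end Pool.Agent.W946.Kos
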