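import Pool.Agent.W946.KosCore

set_option autoImplicit false

/-!
# From circuits to quadratic algorithms
-/

namespace Pool.Agent.W946.Kos

open Finset Pool.Agent.H88R3.MM Pool.Agent.H522R2 Pool.Agent.H522R2.Circuit

section poly

variable {F V : Type*} [Field F]

/-- the coefficient of a variable in the linear part -/
noncomputable def D1 (x : V) (P : MvPolynomial V F) : F :=
  MvPolynomial.constantCoeff (MvPolynomial.pderiv x P)

/-- the second partial derivative at the origin -/
noncomputable def D2 (x y : V) (P : MvPolynomial V F) : F :=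
  MvPolynomial.constantCoeff (MvPolynomial.pderiv x (MvPolynomial.pderiv y P))

theorem D1_C (x : V) (c : F) : D1 x (MvPolynomial.C c) = 0 := by
  unfold D1
  rw [MvPolynomial.pderiv_C, map_zero]

theorem D1_add (x : V) (P Q : MvPolynomial V F) : D1 x (P + Q) = D1 x P + D1 x Q := by
  unfold D1
  rw [map_add, map_add]

theorem D1_mul (x : V) (P Q : MvPolynomial V F) : D1 x (P * Q) =
    MvPolynomial.constantCoeff P * D1 x Q + MvPolynomial.constantCoeff Q * D1 x P := by
  unfold D1
  rw [MvPolynomial.pderiv_mul, map_add, map_mul, map_mul]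
  ring

theorem D2_C (x y : V) (c : F) : D2 x y (MvPolynomial.C c) = 0 := by
  unfold D2
  rw [MvPolynomial.pderiv_C, map_zero, map_zero]

theorem D2_X (x y z : V) : D2 x y (MvPolynomial.X z : MvPolynomial V F) = 0 := by
  classical
  unfold D2
  rw [MvPolynomial.pderiv_X]
  by_cases h : y = z
  · subst h
    rw [Pi.single_eq_same, MvPolynomial.pderiv_one, map_zero]
  · rw [Pi.single_eq_of_ne' h, map_zero, map_zero]

theorem D2_add (x y : V) (P Q : MvPolynomial V F) : D2 x y (P + Q) = D2 x y P + D2 x y Q := by
  unfold D2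
  rw [map_add, map_add, map_add]

theorem D2_sum {ι : Type*} (x y : V) (s : Finset ι) (P : ι → MvPolynomial V F) :
    D2 x y (∑ i ∈ s, P i) = ∑ i ∈ s, D2 x y (P i) := by
  unfold D2
  rw [map_sum, map_sum, map_sum]

theorem D2_mul (x y : V) (P Q : MvPolynomial V F) : D2 x y (P * Q) =
    MvPolynomial.constantCoeff P * D2 x y Q + MvPolynomial.constantCoeff Q * D2 x y P +
      (D1 x P * D1 y Q + D1 y P * D1 x Q) := by
  unfold D2 D1
  rw [MvPolynomial.pderiv_mul, map_add, MvPolynomial.pderiv_mul, MvPolynomial.pderiv_mul]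
  simp only [map_add, map_mul]
  ring

open Classical in
/-- The second order part at a node is a linear combination of the products of the linear parts
at the inputs of the nonscalar multiplication gates. -/
theorem exists_comb2 (C : Circuit F V) (k : Fin C.nodes) :
    ∃ c : {g : Fin C.nodes // C.IsNonscalar g} → F, ∀ x y : V,
      D2 x y (C.poly k) = ∑ g, c g *
        (D1 x (C.poly (inp C g.1).1) * D1 y (C.poly (inp C g.1).2) +
          D1 y (C.poly (inp C g.1).1) * D1 x (C.poly (inp C g.1).2)) := by
  obtain ⟨k, hk⟩ := k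
  induction k using Nat.strong_induction_on with
  | _ k ih =>
    cases h : C.gate ⟨k, hk⟩ with
    | var z =>
      refine ⟨0, fun x y => ?_⟩
      rw [poly, h]
      simp [D2_X]
    | const c =>
      refine ⟨0, fun x y => ?_⟩
      rw [poly, h]
      simp [D2_C]
    | add i j =>
      obtain ⟨c1, h1⟩ := ih i i.2 (i.2.trans hk)
      obtain ⟨c2, h2⟩ := ih j j.2 (j.2.trans hk)
      refine ⟨fun g => c1 g + c2 g, fun x y => ?_⟩
      rw [poly, h]
      simp only
      rw [show C.up ⟨k, hk⟩ i = ⟨i, i.2.trans hk⟩ from rfl,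
        show C.up ⟨k, hk⟩ j = ⟨j, j.2.trans hk⟩ from rfl, D2_add, h1, h2,
        ← Finset.sum_add_distrib]
      exact Finset.sum_congr rfl fun g _ => by ring
    | mul i j =>
      obtain ⟨c1, h1⟩ := ih i i.2 (i.2.trans hk)
      obtain ⟨c2, h2⟩ := ih j j.2 (j.2.trans hk)
      have hin : inp C ⟨k, hk⟩ = (C.up ⟨k, hk⟩ i, C.up ⟨k, hk⟩ j) := by
        unfold inp
        rw [h]
      have hp : C.poly ⟨k, hk⟩ = C.poly (C.up ⟨k, hk⟩ i) * C.poly (C.up ⟨k, hk⟩ j) := by
        conv_lhs => rw [poly, h]
      by_cases hns : C.IsNonscalar ⟨k, hk⟩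
      · refine ⟨fun g => MvPolynomial.constantCoeff (C.poly (C.up ⟨k, hk⟩ i)) * c2 g +
          MvPolynomial.constantCoeff (C.poly (C.up ⟨k, hk⟩ j)) * c1 g +
          (if g = ⟨⟨k, hk⟩, hns⟩ then 1 else 0), fun x y => ?_⟩
        rw [hp, D2_mul]
        rw [show D2 x y (C.poly (C.up ⟨k, hk⟩ i)) = _ from h1 x y,
          show D2 x y (C.poly (C.up ⟨k, hk⟩ j)) = _ from h2 x y]
        simp only [add_mul, Finset.sum_add_distrib, ite_mul, one_mul, zero_mul,
          Finset.sum_ite_eq', Finset.mem_univ, if_true, hin, Finset.mul_sum, mul_assoc]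
      · refine ⟨fun g => MvPolynomial.constantCoeff (C.poly (C.up ⟨k, hk⟩ i)) * c2 g +
          MvPolynomial.constantCoeff (C.poly (C.up ⟨k, hk⟩ j)) * c1 g, fun x y => ?_⟩
        rw [hp, D2_mul]
        rw [show D2 x y (C.poly (C.up ⟨k, hk⟩ i)) = _ from h1 x y,
          show D2 x y (C.poly (C.up ⟨k, hk⟩ j)) = _ from h2 x y]
        have hz : D1 x (C.poly (C.up ⟨k, hk⟩ i)) * D1 y (C.poly (C.up ⟨k, hk⟩ j)) +
            D1 y (C.poly (C.up ⟨k, hk⟩ i)) * D1 x (C.poly (C.up ⟨k, hk⟩ j)) = 0 := by
          have h3 : (∃ c : F, C.poly (C.up ⟨k, hk⟩ i) = MvPolynomial.C c) ∨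
              ∃ c : F, C.poly (C.up ⟨k, hk⟩ j) = MvPolynomial.C c := by
            by_contra hcon
            push Not at hcon
            exact hns ⟨i, j, h, hcon.1, hcon.2⟩
          rcases h3 with ⟨c, hc⟩ | ⟨c, hc⟩
          · rw [hc, D1_C, D1_C]
            ring
          · rw [hc, D1_C, D1_C]
            ring
        rw [hz, add_zero]
        simp only [add_mul, Finset.sum_add_distrib, Finset.mul_sum, mul_assoc]

end poly

section mm

variable {F : Type*} [Field F] {m : ℕ}

theorem D1_X [DecidableEq (Vars m)] (x z : Vars m) :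
    D1 x (MvPolynomial.X z : MvPolynomial (Vars m) F) = if x = z then 1 else 0 := by
  unfold D1
  rw [MvPolynomial.pderiv_X, Pi.single_apply]
  by_cases h : z = x
  · rw [if_pos h, if_pos h.symm, map_one]
  · rw [if_neg h, if_neg (fun h' => h h'.symm), map_zero]

theorem D2_entry (i j : Fin m) (x y : Vars m) :
    D2 x y (entry F m i j) = symM (Matrix.single i j (1 : F)) x y := by
  classical
  unfold entry
  rw [D2_sum]
  have h1 : ∀ k : Fin m, D2 x y (MvPolynomial.X (Sum.inl (i, k)) *
      MvPolynomial.X (Sum.inr (k, j)) : MvPolynomial (Vars m) F) =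
      (if x = Sum.inl (i, k) then 1 else 0) * (if y = Sum.inr (k, j) then 1 else 0) +
      (if y = Sum.inl (i, k) then 1 else 0) * (if x = Sum.inr (k, j) then 1 else 0) := by
    intro k
    rw [D2_mul, D2_X, D2_X, mul_zero, mul_zero, add_zero, zero_add, D1_X, D1_X, D1_X, D1_X]
  simp only [h1]
  rcases x with ⟨a, b⟩ | ⟨a, b⟩ <;> rcases y with ⟨c, d⟩ | ⟨c, d⟩
  · simp [symM]
  · simp only [symM, Matrix.of_apply, Sum.inl.injEq, Sum.inr.injEq, Prod.mk.injEq, reduceCtorEq,
      if_false, mul_zero, add_zero, Matrix.single_apply, zero_mul]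
    by_cases hbc : b = c
    · subst hbc
      rw [if_pos rfl, Finset.sum_eq_single b]
      · rcases eq_or_ne a i with rfl | h3 <;> rcases eq_or_ne d j with rfl | h2
        · simp
        · simp [h2, h2.symm]
        · simp [h3, h3.symm]
        · simp [h3, h3.symm]
      · intro k _ hk
        rw [if_neg (fun h => hk h.2.symm), zero_mul]
      · intro h
        exact absurd (mem_univ _) h
    · rw [if_neg hbc]
      refine sum_eq_zero fun k _ => ?_
      by_cases h1 : a = i ∧ b = k
      · rw [if_neg (fun h : c = k ∧ d = j => hbc (h1.2.trans h.1.symm)), mul_zero]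
      · rw [if_neg h1, zero_mul]
  · simp only [symM, Matrix.of_apply, Sum.inl.injEq, Sum.inr.injEq, Prod.mk.injEq, reduceCtorEq,
      if_false, mul_zero, zero_add, Matrix.single_apply, zero_mul]
    by_cases hbc : d = a
    · subst hbc
      rw [if_pos rfl, Finset.sum_eq_single d]
      · rcases eq_or_ne c i with rfl | h3 <;> rcases eq_or_ne b j with rfl | h2
        · simp
        · simp [h2, h2.symm]
        · simp [h3, h3.symm]
        · simp [h3, h3.symm]
      · intro k _ hk
        rw [if_neg (fun h => hk h.2.symm), zero_mul]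
      · intro h
        exact absurd (mem_univ _) h
    · rw [if_neg hbc]
      refine sum_eq_zero fun k _ => ?_
      by_cases h1 : c = i ∧ d = k
      · rw [if_neg (fun h : a = k ∧ b = j => hbc (h1.2.trans h.1.symm)), mul_zero]
      · rw [if_neg h1, zero_mul]
  · simp [symM]

theorem symM_expand {K : Type*} [Field K] (G : Matrix (Fin m) (Fin m) K) (x y : Vars m) :
    symM G x y = ∑ i, ∑ j, G i j * symM (Matrix.single i j (1 : K)) x y := by
  classical
  rcases x with ⟨a, b⟩ | ⟨a, b⟩ <;> rcases y with ⟨c, d⟩ | ⟨c, d⟩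
  · simp [symM]
  · simp only [symM, Matrix.of_apply]
    by_cases h : b = c
    · simp only [if_pos h, Matrix.single_apply]
      rw [Finset.sum_eq_single a, Finset.sum_eq_single d]
      · simp
      · intro j _ hj
        rw [if_neg (fun h => hj h.2), mul_zero]
      · intro h
        exact absurd (mem_univ _) h
      · intro i _ hi
        refine sum_eq_zero fun j _ => ?_
        rw [if_neg (fun h => hi h.1), mul_zero]
      · intro h
        exact absurd (mem_univ _) h
    · simp only [if_neg h, mul_zero, sum_const_zero]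
  · simp only [symM, Matrix.of_apply]
    by_cases h : d = a
    · simp only [if_pos h, Matrix.single_apply]
      rw [Finset.sum_eq_single c, Finset.sum_eq_single b]
      · simp
      · intro j _ hj
        rw [if_neg (fun h => hj h.2), mul_zero]
      · intro h
        exact absurd (mem_univ _) h
      · intro i _ hi
        refine sum_eq_zero fun j _ => ?_
        rw [if_neg (fun h => hi h.1), mul_zero]
      · intro h
        exact absurd (mem_univ _) h
    · simp only [if_neg h, mul_zero, sum_const_zero]
  · simp [symM]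

theorem symM_map {K : Type*} [Field K] (f : F →+* K) (i j : Fin m) (x y : Vars m) :
    f (symM (Matrix.single i j (1 : F)) x y) = symM (Matrix.single i j (1 : K)) x y := by
  classical
  rcases x with ⟨a, b⟩ | ⟨a, b⟩ <;> rcases y with ⟨c, d⟩ | ⟨c, d⟩
  · simp [symM]
  · simp only [symM, Matrix.of_apply, Matrix.single_apply]
    split_ifs <;> simp
  · simp only [symM, Matrix.of_apply, Matrix.single_apply]
    split_ifs <;> simp
  · simp [symM]

open Classical in
/-- the quadratic algorithm of a circuit, over an extension field -/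
theorem exists_quad {K : Type*} [Field K] (f : F →+* K) (C : Circuit F (Vars m))
    (hC : ∀ i j, ∃ k : Fin C.nodes, C.poly k = entry F m i j) :
    ∃ w : {g : Fin C.nodes // C.IsNonscalar g} → Matrix (Fin m) (Fin m) K,
      IsQuad (K := K) (L := {g : Fin C.nodes // C.IsNonscalar g})
        (fun g x => f (D1 x (C.poly (inp C g.1).1)))
        (fun g x => f (D1 x (C.poly (inp C g.1).2))) w := by
  choose out hout using hC
  choose c hc using fun k => exists_comb2 C k
  refine ⟨fun g => Matrix.of fun i j => f (c (out i j) g), fun G => ?_⟩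
  ext x y
  rw [symM_expand, Matrix.sum_apply]
  have h1 : ∀ i j, symM (Matrix.single i j (1 : K)) x y = ∑ g, f (c (out i j) g) *
      (f (D1 x (C.poly (inp C g.1).1)) * f (D1 y (C.poly (inp C g.1).2)) +
        f (D1 y (C.poly (inp C g.1).1)) * f (D1 x (C.poly (inp C g.1).2))) := by
    intro i j
    rw [← symM_map f, ← D2_entry, ← hout i j, hc, map_sum]
    exact sum_congr rfl fun g _ => by simp only [map_mul, map_add]
  simp only [h1, mul_sum]
  have h2 : ∀ g : {g : Fin C.nodes // C.IsNonscalar g},
      (pr G (Matrix.of fun i j => f (c (out i j) g)) •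
        (Matrix.vecMulVec (fun x => f (D1 x (C.poly (inp C g.1).1)))
            (fun x => f (D1 x (C.poly (inp C g.1).2))) +
          Matrix.vecMulVec (fun x => f (D1 x (C.poly (inp C g.1).2)))
            (fun x => f (D1 x (C.poly (inp C g.1).1))))) x y =
      ∑ i, ∑ j, G i j * (f (c (out i j) g) *
        (f (D1 x (C.poly (inp C g.1).1)) * f (D1 y (C.poly (inp C g.1).2)) +
          f (D1 y (C.poly (inp C g.1).1)) * f (D1 x (C.poly (inp C g.1).2)))) := by
    intro g
    rw [Matrix.smul_apply, Matrix.add_apply, Matrix.vecMulVec_apply, Matrix.vecMulVec_apply,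
      smul_eq_mul]
    unfold pr
    rw [sum_mul]
    refine sum_congr rfl fun i _ => ?_
    rw [sum_mul]
    refine sum_congr rfl fun j _ => ?_
    rw [Matrix.of_apply]
    ring
  simp only [h2]
  have h3 : ∀ i : Fin m, (∑ j, ∑ g, G i j * (f (c (out i j) g) *
        (f (D1 x (C.poly (inp C g.1).1)) * f (D1 y (C.poly (inp C g.1).2)) +
          f (D1 y (C.poly (inp C g.1).1)) * f (D1 x (C.poly (inp C g.1).2))))) =
      ∑ g : {g : Fin C.nodes // C.IsNonscalar g}, ∑ j, G i j * (f (c (out i j) g) *
        (f (D1 x (C.poly (inp C g.1).1)) * f (D1 y (C.poly (inp C g.1).2)) +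
          f (D1 y (C.poly (inp C g.1).1)) * f (D1 x (C.poly (inp C g.1).2)))) :=
    fun i => sum_comm
  rw [sum_congr rfl fun i _ => h3 i, sum_comm]

open Classical in
/-- The bound for circuits over an arbitrary field. -/
theorem circuit_bound (C : Circuit F (Vars m))
    (hC : ∀ i j, ∃ k : Fin C.nodes, C.poly k = entry F m i j) (q p : ℕ)
    (hqp : q * (p + 1) ≤ m) :
    m ^ 2 + (2 * p + 1) * m * q ≤
      C.nonscalarCount + q * (p + 1) * (2 * p + 1).choose p := by
  obtain ⟨w, hw⟩ := exists_quad (algebraMap F (AlgebraicClosure F)) C hC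
  have h := core hw q p hqp
  rw [Circuit.nonscalarCount, Nat.card_eq_fintype_card]
  exact h

end mm

end Pool.Agent.W946.Kos
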