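import Pool.Agent.W946.KosCirc

set_option autoImplicit false

namespace Pool.Agent.W946.Kos

open Finset Pool.Agent.H88R3.MM Pool.Agent.H522R2

variable {F : Type*} [Field F] {m : ℕ}

theorem bound_p (C : Circuit F (Vars m))
    (hC : ∀ i j, ∃ k : Fin C.nodes, C.poly k = entry F m i j) (p : ℕ) :
    (3 - 1 / ((p : ℝ) + 1)) * (m : ℝ) ^ 2 ≤ C.nonscalarCount + (2 * p + 4 ^ p) * m := by
  have hdm := Nat.div_add_mod m (p + 1)
  have hmod := Nat.mod_lt m (show 0 < p + 1 by omega)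
  set q := m / (p + 1) with hq
  have hqp : q * (p + 1) ≤ m := Nat.div_mul_le_self m (p + 1)
  have h1 := circuit_bound C hC q p hqp
  have h2 : q * (p + 1) * (2 * p + 1).choose p ≤ m * 4 ^ p :=
    Nat.mul_le_mul hqp (Nat.choose_middle_le_pow p)
  have h3 : m ^ 2 + (2 * p + 1) * m * q ≤ C.nonscalarCount + m * 4 ^ p := by omega
  have h4 : m ≤ q * (p + 1) + p := by
    have : (p + 1) * q = q * (p + 1) := mul_comm _ _
    omega
  have h5 : (m : ℝ) ^ 2 + (2 * p + 1) * m * q ≤ C.nonscalarCount + m * 4 ^ p := by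
    exact_mod_cast h3
  have h6 : (m : ℝ) ≤ q * (p + 1) + p := by exact_mod_cast h4
  have hp : (0 : ℝ) < (p : ℝ) + 1 := by positivity
  have hm0 : (0 : ℝ) ≤ m := by positivity
  have h7 : (2 - 1 / ((p : ℝ) + 1)) * (m : ℝ) ^ 2 ≤ (2 * p + 1) * m * q + 2 * p * m := by
    have e1 : (2 - 1 / ((p : ℝ) + 1)) * (m : ℝ) ^ 2 = ((2 * p + 1) * m ^ 2) / (p + 1) := by
      field_simp
      ring
    rw [e1, div_le_iff₀ hp]
    have h8 : (2 * (p : ℝ) + 1) * m * m ≤ (2 * p + 1) * m * (q * (p + 1) + p) :=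
      mul_le_mul_of_nonneg_left h6 (by positivity)
    have hp0 : (0 : ℝ) ≤ p := by positivity
    nlinarith [mul_nonneg hp0 hm0]
  linarith

theorem bound_log (C : Circuit F (Vars m))
    (hC : ∀ i j, ∃ k : Fin C.nodes, C.poly k = entry F m i j) (hm : 2 ≤ m) :
    3 * (m : ℝ) ^ 2 - 4 * (m : ℝ) ^ 2 / Real.logb 2 m - 2 * m * Real.sqrt m ≤
      C.nonscalarCount := by
  set p := Nat.log 2 m / 4 with hp
  have h1 := bound_p C hC p
  have hm' : (0 : ℝ) < m := by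
    have : 0 < m := by omega
    exact_mod_cast this
  have hlog : 0 < Real.logb 2 m := Real.logb_pos (by norm_num) (by exact_mod_cast (show 1 < m by omega))
  have h2 : Real.logb 2 m < 4 * ((p : ℝ) + 1) := by
    rw [Real.logb_lt_iff_lt_rpow (by norm_num) hm']
    have h3 : m < 2 ^ (4 * (p + 1)) := by
      refine (Nat.lt_pow_succ_log_self (b := 2) (by norm_num) m).trans_le ?_
      exact Nat.pow_le_pow_right (by norm_num) (by omega)
    have h4 : (m : ℝ) < (2 : ℝ) ^ (4 * (p + 1)) := by exact_mod_cast h3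
    have h5 : (2 : ℝ) ^ (4 * (p + 1)) = (2 : ℝ) ^ (4 * ((p : ℝ) + 1)) := by
      rw [← Real.rpow_natCast]
      congr 1
      push_cast
      ring
    rw [← h5]
    exact h4
  have h3 : 1 / ((p : ℝ) + 1) ≤ 4 / Real.logb 2 m := by
    rw [div_le_div_iff₀ (by positivity) hlog]
    linarith
  have h4 : (4 : ℝ) ^ p ≤ Real.sqrt m := by
    apply Real.le_sqrt_of_sq_le
    have h5 : (4 ^ p) ^ 2 ≤ m := by
      refine le_trans ?_ (Nat.pow_log_le_self 2 (show m ≠ 0 by omega))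
      rw [← pow_mul, show (4 : ℕ) = 2 ^ 2 by norm_num, ← pow_mul]
      exact Nat.pow_le_pow_right (by norm_num) (by omega)
    exact_mod_cast h5
  have h5 : 2 * (p : ℝ) ≤ 4 ^ p := by
    have h6 : ∀ n : ℕ, 2 * n ≤ 4 ^ n := by
      intro n
      induction n with
      | zero => norm_num
      | succ n ih =>
        rw [pow_succ]
        have : 1 ≤ 4 ^ n := Nat.one_le_pow _ _ (by norm_num)
        omega
    exact_mod_cast h6 p
  have h6 : (1 / ((p : ℝ) + 1)) * (m : ℝ) ^ 2 ≤ 4 * (m : ℝ) ^ 2 / Real.logb 2 m := by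
    have := mul_le_mul_of_nonneg_right h3 (sq_nonneg (m : ℝ))
    calc _ ≤ _ := this
      _ = _ := by ring
  have h7 : (2 * (p : ℝ) + 4 ^ p) * m ≤ 2 * m * Real.sqrt m := by
    have : (2 * (p : ℝ) + 4 ^ p) ≤ 2 * Real.sqrt m := by linarith
    calc (2 * (p : ℝ) + 4 ^ p) * m ≤ (2 * Real.sqrt m) * m :=
          mul_le_mul_of_nonneg_right this hm'.le
      _ = _ := by ring
  nlinarith

universe u

theorem bound_eventually (ε : ℝ) (hε : 0 < ε) : ∃ m₀ : ℕ, ∀ (F : Type u) [Field F] (m : ℕ)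
    (C : Circuit F (Vars m)), m₀ ≤ m →
    (∀ i j, ∃ k : Fin C.nodes, C.poly k = entry F m i j) →
    (3 - ε) * (m : ℝ) ^ 2 ≤ C.nonscalarCount := by
  obtain ⟨p, hp⟩ := exists_nat_gt (2 / ε)
  obtain ⟨m₀, hm₀⟩ := exists_nat_gt ((2 * (p : ℝ) + 4 ^ p) * (2 / ε))
  refine ⟨m₀, fun F _ m C hm hC => ?_⟩
  have h1 := bound_p C hC p
  have hm1 : (m₀ : ℝ) ≤ m := by exact_mod_cast hm
  have h2 : 1 / ((p : ℝ) + 1) ≤ ε / 2 := by
    rw [div_le_div_iff₀ (by positivity) (by norm_num)]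
    rw [div_lt_iff₀ hε] at hp
    nlinarith
  have h3 : (2 * (p : ℝ) + 4 ^ p) ≤ (ε / 2) * m := by
    have h4 : (2 * (p : ℝ) + 4 ^ p) * (2 / ε) ≤ m := (hm₀.le).trans hm1
    have h5 : (ε / 2) * ((2 * (p : ℝ) + 4 ^ p) * (2 / ε)) = (2 * (p : ℝ) + 4 ^ p) := by
      field_simp
    rw [← h5]
    exact mul_le_mul_of_nonneg_left h4 (by positivity)
  have hm0 : (0 : ℝ) ≤ m := by positivity
  have h4 := mul_le_mul_of_nonneg_right h2 (sq_nonneg (m : ℝ))
  have h5 := mul_le_mul_of_nonneg_right h3 hm0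
  nlinarith

end Pool.Agent.W946.Kos
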