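import Pool.Agent.W946.LcFwd

set_option autoImplicit false

/-!
# The system of equations of the transposed circuit
-/

namespace Pool.Agent.W946.Lc

open Finset Pool.Agent.W946.Sz

variable {F X Y : Type*} [Field F] [DecidableEq X] {A : Y → X → F}

namespace Net

/-- the equations of the transposed circuit -/
noncomputable def Hb (N : Net F X Y A) (u v : ℕ) : F :=
  (if v = u then 1 else 0) - N.row v (Sum.inr u)

variable {N : Net F X Y A}

theorem Hb_ne {v u : ℕ} (hv : v ∈ N.U) :
    N.Hb u v ≠ 0 ↔ v = u ∨ Sum.inr u ∈ (N.row v).support := by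
  unfold Hb
  by_cases h : v = u
  · subst h
    rw [if_pos rfl, Finsupp.notMem_support_iff.1 (not_self hv), sub_zero]
    simp
  · rw [if_neg h, zero_sub, neg_ne_zero, Finsupp.mem_support_iff]
    simp [h]

variable [Fintype Y]

/-- the outputs -/
def O (N : Net F X Y A) : Finset ℕ := univ.image N.out

/-- the hidden gates -/
def Hd (N : Net F X Y A) : Finset ℕ := N.U \ N.O

theorem O_sub : N.O ⊆ N.U := by
  intro v hv
  unfold O at hv
  obtain ⟨y, _, rfl⟩ := mem_image.1 hv
  exact (N.hout y).1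

theorem card_O (hinj : Function.Injective N.out) : N.O.card = Fintype.card Y := by
  rw [O, card_image_of_injective _ hinj, card_univ]

theorem card_U (hinj : Function.Injective N.out) :
    N.U.card = Fintype.card Y + N.Hd.card := by
  have h := card_sdiff_add_card_eq_card (O_sub (N := N))
  rw [card_O hinj] at h
  unfold Hd
  omega

theorem mem_Hd {v : ℕ} : v ∈ N.Hd ↔ v ∈ N.U ∧ ∀ y, N.out y ≠ v := by
  unfold Hd O
  rw [mem_sdiff, mem_image]
  simp

/-- the hidden gates which are read by a gate -/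
def hid (N : Net F X Y A) (v : ℕ) : Finset ℕ :=
  N.Hd.filter fun u => Sum.inr u ∈ (N.row v).support

theorem card_eqs_b {v : ℕ} (hv : v ∈ N.U) :
    (eqs N.Hb N.Hd v).card = (N.hid v).card + if v ∈ N.Hd then 1 else 0 := by
  by_cases h : v ∈ N.Hd
  · rw [if_pos h]
    have h1 : eqs N.Hb N.Hd v = insert v (N.hid v) := by
      ext u
      rw [mem_eqs, mem_insert, Hb_ne hv, hid, mem_filter]
      constructor
      · rintro ⟨h1, h2 | h2⟩
        · exact Or.inl h2.symm
        · exact Or.inr ⟨h1, h2⟩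
      · rintro (h1 | h1)
        · subst h1
          exact ⟨h, Or.inl rfl⟩
        · exact ⟨h1.1, Or.inr h1.2⟩
    rw [h1, card_insert_of_notMem]
    intro h2
    unfold hid at h2
    exact not_self hv (mem_filter.1 h2).2
  · rw [if_neg h, add_zero]
    congr 1
    ext u
    rw [mem_eqs, Hb_ne hv, hid, mem_filter]
    constructor
    · rintro ⟨h1, h2 | h2⟩
      · exact absurd (h2 ▸ h1) h
      · exact ⟨h1, h2⟩
    · rintro ⟨h1, h2⟩
      exact ⟨h1, Or.inr h2⟩

theorem card_hid_le (v : ℕ) : (N.hid v).card ≤ N.k v := by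
  refine card_le_card_of_injOn (fun u => Sum.inr u) ?_ (fun _ _ _ _ h => Sum.inr_injective h)
  intro u hu
  unfold hid at hu
  exact (mem_filter.1 hu).2

omit [Fintype Y] in
theorem card_rowb_le {E : Finset ℕ} (hE : E ⊆ N.U) (u : ℕ) :
    (Sz.row N.Hb E u).card ≤ (N.users (Sum.inr u)).card + 1 := by
  refine (card_le_card (t := insert u (N.users (Sum.inr u))) fun v hv => ?_).trans
    (card_insert_le _ _)
  obtain ⟨h1, h2⟩ := mem_row.1 hv
  rw [mem_insert, mem_users]
  rcases (Hb_ne (hE h1)).1 h2 with h3 | h3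
  · exact Or.inl h3
  · exact Or.inr ⟨hE h1, h3⟩

/-- the gates of small fan-in -/
def Eb (N : Net F X Y A) (Δ : ℕ) : Finset ℕ := N.U.filter fun v => N.k v ≤ Δ

omit [Fintype Y] in
theorem card_Eb (N : Net F X Y A) (Δ : ℕ) :
    (Δ + 1) * N.U.card ≤ (Δ + 1) * (N.Eb Δ).card + N.edges := by
  have h3 : ∑ v ∈ N.U, (Δ + 1) ≤ ∑ v ∈ N.U, ((if N.k v ≤ Δ then (Δ + 1) else 0) + N.k v) := by
    refine sum_le_sum fun s _ => ?_
    by_cases h : N.k s ≤ Δ
    · rw [if_pos h]
      exact Nat.le_add_right _ _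
    · rw [if_neg h]
      omega
  rw [sum_const, smul_eq_mul, sum_add_distrib, ← sum_filter, sum_const, smul_eq_mul] at h3
  unfold Eb edges
  nlinarith

variable [Fintype X]

omit [Fintype Y] in
/-- the coefficient of an input in the form of a gate -/
theorem L_apply {v : ℕ} (hv : v ∈ N.U) (x : X) :
    N.L v x = N.row v (Sum.inl x) + ∑ u ∈ N.U, N.row v (Sum.inr u) * N.L u x := by
  have h1 : N.L v x = ∑ s ∈ N.sym, N.row v s * vec N.L s x := by
    rw [← N.form v hv, Finsupp.linearCombination_apply, Finsupp.sum]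
    rw [Finset.sum_apply]
    symm
    refine (sum_subset (supp_sub_sym hv) fun s _ hs => ?_).symm
    rw [Finsupp.notMem_support_iff.1 hs, zero_mul]
  have h2 : ∑ s ∈ N.sym, N.row v s * vec N.L s x = ∑ x', N.row v (Sum.inl x') *
      vec N.L (Sum.inl x') x + ∑ u ∈ N.U, N.row v (Sum.inr u) * vec N.L (Sum.inr u) x := by
    unfold sym
    rw [sum_disjSum]
  rw [h1, h2]
  congr 1
  rw [Finset.sum_eq_single x]
  · simp [vec]
  · intro x' _ hne
    simp only [vec, Sum.elim_inl]
    rw [Pi.single_eq_of_ne (fun h => hne h.symm), mul_zero]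
  · intro h
    exact absurd (mem_univ _) h

theorem dist_back (hinj : Function.Injective N.out) {D Δ T : ℕ}
    (hA : ∀ ψ : Y → F, ψ ≠ 0 → D ≤ wt ψ + wt (∑ y, ψ y • A y)) (hT : (1 + Δ) * T ≤ D) :
    Dist N.Hb (N.Eb Δ) N.Hd T := by
  classical
  intro x hx hne
  have hEU : N.Eb Δ ⊆ N.U := filter_subset _ _
  have hxU : ∀ v, v ∉ N.U → x v = 0 := fun v hv => hx.1 v fun h => hv (hEU h)
  set ψ₀ : ℕ → F := fun u => x u - ∑ v ∈ N.U, N.row v (Sum.inr u) * x v with hψ₀
  -- the hidden gates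
  have hhid : ∀ u ∈ N.Hd, ψ₀ u = 0 := by
    intro u hu
    have h1 := hx.2 u hu
    have h2 : ∑ v ∈ N.Eb Δ, N.Hb u v * x v = ∑ v ∈ N.U, N.Hb u v * x v := by
      refine sum_subset hEU fun v _ hv => ?_
      rw [hx.1 v hv, mul_zero]
    rw [h2] at h1
    unfold Hb at h1
    simp only [sub_mul, sum_sub_distrib, ite_mul, one_mul, zero_mul] at h1
    rw [sum_ite_eq', if_pos (mem_sdiff.1 hu).1] at h1
    exact h1
  -- the last gate with nonzero value
  obtain ⟨v₀, hv₀⟩ : ∃ v₀, x v₀ ≠ 0 := Function.ne_iff.1 hne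
  have hv₀U : v₀ ∈ N.U := by
    by_contra h
    exact hv₀ (hxU _ h)
  have hnemp : (N.U.filter fun v => x v ≠ 0).Nonempty := ⟨v₀, mem_filter.2 ⟨hv₀U, hv₀⟩⟩
  obtain ⟨w, hw, hwmax⟩ := exists_max_image _ (fun v => v) hnemp
  rw [mem_filter] at hw
  have hψw : ψ₀ w ≠ 0 := by
    have h1 : ∑ v ∈ N.U, N.row v (Sum.inr w) * x v = 0 := by
      refine sum_eq_zero fun v hv => ?_
      by_cases h2 : Sum.inr w ∈ (N.row v).support
      · have h3 := (N.early v hv w h2).2
        have h4 : x v = 0 := by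
          by_contra h5
          exact absurd (hwmax v (mem_filter.2 ⟨hv, h5⟩)) (not_le.2 h3)
        rw [h4, mul_zero]
      · rw [Finsupp.notMem_support_iff.1 h2, zero_mul]
    rw [hψ₀]
    simp only [h1, sub_zero]
    exact hw.2
  have hwO : w ∉ N.Hd := fun h => hψw (hhid w h)
  rw [mem_Hd] at hwO
  push Not at hwO
  obtain ⟨y₀, hy₀⟩ := hwO hw.1
  choose hou c hc hL using N.hout
  set ψ : Y → F := fun y => ψ₀ (N.out y) * c y with hψ
  have hψne : ψ ≠ 0 := by
    intro h0
    have h1 := congrFun h0 y₀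
    simp only [hψ, Pi.zero_apply] at h1
    rw [hy₀] at h1
    exact mul_ne_zero hψw (hc y₀) h1
  -- the combination
  have hcomb : ∀ x', (∑ y, ψ y • A y) x' = ∑ v ∈ N.U, x v * N.row v (Sum.inl x') := by
    intro x'
    have h1 : (∑ y, ψ y • A y) = ∑ u ∈ N.U, ψ₀ u • N.L u := by
      have h2 : ∑ y, ψ y • A y = ∑ y, ψ₀ (N.out y) • N.L (N.out y) := by
        refine sum_congr rfl fun y _ => ?_
        rw [hL y, smul_smul]
      have h3 : ∑ y, ψ₀ (N.out y) • N.L (N.out y) = ∑ u ∈ N.O, ψ₀ u • N.L u := by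
        rw [O, sum_image fun _ _ _ _ h => hinj h]
      rw [h2, h3]
      refine sum_subset O_sub fun u hu hu' => ?_
      rw [hhid u (mem_sdiff.2 ⟨hu, hu'⟩), zero_smul]
    rw [h1, Finset.sum_apply]
    simp only [Pi.smul_apply, smul_eq_mul, hψ₀, sub_mul, sum_sub_distrib, sum_mul]
    have h4 : ∑ u ∈ N.U, x u * N.L u x' = ∑ v ∈ N.U, x v * (N.row v (Sum.inl x') +
        ∑ u ∈ N.U, N.row v (Sum.inr u) * N.L u x') :=
      sum_congr rfl fun v hv => by rw [← L_apply hv]
    rw [h4, sum_comm (s := N.U) (t := N.U)]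
    simp only [mul_add, sum_add_distrib, mul_sum]
    have h5 : ∀ v ∈ N.U, ∀ u ∈ N.U, x v * (N.row v (Sum.inr u) * N.L u x') =
        N.row v (Sum.inr u) * x v * N.L u x' := fun v _ u _ => by ring
    rw [sum_congr rfl fun v hv => sum_congr rfl fun u hu => h5 v hv u hu]
    ring
  have h1 := hA ψ hψne
  rw [wt_eq, wt_eq] at h1
  -- the support
  have h2 : ((univ.filter fun x' => (∑ y, ψ y • A y) x' ≠ 0).disjSum
      (univ.filter fun y => ψ y ≠ 0)).card ≤
      ((spt (N.Eb Δ) x).biUnion fun v => insert (Sum.inr v) (N.row v).support).card := by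
    refine card_le_card_of_injOn (fun s => Sum.elim Sum.inl (fun y => Sum.inr (N.out y)) s) ?_ ?_
    · have hspt : ∀ v, x v ≠ 0 → v ∈ spt (N.Eb Δ) x := by
        intro v hv
        unfold spt
        rw [mem_filter]
        refine ⟨?_, hv⟩
        by_contra h3
        exact hv (hx.1 v h3)
      intro s hs
      rw [mem_coe, mem_disjSum] at hs
      rw [mem_coe, mem_biUnion]
      rcases hs with ⟨a, ha, rfl⟩ | ⟨b, hb, rfl⟩
      · rw [mem_filter, hcomb] at ha
        obtain ⟨v, hv, hva⟩ := exists_ne_zero_of_sum_ne_zero ha.2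
        refine ⟨v, hspt v (left_ne_zero_of_mul hva), mem_insert_of_mem ?_⟩
        exact Finsupp.mem_support_iff.2 (right_ne_zero_of_mul hva)
      · rw [mem_filter] at hb
        have h3 : ψ₀ (N.out b) ≠ 0 := left_ne_zero_of_mul hb.2
        by_cases h4 : x (N.out b) = 0
        · rw [hψ₀] at h3
          simp only [h4, zero_sub, neg_ne_zero] at h3
          obtain ⟨v, hv, hva⟩ := exists_ne_zero_of_sum_ne_zero h3
          refine ⟨v, hspt v (right_ne_zero_of_mul hva), mem_insert_of_mem ?_⟩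
          exact Finsupp.mem_support_iff.2 (left_ne_zero_of_mul hva)
        · exact ⟨N.out b, hspt _ h4, mem_insert_self _ _⟩
    · intro s _ t _ h
      rcases s with a | b <;> rcases t with a' | b'
      · simpa using h
      · simp at h
      · simp at h
      · simp only [Sum.elim_inr, Sum.inr.injEq] at h
        rw [hinj h]
  rw [card_disjSum] at h2
  have h3 : ((spt (N.Eb Δ) x).biUnion fun v => insert (Sum.inr v) (N.row v).support).card ≤
      (spt (N.Eb Δ) x).card * (1 + Δ) := by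
    refine card_biUnion_le.trans ((sum_le_card_nsmul _ _ (1 + Δ) fun v hv => ?_).trans
      (le_of_eq (smul_eq_mul _ _)))
    refine (card_insert_le _ _).trans ?_
    unfold spt Eb at hv
    have h4 := (mem_filter.1 (mem_filter.1 hv).1).2
    unfold k at h4
    omega
  have h4 : (1 + Δ) * T ≤ (1 + Δ) * (spt (N.Eb Δ) x).card := by
    rw [mul_comm (1 + Δ) (Finset.card _)]
    omega
  exact Nat.le_of_mul_le_mul_left h4 (by omega)

end Net

end Pool.Agent.W946.Lc
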