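import Pool.Agent.W946.LcBack

set_option autoImplicit false

/-!
# Counting the edges of a linear circuit
-/

namespace Pool.Agent.W946.Lc

open Finset Pool.Agent.W946.Sz

variable {F X Y : Type*} [Field F] [DecidableEq X] {A : Y → X → F}

namespace Net

variable {N : Net F X Y A}

theorem two_le_k [Nonempty X] (hN : N.Nice) {v : ℕ} (hv : v ∈ N.U) : 2 ≤ N.k v := by
  by_contra h0
  have h1 : (N.row v).support.card ≤ 1 := by unfold k at h0; omega
  rcases Nat.lt_or_ge (N.row v).support.card 1 with h2 | h2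
  · have h3 : N.row v = 0 := Finsupp.support_eq_empty.1 (card_eq_zero.1 (by omega))
    have h4 := N.form v hv
    rw [h3, map_zero] at h4
    obtain ⟨x⟩ := ‹Nonempty X›
    refine hN.ne v hv (Sum.inl x) (fun w hw => by simp at hw) 0 ?_
    rw [zero_smul, ← h4]
  · obtain ⟨s, hs⟩ := card_eq_one.1 (le_antisymm h1 h2)
    have h3 : N.row v = Finsupp.single s (N.row v s) := by
      ext t
      by_cases h : t = s
      · rw [h, Finsupp.single_eq_same]
      · rw [Finsupp.single_eq_of_ne h, ← Finsupp.notMem_support_iff, hs, mem_singleton]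
        exact h
    have h4 := N.form v hv
    rw [h3, Finsupp.linearCombination_single] at h4
    refine hN.ne v hv s (fun u hu => N.early v hv u ?_) _ h4.symm
    rw [hs, mem_singleton, hu]

variable [Fintype X] [Fintype Y]

/-- the symbols which are inputs or outputs and occur in at least three equations -/
noncomputable def big (N : Net F X Y A) : Finset (X ⊕ ℕ) :=
  ((univ : Finset X).disjSum N.O).filter fun s => 3 ≤ (eqs N.H N.U s).card

theorem card_big (N : Net F X Y A) : N.big.card =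
    ∑ x, (if 3 ≤ (eqs N.H N.U (Sum.inl x)).card then 1 else 0) +
      ∑ o ∈ N.O, (if 3 ≤ (eqs N.H N.U (Sum.inr o)).card then 1 else 0) := by
  unfold big
  rw [card_filter, sum_disjSum]

theorem terminals {Δ : ℕ} (hΔ : 1 ≤ Δ) (hd : Dist N.H (N.Ef Δ) N.U 2) :
    2 * Fintype.card X + N.O.card + N.big.card ≤
      ∑ x, (N.users (Sum.inl x)).card + ∑ o ∈ N.O, (N.users (Sum.inr o)).card +
        (E1 N.H (N.Ef Δ) N.U).card := by
  classical
  have hmem : ∀ s ∈ N.sym, (eqs N.H N.U s).card ≤ 1 → s ∈ E1 N.H (N.Ef Δ) N.U := by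
    intro s hs h1
    have h2 : s ∈ N.Ef Δ := mem_filter.2 ⟨hs, h1.trans hΔ⟩
    exact mem_E1.2 ⟨h2, le_antisymm h1 (hd.pos h2)⟩
  have h1 : ∑ x : X, (2 + if 3 ≤ (eqs N.H N.U (Sum.inl x)).card then 1 else 0) ≤
      ∑ x : X, ((N.users (Sum.inl x)).card +
        if Sum.inl x ∈ E1 N.H (N.Ef Δ) N.U then 1 else 0) := by
    refine sum_le_sum fun x _ => ?_
    have h3 := hmem (Sum.inl x) mem_sym_inl
    rw [eqs_inl] at h3 ⊢
    have h4 : (N.users (Sum.inl x)).card ≤ 1 → 1 ≤ (N.users (Sum.inl x)).card := by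
      intro h5
      have h6 := (mem_E1.1 (h3 h5)).2
      rw [eqs_inl] at h6
      omega
    split_ifs with h5 h6 h6
    · omega
    · omega
    · omega
    · have : ¬ (N.users (Sum.inl x)).card ≤ 1 := fun h => h6 (h3 h)
      omega
  have h2 : ∑ o ∈ N.O, (1 + if 3 ≤ (eqs N.H N.U (Sum.inr o)).card then 1 else 0) ≤
      ∑ o ∈ N.O, ((N.users (Sum.inr o)).card +
        if Sum.inr o ∈ E1 N.H (N.Ef Δ) N.U then 1 else 0) := by
    refine sum_le_sum fun o ho => ?_
    have h3 := hmem (Sum.inr o) (mem_sym_inr.2 (O_sub ho))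
    rw [card_eqs_inr (O_sub ho)] at h3 ⊢
    split_ifs with h5 h6 h6
    · omega
    · omega
    · omega
    · have : ¬ (N.users (Sum.inr o)).card + 1 ≤ 1 := fun h => h6 (h3 h)
      omega
  have h3 : ∑ x : X, (if Sum.inl x ∈ E1 N.H (N.Ef Δ) N.U then 1 else 0) +
      ∑ o ∈ N.O, (if Sum.inr o ∈ E1 N.H (N.Ef Δ) N.U then 1 else 0) ≤
      (E1 N.H (N.Ef Δ) N.U).card := by
    rw [← sum_disjSum (univ : Finset X) N.O
      (fun s => if s ∈ E1 N.H (N.Ef Δ) N.U then 1 else 0), ← card_filter]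
    exact card_le_card fun s hs => (mem_filter.1 hs).2
  rw [sum_add_distrib, sum_add_distrib, sum_const, smul_eq_mul, card_univ] at h1
  rw [sum_add_distrib, sum_add_distrib, sum_const, smul_eq_mul] at h2
  rw [card_big]
  omega

/-- the heavy unknowns of the transposed system -/
noncomputable def Q (N : Net F X Y A) : Finset ℕ := N.U.filter fun v => 3 ≤ (eqs N.Hb N.Hd v).card

theorem three_le_k {Δ : ℕ} {v : ℕ} (hN : N.Nice)
    (hv : v ∈ C1 N.H (N.Ef Δ) N.U) (hQ : v ∈ N.Q) : 3 ≤ N.k v := by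
  classical
  unfold C1 at hv
  obtain ⟨e, he, hve⟩ := mem_biUnion.1 hv
  obtain ⟨he1, he2⟩ := mem_E1.1 he
  have hvU : v ∈ N.U := (mem_eqs.1 hve).1
  unfold Q at hQ
  have hQ2 := (mem_filter.1 hQ).2
  rw [card_eqs_b hvU] at hQ2
  rcases e with x | u
  · -- an input with one user
    have h1 : Sum.inl x ∈ (N.row v).support := by
      rw [eqs_inl] at hve
      exact (mem_users.1 hve).2
    have h2 : 2 ≤ (N.hid v).card := by
      split_ifs at hQ2 <;> omega
    have h3 : (N.hid v).card + 1 ≤ N.k v := by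
      have h4 : ((N.hid v).map ⟨fun u : ℕ => (Sum.inr u : X ⊕ ℕ), Sum.inr_injective⟩).card =
          (N.hid v).card := card_map _
      have h5 : insert (Sum.inl x)
          ((N.hid v).map ⟨fun u : ℕ => (Sum.inr u : X ⊕ ℕ), Sum.inr_injective⟩) ⊆
            (N.row v).support := by
        intro s hs
        rw [mem_insert] at hs
        rcases hs with rfl | hs
        · exact h1
        · rw [mem_map] at hs
          obtain ⟨u, hu, rfl⟩ := hs
          unfold hid at hu
          exact (mem_filter.1 hu).2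
      have h6 := card_le_card h5
      rw [card_insert_of_notMem, h4] at h6
      · exact h6
      · rw [mem_map]
        rintro ⟨u, _, hu⟩
        simp at hu
    omega
  · -- an output without users
    have hu : u ∈ N.U := mem_sym_inr.1 (mem_filter.1 he1).1
    rw [card_eqs_inr hu] at he2
    have h1 : N.users (Sum.inr u) = ∅ := card_eq_zero.1 (by omega)
    rw [eqs_inr hu, h1, mem_insert] at hve
    rcases hve with rfl | hve
    · have h2 : v ∉ N.Hd := by
        intro h
        have h3 := hN.two v hu (mem_Hd.1 h).2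
        rw [h1, card_empty] at h3
        omega
      rw [if_neg h2] at hQ2
      exact (show 3 ≤ (N.hid v).card by omega).trans (card_hid_le v)
    · exact absurd hve (notMem_empty v)

/-- the edges, counted at their heads -/
theorem edges_heads [Nonempty X] {Δ T : ℕ} (hN : N.Nice) (hT : 3 ≤ T)
    (hd : Dist N.H (N.Ef Δ) N.U ((1 + Δ) * T)) :
    (∑ v ∈ N.U \ C1 N.H (N.Ef Δ) N.U, (N.k v - 1)) + N.U.card +
      (E1 N.H (N.Ef Δ) N.U).card + (N.Q ∩ C1 N.H (N.Ef Δ) N.U).card ≤ N.edges := by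
  classical
  obtain ⟨p1, p2, _⟩ := peel (E := N.Ef Δ) (fun e he => (mem_filter.1 he).2) hT hd
  have h1 : N.edges = ∑ v ∈ N.U \ C1 N.H (N.Ef Δ) N.U, N.k v +
      ∑ v ∈ C1 N.H (N.Ef Δ) N.U, N.k v := by
    rw [edges, sum_sdiff p1]
  have h2 : ∑ v ∈ N.U \ C1 N.H (N.Ef Δ) N.U, N.k v =
      ∑ v ∈ N.U \ C1 N.H (N.Ef Δ) N.U, (N.k v - 1) + (N.U \ C1 N.H (N.Ef Δ) N.U).card := by
    rw [card_eq_sum_ones, ← sum_add_distrib]
    refine sum_congr rfl fun v hv => ?_
    have := two_le_k hN (mem_sdiff.1 hv).1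
    omega
  have h3 : (N.U \ C1 N.H (N.Ef Δ) N.U).card + (C1 N.H (N.Ef Δ) N.U).card = N.U.card :=
    card_sdiff_add_card_eq_card p1
  have h4 : ∑ v ∈ C1 N.H (N.Ef Δ) N.U, (2 + if v ∈ N.Q then 1 else 0) ≤
      ∑ v ∈ C1 N.H (N.Ef Δ) N.U, N.k v := by
    refine sum_le_sum fun v hv => ?_
    split_ifs with h
    · exact three_le_k hN hv h
    · exact two_le_k hN (p1 hv)
  rw [sum_add_distrib, sum_const, smul_eq_mul, ← card_filter] at h4
  have h5 : (C1 N.H (N.Ef Δ) N.U).filter (fun v => v ∈ N.Q) = N.Q ∩ C1 N.H (N.Ef Δ) N.U := by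
    ext v
    rw [mem_filter, mem_inter, and_comm]
  rw [h5] at h4
  omega

/-- the edges, counted at their tails -/
theorem edges_tails {Δ : ℕ} (hΔ : 1 ≤ Δ) (hN : N.Nice) (hd : Dist N.H (N.Ef Δ) N.U 2) :
    (∑ v ∈ N.Hd, ((N.users (Sum.inr v)).card - 1)) + N.Hd.card + 2 * Fintype.card X + N.O.card +
      N.big.card ≤ N.edges + (E1 N.H (N.Ef Δ) N.U).card := by
  have h1 := terminals hΔ hd
  have h2 : N.edges = ∑ x, (N.users (Sum.inl x)).card + ∑ u ∈ N.U, (N.users (Sum.inr u)).card := by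
    rw [← sum_users, sum_sym]
  have h3 : ∑ u ∈ N.U, (N.users (Sum.inr u)).card = ∑ u ∈ N.Hd, (N.users (Sum.inr u)).card +
      ∑ u ∈ N.O, (N.users (Sum.inr u)).card := by
    unfold Hd
    rw [sum_sdiff O_sub]
  have h4 : ∑ u ∈ N.Hd, (N.users (Sum.inr u)).card =
      ∑ v ∈ N.Hd, ((N.users (Sum.inr v)).card - 1) + N.Hd.card := by
    rw [card_eq_sum_ones, ← sum_add_distrib]
    refine sum_congr rfl fun v hv => ?_
    have := hN.two v (mem_Hd.1 hv).1 (mem_Hd.1 hv).2
    omega
  omega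

end Net

end Pool.Agent.W946.Lc
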