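import Pool.Agent.W946.LcCount

set_option autoImplicit false

/-!
# The bounds for circuits without redundant gates
-/

namespace Pool.Agent.W946.Lc

open Finset Pool.Agent.W946.Sz

variable {F X Y : Type*} [Field F] [DecidableEq X] {A : Y → X → F}

namespace Net

variable {N : Net F X Y A} [Fintype X] [Fintype Y]

/-- sparse systems, forward and backward -/
theorem ineqs [Nonempty X] (hN : N.Nice) {Δ i r : ℕ} {ε : ℝ} (hε : 0 < ε) (hΔ : 1 ≤ Δ)
    (hi : 1 ≤ i) (hU : (N.U.card : ℝ) ≤ (1 + ε) ^ i)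
    (hA : ∀ z : X → F, z ≠ 0 → (1 + Δ) * ((2 + Δ) ^ r * (4 * i + 3)) ≤
      wt z + wt fun y => dotProduct (A y) z)
    (hA' : ∀ ψ : Y → F, ψ ≠ 0 → (1 + Δ) * ((2 + Δ) ^ r * (4 * i + 3)) ≤
      wt ψ + wt (∑ y, ψ y • A y)) :
    ∃ Kf Kb S₁ S₂ c q t : ℝ, N.U.card = Fintype.card Y + (N.Hd.card : ℝ) ∧
      (2 : ℝ) ^ r * (3 * Kf - S₁ - ε * N.U.card) ≤ 3 * Kf ∧
      (2 : ℝ) ^ r * (3 * Kb - S₂ - ε * N.U.card) ≤ 3 * Kb ∧
      S₁ + N.U.card + c + t ≤ N.edges ∧
      S₂ + N.Hd.card + 2 * Fintype.card X + Fintype.card Y + q ≤ N.edges + c ∧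
      0 ≤ q ∧ Kf - ε * N.U.card ≤ q + N.Hd.card ∧
      0 ≤ t ∧ Kb - ε * N.U.card ≤ t + N.U.card - c ∧
      (Δ + 1) * Fintype.card X ≤ (Δ + 1) * Kf + N.edges + N.U.card ∧ Kf ≤ Fintype.card X ∧
      (Δ + 1) * Fintype.card Y ≤ (Δ + 1) * Kb + N.edges ∧ Kb ≤ Fintype.card Y ∧
      2 * (N.U.card : ℝ) ≤ N.edges ∧ 0 ≤ c := by
  classical
  set T := (2 + Δ) ^ r * (4 * i + 3) with hT
  have hT3 : 4 * i + 3 ≤ T := Nat.le_mul_of_pos_left _ (by positivity)
  have hT1 : (1 + Δ) ^ r * (4 * i + 3) ≤ T :=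
    Nat.mul_le_mul_right _ (Nat.pow_le_pow_left (by omega) r)
  have hD3 : 3 ≤ (1 + Δ) * T := by nlinarith
  have hinj : Function.Injective N.out := out_inj fun ψ hψ => hD3.trans (hA' ψ hψ)
  have hdf : Dist N.H (N.Ef Δ) N.U ((1 + Δ) * T) :=
    dist_fwd hinj hA (filter_subset _ _)
  have hdb : Dist N.Hb (N.Eb Δ) N.Hd T := dist_back hinj hA' le_rfl
  obtain ⟨p1, p2, p3⟩ := peel (E := N.Ef Δ) (fun e he => (mem_filter.1 he).2)
    (show 3 ≤ T by omega) hdf
  have hcolb : ∀ e ∈ N.Eb Δ, (eqs N.Hb N.Hd e).card ≤ Δ + 1 := by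
    intro e he
    have h1 : e ∈ N.U := (mem_filter.1 he).1
    rw [card_eqs_b h1]
    have h2 := card_hid_le (N := N) e
    have h3 := (mem_filter.1 he).2
    split_ifs <;> omega
  have hcolf : ∀ e ∈ N.Ef Δ \ E1 N.H (N.Ef Δ) N.U,
      (eqs N.H (N.U \ C1 N.H (N.Ef Δ) N.U) e).card ≤ Δ := by
    intro e he
    refine le_trans (card_le_card ?_) (mem_filter.1 (mem_sdiff.1 he).1).2
    intro c hc
    exact mem_eqs.2 ⟨(mem_sdiff.1 (mem_eqs.1 hc).1).1, (mem_eqs.1 hc).2⟩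
  have hUC : ((N.U \ C1 N.H (N.Ef Δ) N.U).card : ℝ) ≤ N.U.card := by
    exact_mod_cast card_le_card sdiff_subset
  have hHdU : (N.Hd.card : ℝ) ≤ N.U.card := by
    exact_mod_cast card_le_card (sdiff_subset (s := N.U) (t := N.O))
  have hE'card : (N.Ef Δ \ E1 N.H (N.Ef Δ) N.U).card + (E1 N.H (N.Ef Δ) N.U).card =
      (N.Ef Δ).card := card_sdiff_add_card_eq_card fun e he => (mem_E1.1 he).1
  have hC'card : (N.U \ C1 N.H (N.Ef Δ) N.U).card + (C1 N.H (N.Ef Δ) N.U).card = N.U.card :=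
    card_sdiff_add_card_eq_card p1
  have hE'r : ((N.Ef Δ \ E1 N.H (N.Ef Δ) N.U).card : ℝ) =
      (N.Ef Δ).card - (E1 N.H (N.Ef Δ) N.U).card := by
    rw [← hE'card]; push_cast; ring
  have hC'r : ((N.U \ C1 N.H (N.Ef Δ) N.U).card : ℝ) =
      N.U.card - (E1 N.H (N.Ef Δ) N.U).card := by
    rw [← hC'card, p2]; push_cast; ring
  have hcU := card_U hinj
  have hcUr : (N.U.card : ℝ) = Fintype.card Y + N.Hd.card := by exact_mod_cast hcU
  have hOcard := card_O hinj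
  refine ⟨(N.Ef Δ).card - N.U.card, (N.Eb Δ).card - N.Hd.card,
    ∑ v ∈ N.U \ C1 N.H (N.Ef Δ) N.U, ((N.k v - 1 : ℕ) : ℝ),
    ∑ v ∈ N.Hd, (((N.users (Sum.inr v)).card - 1 : ℕ) : ℝ),
    (E1 N.H (N.Ef Δ) N.U).card, N.big.card, (N.Q ∩ C1 N.H (N.Ef Δ) N.U).card, hcUr, ?_, ?_, ?_,
    ?_, by positivity, ?_, by positivity, ?_, ?_, ?_, ?_, ?_, ?_, by positivity⟩
  · -- forward
    have h1 := rounds' hε hi r (N.Ef Δ \ E1 N.H (N.Ef Δ) N.U) (N.U \ C1 N.H (N.Ef Δ) N.U) hcolf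
      (hUC.trans hU) (p3.mono hT1)
    rw [hE'r, hC'r] at h1
    have h2 : ((N.Ef Δ).card : ℝ) - (E1 N.H (N.Ef Δ) N.U).card -
        (N.U.card - (E1 N.H (N.Ef Δ) N.U).card) = (N.Ef Δ).card - N.U.card := by ring
    rw [h2] at h1
    refine le_trans (mul_le_mul_of_nonneg_left ?_ (by positivity)) h1
    have h3 : ∑ v ∈ N.U \ C1 N.H (N.Ef Δ) N.U,
        (phi N.H (N.Ef Δ \ E1 N.H (N.Ef Δ) N.U) v : ℝ) ≤
        ∑ v ∈ N.U \ C1 N.H (N.Ef Δ) N.U, ((N.k v - 1 : ℕ) : ℝ) := by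
      refine sum_le_sum fun v hv => ?_
      have h4 := card_row_le (N := N) (N.Ef Δ \ E1 N.H (N.Ef Δ) N.U) (mem_sdiff.1 hv).1
      have h5 := two_le_k hN (mem_sdiff.1 hv).1
      have h6 : phi N.H (N.Ef Δ \ E1 N.H (N.Ef Δ) N.U) v ≤ N.k v - 1 := by
        unfold phi
        omega
      exact_mod_cast h6
    have h7 : (0 : ℝ) ≤ ε * (E1 N.H (N.Ef Δ) N.U).card := by positivity
    linarith
  · -- backward
    have hEbU : N.Eb Δ ⊆ N.U := filter_subset _ _
    have h1 := rounds' hε hi r (N.Eb Δ) N.Hd hcolb (hHdU.trans hU) (hdb.mono (by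
      rw [hT]
      exact Nat.mul_le_mul_right _ (Nat.pow_le_pow_left (by omega) r)))
    refine le_trans (mul_le_mul_of_nonneg_left ?_ (by positivity)) h1
    have h3 : ∑ v ∈ N.Hd, (phi N.Hb (N.Eb Δ) v : ℝ) ≤
        ∑ v ∈ N.Hd, (((N.users (Sum.inr v)).card - 1 : ℕ) : ℝ) := by
      refine sum_le_sum fun v hv => ?_
      have h4 := card_rowb_le (N := N) hEbU v
      have h5 := hN.two v (mem_Hd.1 hv).1 (mem_Hd.1 hv).2
      have h6 : phi N.Hb (N.Eb Δ) v ≤ (N.users (Sum.inr v)).card - 1 := by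
        unfold phi
        omega
      exact_mod_cast h6
    have h7 : ε * N.Hd.card ≤ ε * N.U.card := mul_le_mul_of_nonneg_left hHdU hε.le
    linarith
  · have h1 := edges_heads hN (show 3 ≤ T by omega) hdf
    exact_mod_cast h1
  · have h1 := edges_tails hΔ hN (hdf.mono (by omega))
    rw [hOcard] at h1
    exact_mod_cast h1
  · -- few light unknowns, forward
    set P := (N.Ef Δ \ E1 N.H (N.Ef Δ) N.U).filter fun e =>
      (eqs N.H (N.U \ C1 N.H (N.Ef Δ) N.U) e).card ≤ 2 with hP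
    have h1 := few_light (P := P) (filter_subset _ _) (fun e he => (mem_filter.1 he).2) hε hi
      (hUC.trans hU) (p3.mono hT3)
    rw [hC'r] at h1
    have h2 : (N.Ef Δ \ E1 N.H (N.Ef Δ) N.U).card ≤ P.card + (N.big.card + N.Hd.card) := by
      have h3 : N.Ef Δ \ E1 N.H (N.Ef Δ) N.U ⊆ P ∪ (N.big ∪ N.Hd.image Sum.inr) := by
        intro e he
        rw [mem_union, mem_union]
        by_cases h4 : (eqs N.H (N.U \ C1 N.H (N.Ef Δ) N.U) e).card ≤ 2
        · exact Or.inl (mem_filter.2 ⟨he, h4⟩)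
        · right
          have h5 : 3 ≤ (eqs N.H N.U e).card := by
            refine le_trans (by omega : 3 ≤ (eqs N.H (N.U \ C1 N.H (N.Ef Δ) N.U) e).card)
              (card_le_card fun c hc => ?_)
            exact mem_eqs.2 ⟨(mem_sdiff.1 (mem_eqs.1 hc).1).1, (mem_eqs.1 hc).2⟩
          have h6 : e ∈ N.sym := (mem_filter.1 (mem_sdiff.1 he).1).1
          rcases e with x | u
          · left
            unfold big
            rw [mem_filter]
            exact ⟨by simp, h5⟩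
          · by_cases h7 : u ∈ N.O
            · left
              unfold big
              rw [mem_filter]
              exact ⟨by simpa using h7, h5⟩
            · right
              exact mem_image.2 ⟨u, mem_sdiff.2 ⟨mem_sym_inr.1 h6, h7⟩, rfl⟩
      refine (card_le_card h3).trans ((card_union_le _ _).trans ?_)
      refine Nat.add_le_add_left ((card_union_le _ _).trans ?_) _
      exact Nat.add_le_add_left card_image_le _
    have h3 : ((N.Ef Δ \ E1 N.H (N.Ef Δ) N.U).card : ℝ) ≤ P.card +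
        (N.big.card + N.Hd.card) := by exact_mod_cast h2
    rw [hE'r] at h3
    have h7 : (0 : ℝ) ≤ ε * (E1 N.H (N.Ef Δ) N.U).card := by positivity
    nlinarith
  · -- few light unknowns, backward
    set P := (N.Eb Δ).filter fun e => (eqs N.Hb N.Hd e).card ≤ 2 with hP
    have h1 := few_light (P := P) (filter_subset _ _) (fun e he => (mem_filter.1 he).2) hε hi
      (hHdU.trans hU) (hdb.mono hT3)
    have h2 : (N.Eb Δ).card ≤ P.card + N.Q.card := by
      refine (card_le_card ?_).trans (card_union_le _ _)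
      intro e he
      rw [mem_union]
      by_cases h4 : (eqs N.Hb N.Hd e).card ≤ 2
      · exact Or.inl (mem_filter.2 ⟨he, h4⟩)
      · right
        unfold Q
        rw [mem_filter]
        exact ⟨(mem_filter.1 he).1, by omega⟩
    have h3 : N.Q.card ≤ (N.Q ∩ C1 N.H (N.Ef Δ) N.U).card +
        (N.U \ C1 N.H (N.Ef Δ) N.U).card := by
      refine (card_le_card ?_).trans (card_union_le _ _)
      intro v hv
      rw [mem_union, mem_inter, mem_sdiff]
      by_cases h4 : v ∈ C1 N.H (N.Ef Δ) N.U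
      · exact Or.inl ⟨hv, h4⟩
      · exact Or.inr ⟨(mem_filter.1 hv).1, h4⟩
    have h4 : ((N.Eb Δ).card : ℝ) ≤ P.card + ((N.Q ∩ C1 N.H (N.Ef Δ) N.U).card +
        (N.U \ C1 N.H (N.Ef Δ) N.U).card) := by exact_mod_cast h2.trans (Nat.add_le_add_left h3 _)
    rw [hC'r] at h4
    have h5 : ε * N.Hd.card ≤ ε * N.U.card := mul_le_mul_of_nonneg_left hHdU hε.le
    linarith
  · have h1 := N.card_Ef Δ
    have h2 : ((Δ : ℝ) + 1) * (Fintype.card X + N.U.card) ≤ (Δ + 1) * (N.Ef Δ).card +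
        (N.edges + N.U.card) := by exact_mod_cast h1
    linarith
  · have h1 : (N.Ef Δ).card ≤ Fintype.card X + N.U.card := by
      rw [← card_sym]
      exact card_le_card (filter_subset _ _)
    have h2 : ((N.Ef Δ).card : ℝ) ≤ Fintype.card X + N.U.card := by exact_mod_cast h1
    linarith
  · have h1 := N.card_Eb Δ
    have h2 : ((Δ : ℝ) + 1) * N.U.card ≤ (Δ + 1) * (N.Eb Δ).card + N.edges := by
      exact_mod_cast h1
    rw [hcUr] at h2
    linarith
  · have h1 : ((N.Eb Δ).card : ℝ) ≤ N.U.card := by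
      exact_mod_cast card_le_card (filter_subset _ _)
    rw [hcUr] at h1
    linarith
  · have h1 : ∑ v ∈ N.U, 2 ≤ N.edges := sum_le_sum fun v hv => two_le_k hN hv
    rw [sum_const, smul_eq_mul] at h1
    have h2 : (N.U.card : ℝ) * 2 ≤ N.edges := by exact_mod_cast h1
    linarith

end Net

end Pool.Agent.W946.Lc
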