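import Mathlib

set_option autoImplicit false

/-!
# Linear circuits and their simplification
-/

namespace Pool.Agent.W946.Lc

open Finset

variable {F X Y : Type*} [Field F] [DecidableEq X]

/-- the linear form of a symbol -/
def vec (L : ℕ → X → F) : X ⊕ ℕ → X → F := Sum.elim (fun x => Pi.single x 1) L

/-- substitution in a row -/
noncomputable def sub (v : ℕ) (r : X ⊕ ℕ →₀ F) (ρ : X ⊕ ℕ →₀ F) : X ⊕ ℕ →₀ F :=
  ρ.erase (Sum.inr v) + ρ (Sum.inr v) • r

omit [DecidableEq X] in
theorem sub_of_notMem {v : ℕ} {r ρ : X ⊕ ℕ →₀ F} (h : Sum.inr v ∉ ρ.support) :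
    sub v r ρ = ρ := by
  rw [Finsupp.notMem_support_iff] at h
  rw [sub, h, zero_smul, add_zero, Finsupp.erase_of_notMem_support]
  rwa [Finsupp.notMem_support_iff]

theorem sub_support {v : ℕ} {r ρ : X ⊕ ℕ →₀ F} :
    (sub v r ρ).support ⊆ ρ.support.erase (Sum.inr v) ∪ r.support := by
  refine Finsupp.support_add.trans (union_subset_union ?_ Finsupp.support_smul)
  rw [Finsupp.support_erase]

theorem sub_card {v : ℕ} {r ρ : X ⊕ ℕ →₀ F} (h : Sum.inr v ∈ ρ.support) :
    (sub v r ρ).support.card + 1 ≤ ρ.support.card + r.support.card := by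
  have h1 := (card_le_card (sub_support (v := v) (r := r) (ρ := ρ))).trans (card_union_le _ _)
  have h2 : (ρ.support.erase (Sum.inr v)).card + 1 = ρ.support.card := card_erase_add_one h
  omega

theorem sub_comb {v : ℕ} {r ρ : X ⊕ ℕ →₀ F} {L : ℕ → X → F}
    (hr : Finsupp.linearCombination F (vec L) r = L v) :
    Finsupp.linearCombination F (vec L) (sub v r ρ) = Finsupp.linearCombination F (vec L) ρ := by
  rw [sub, map_add, map_smul, hr]
  conv_rhs => rw [← Finsupp.erase_add_single (Sum.inr v) ρ]
  rw [map_add, Finsupp.linearCombination_single]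
  rfl

/-- A linear circuit for the forms `A y`: the gates form the finite set `U` of natural numbers; the
gate `v` computes the linear combination `row v` of inputs and smaller gates. -/
structure Net (F : Type*) (X Y : Type*) [Field F] [DecidableEq X] (A : Y → X → F) where
  U : Finset ℕ
  row : ℕ → X ⊕ ℕ →₀ F
  L : ℕ → X → F
  out : Y → ℕ
  early : ∀ v ∈ U, ∀ u : ℕ, Sum.inr u ∈ (row v).support → u ∈ U ∧ u < v
  form : ∀ v ∈ U, Finsupp.linearCombination F (vec L) (row v) = L v
  hout : ∀ y, out y ∈ U ∧ ∃ c : F, c ≠ 0 ∧ L (out y) = c • A y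

variable {A : Y → X → F}

namespace Net

/-- the fan-in -/
def k (N : Net F X Y A) (v : ℕ) : ℕ := (N.row v).support.card

/-- the number of edges -/
def edges (N : Net F X Y A) : ℕ := ∑ v ∈ N.U, N.k v

/-- the number of additions -/
def adds (N : Net F X Y A) : ℕ := ∑ v ∈ N.U, (N.k v - 1)

/-- the users of a symbol -/
def users (N : Net F X Y A) (s : X ⊕ ℕ) : Finset ℕ := N.U.filter fun u => s ∈ (N.row u).support

theorem mem_users {N : Net F X Y A} {s : X ⊕ ℕ} {u : ℕ} :
    u ∈ N.users s ↔ u ∈ N.U ∧ s ∈ (N.row u).support := by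
  unfold users
  rw [mem_filter]

/-- a symbol which comes before the gate `v` -/
def Early (N : Net F X Y A) (v : ℕ) (s : X ⊕ ℕ) : Prop := ∀ u, s = Sum.inr u → u ∈ N.U ∧ u < v

/-- a circuit without redundant gates -/
structure Nice (N : Net F X Y A) : Prop where
  ne : ∀ v ∈ N.U, ∀ s, N.Early v s → ∀ c : F, N.L v ≠ c • vec N.L s
  two : ∀ v ∈ N.U, (∀ y, N.out y ≠ v) → 2 ≤ (N.users (Sum.inr v)).card

/-- substitution of a gate -/
noncomputable def subst (N : Net F X Y A) (v : ℕ) (r : X ⊕ ℕ →₀ F)
    (_hv : v ∈ N.U) (hr1 : ∀ u, Sum.inr u ∈ r.support → u ∈ N.U ∧ u < v)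
    (hr2 : Finsupp.linearCombination F (vec N.L) r = N.L v) (out' : Y → ℕ)
    (ho : ∀ y, out' y ∈ N.U.erase v ∧ ∃ c : F, c ≠ 0 ∧ N.L (out' y) = c • A y) :
    Net F X Y A where
  U := N.U.erase v
  row u := sub v r (N.row u)
  L := N.L
  out := out'
  early := by
    intro u hu w hw
    rw [mem_erase] at hu
    by_cases h : Sum.inr v ∈ (N.row u).support
    · rcases mem_union.1 (sub_support hw) with h1 | h1
      · rw [mem_erase] at h1
        obtain ⟨h2, h3⟩ := N.early u hu.2 w h1.2
        exact ⟨mem_erase.2 ⟨fun h' => h1.1 (by rw [h']), h2⟩, h3⟩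
      · obtain ⟨h2, h3⟩ := hr1 w h1
        exact ⟨mem_erase.2 ⟨h3.ne, h2⟩, h3.trans (N.early u hu.2 v h).2⟩
    · rw [sub_of_notMem h] at hw
      obtain ⟨h2, h3⟩ := N.early u hu.2 w hw
      exact ⟨mem_erase.2 ⟨fun h' => h (h' ▸ hw), h2⟩, h3⟩
  form := by
    intro u hu
    rw [sub_comb hr2]
    exact N.form u (mem_of_mem_erase hu)
  hout := ho

theorem exists_nice [Nonempty X] (hA : ∀ y x (c : F), A y ≠ c • (Pi.single x 1 : X → F)) (n : ℕ) :
    ∀ N : Net F X Y A, N.U.card = n → ∃ N' : Net F X Y A, N'.Nice ∧ N'.edges ≤ N.edges ∧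
      N'.adds ≤ N.adds ∧ N'.U.card ≤ N.U.card := by
  classical
  induction n using Nat.strong_induction_on with
  | _ n ih =>
  intro N hN
  by_cases hA1 : ∃ v ∈ N.U, ∃ s, N.Early v s ∧ ∃ c : F, N.L v = c • vec N.L s
  · -- remove a gate which is proportional to an earlier symbol
    obtain ⟨v, hv, s, hs, c, hc⟩ := hA1
    set r : X ⊕ ℕ →₀ F := Finsupp.single s c with hr
    have hr1 : ∀ u, Sum.inr u ∈ r.support → u ∈ N.U ∧ u < v := by
      intro u hu
      have h1 := Finsupp.support_single_subset hu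
      rw [mem_singleton] at h1
      exact hs u h1.symm
    have hr2 : Finsupp.linearCombination F (vec N.L) r = N.L v := by
      rw [hr, Finsupp.linearCombination_single, hc]
    have hout : ∀ y, ∃ w, w ∈ N.U.erase v ∧ ∃ c : F, c ≠ 0 ∧ N.L w = c • A y := by
      intro y
      obtain ⟨h1, c', h2, h3⟩ := N.hout y
      by_cases h4 : N.out y = v
      · rw [h4, hc] at h3
        rcases s with x | u
        · exfalso
          apply hA y x (c'⁻¹ * c)
          have h5 : A y = c'⁻¹ • (c' • A y) := by rw [smul_smul, inv_mul_cancel₀ h2, one_smul]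
          rw [h5, ← h3, smul_smul]
          rfl
        · obtain ⟨h5, h6⟩ := hs u rfl
          have hc0 : c ≠ 0 := by
            rintro rfl
            obtain ⟨x⟩ := ‹Nonempty X›
            apply hA y x 0
            rw [zero_smul] at h3 ⊢
            exact (smul_eq_zero.1 h3.symm).resolve_left h2
          refine ⟨u, mem_erase.2 ⟨h6.ne, h5⟩, c⁻¹ * c', mul_ne_zero (inv_ne_zero hc0) h2, ?_⟩
          rw [← smul_smul, ← h3, smul_smul, inv_mul_cancel₀ hc0, one_smul]
          rfl
      · exact ⟨N.out y, mem_erase.2 ⟨h4, h1⟩, c', h2, h3⟩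
    choose out' ho using hout
    have hk : ∀ u, (sub v r (N.row u)).support.card ≤ N.k u := by
      intro u
      by_cases h : Sum.inr v ∈ (N.row u).support
      · have h1 := sub_card (r := r) h
        have h2 : r.support.card ≤ 1 := (card_le_card Finsupp.support_single_subset).trans
          (card_singleton s).le
        unfold k
        omega
      · rw [sub_of_notMem h]
        exact le_rfl
    obtain ⟨N', h1, h2, h3, h4⟩ := ih (N.U.erase v).card (by
      rw [← hN]
      exact card_erase_lt_of_mem hv) (N.subst v r hv hr1 hr2 out' ho) rfl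
    refine ⟨N', h1, h2.trans ?_, h3.trans ?_, h4.trans (card_erase_le)⟩
    · exact (sum_le_sum fun u _ => hk u).trans (sum_le_sum_of_subset (erase_subset _ _))
    · exact (sum_le_sum fun u _ => Nat.sub_le_sub_right (hk u) 1).trans
        (sum_le_sum_of_subset (erase_subset _ _))
  push Not at hA1
  by_cases hB : ∃ v ∈ N.U, (∀ y, N.out y ≠ v) ∧ (N.users (Sum.inr v)).card ≤ 1
  · obtain ⟨v, hv, hvo, huse⟩ := hB
    have hout : ∀ y, N.out y ∈ N.U.erase v ∧ ∃ c : F, c ≠ 0 ∧ N.L (N.out y) = c • A y :=
      fun y => ⟨mem_erase.2 ⟨hvo y, (N.hout y).1⟩, (N.hout y).2⟩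
    have hkpos : ∀ u ∈ N.U, 1 ≤ N.k u := by
      intro u hu
      by_contra h0
      have h1 : (N.row u).support = ∅ := card_eq_zero.1 (by unfold k at h0; omega)
      have h2 : N.row u = 0 := Finsupp.support_eq_empty.1 h1
      have h3 := N.form u hu
      rw [h2, map_zero] at h3
      obtain ⟨x⟩ := ‹Nonempty X›
      refine hA1 u hu (Sum.inl x) (fun w hw => by simp at hw) 0 ?_
      rw [zero_smul, ← h3]
    obtain ⟨N', h1, h2, h3, h4⟩ := ih (N.U.erase v).card (by
      rw [← hN]
      exact card_erase_lt_of_mem hv) (N.subst v (N.row v) hv (N.early v hv) (N.form v hv) N.out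
        hout) rfl
    refine ⟨N', h1, h2.trans ?_, h3.trans ?_, h4.trans (card_erase_le)⟩
    · -- edges
      change ∑ u ∈ N.U.erase v, (sub v (N.row v) (N.row u)).support.card ≤ N.edges
      have e1 : ∑ u ∈ N.U.erase v, (sub v (N.row v) (N.row u)).support.card ≤
          ∑ u ∈ N.U.erase v, (N.k u + if u ∈ N.users (Sum.inr v) then N.k v else 0) := by
        refine sum_le_sum fun u hu => ?_
        by_cases h : Sum.inr v ∈ (N.row u).support
        · have h5 := sub_card (r := N.row v) h
          rw [if_pos (mem_users.2 ⟨mem_of_mem_erase hu, h⟩)]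
          unfold k
          omega
        · rw [sub_of_notMem h, if_neg (fun h' => h (mem_users.1 h').2)]
          exact le_rfl
      refine e1.trans ?_
      rw [sum_add_distrib, sum_ite_mem, sum_const, smul_eq_mul]
      have e2 : ((N.U.erase v) ∩ N.users (Sum.inr v)).card ≤ 1 :=
        (card_le_card inter_subset_right).trans huse
      have e3 : ∑ u ∈ N.U.erase v, N.k u + N.k v = N.edges := by
        rw [edges, sum_erase_add _ _ hv]
      nlinarith [Nat.zero_le (N.k v)]
    · -- additions
      change ∑ u ∈ N.U.erase v, ((sub v (N.row v) (N.row u)).support.card - 1) ≤ N.adds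
      have e1 : ∑ u ∈ N.U.erase v, ((sub v (N.row v) (N.row u)).support.card - 1) ≤
          ∑ u ∈ N.U.erase v, ((N.k u - 1) +
            if u ∈ N.users (Sum.inr v) then (N.k v - 1) else 0) := by
        refine sum_le_sum fun u hu => ?_
        by_cases h : Sum.inr v ∈ (N.row u).support
        · have h5 := sub_card (r := N.row v) h
          rw [if_pos (mem_users.2 ⟨mem_of_mem_erase hu, h⟩)]
          have h6 := hkpos v hv
          have h7 := hkpos u (mem_of_mem_erase hu)
          unfold k at h6 h7 ⊢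
          omega
        · rw [sub_of_notMem h, if_neg (fun h' => h (mem_users.1 h').2)]
          exact le_rfl
      refine e1.trans ?_
      rw [sum_add_distrib, sum_ite_mem, sum_const, smul_eq_mul]
      have e2 : ((N.U.erase v) ∩ N.users (Sum.inr v)).card ≤ 1 :=
        (card_le_card inter_subset_right).trans huse
      have e3 : ∑ u ∈ N.U.erase v, (N.k u - 1) + (N.k v - 1) = N.adds := by
        rw [adds, sum_erase_add _ _ hv]
      nlinarith [Nat.zero_le (N.k v - 1)]
  push Not at hB
  exact ⟨N, ⟨hA1, fun v hv ho => hB v hv ho⟩, le_rfl, le_rfl, le_rfl⟩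

end Net

end Pool.Agent.W946.Lc
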