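import Pool.Agent.W946.LcRounds
import Pool.Agent.W946.LcNice

set_option autoImplicit false

/-!
# The systems of equations of a linear circuit and of its transpose
-/

namespace Pool.Agent.W946.Lc

open Finset Pool.Agent.W946.Sz

variable {F X Y : Type*} [Field F] [DecidableEq X] {A : Y → X → F}

/-- the number of nonzero coordinates -/
noncomputable def wt {Z : Type*} [Fintype Z] (z : Z → F) : ℕ := Nat.card {i // z i ≠ 0}

theorem wt_eq {Z : Type*} [Fintype Z] (z : Z → F) [DecidablePred fun i => z i ≠ 0] :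
    wt z = (univ.filter fun i => z i ≠ 0).card := by
  rw [wt, Nat.card_eq_fintype_card, Fintype.card_subtype]

namespace Net

variable (N : Net F X Y A)

/-- the equations of the circuit -/
noncomputable def H (v : ℕ) (s : X ⊕ ℕ) : F := (if s = Sum.inr v then 1 else 0) - N.row v s

variable {N}

theorem not_self {v : ℕ} (hv : v ∈ N.U) : Sum.inr v ∉ (N.row v).support :=
  fun h => lt_irrefl _ (N.early v hv v h).2

theorem H_ne {v : ℕ} {s : X ⊕ ℕ} (hv : v ∈ N.U) :
    N.H v s ≠ 0 ↔ s = Sum.inr v ∨ s ∈ (N.row v).support := by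
  unfold H
  by_cases h : s = Sum.inr v
  · subst h
    rw [if_pos rfl, Finsupp.notMem_support_iff.1 (not_self hv), sub_zero]
    simp
  · rw [if_neg h, zero_sub, neg_ne_zero, Finsupp.mem_support_iff]
    simp [h]

theorem eqs_inl (x : X) : eqs N.H N.U (Sum.inl x) = N.users (Sum.inl x) := by
  ext v
  rw [mem_eqs, mem_users]
  constructor
  · rintro ⟨h1, h2⟩
    rcases (H_ne h1).1 h2 with h3 | h3
    · simp at h3
    · exact ⟨h1, h3⟩
  · rintro ⟨h1, h2⟩
    exact ⟨h1, (H_ne h1).2 (Or.inr h2)⟩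

theorem eqs_inr {u : ℕ} (hu : u ∈ N.U) :
    eqs N.H N.U (Sum.inr u) = insert u (N.users (Sum.inr u)) := by
  ext v
  rw [mem_eqs, mem_insert, mem_users]
  constructor
  · rintro ⟨h1, h2⟩
    rcases (H_ne h1).1 h2 with h3 | h3
    · exact Or.inl (Sum.inr_injective h3).symm
    · exact Or.inr ⟨h1, h3⟩
  · rintro (h | ⟨h1, h2⟩)
    · subst h
      exact ⟨hu, (H_ne hu).2 (Or.inl rfl)⟩
    · exact ⟨h1, (H_ne h1).2 (Or.inr h2)⟩

theorem notMem_users {u : ℕ} : u ∉ N.users (Sum.inr u) := fun h =>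
  not_self (mem_users.1 h).1 (mem_users.1 h).2

theorem card_eqs_inr {u : ℕ} (hu : u ∈ N.U) :
    (eqs N.H N.U (Sum.inr u)).card = (N.users (Sum.inr u)).card + 1 := by
  rw [eqs_inr hu, card_insert_of_notMem notMem_users]

theorem card_row_le (E : Finset (X ⊕ ℕ)) {v : ℕ} (hv : v ∈ N.U) :
    (Sz.row N.H E v).card ≤ N.k v + 1 := by
  refine (card_le_card (t := insert (Sum.inr v) (N.row v).support) fun s hs => ?_).trans
    (card_insert_le _ _)
  rw [mem_insert]
  exact (H_ne hv).1 (mem_row.1 hs).2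

section fin

variable [Fintype X]

/-- all symbols -/
def sym (N : Net F X Y A) : Finset (X ⊕ ℕ) := (univ : Finset X).disjSum N.U

theorem mem_sym_inl {x : X} : Sum.inl x ∈ N.sym := by
  unfold sym
  simp

theorem mem_sym_inr {u : ℕ} : Sum.inr u ∈ N.sym ↔ u ∈ N.U := by
  unfold sym
  simp

theorem supp_sub_sym {v : ℕ} (hv : v ∈ N.U) : (N.row v).support ⊆ N.sym := by
  intro s hs
  rcases s with x | u
  · exact mem_sym_inl
  · exact mem_sym_inr.2 (N.early v hv u hs).1

theorem card_sym (N : Net F X Y A) : N.sym.card = Fintype.card X + N.U.card := by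
  unfold sym
  rw [card_disjSum, card_univ]

theorem sum_users (N : Net F X Y A) : ∑ s ∈ N.sym, (N.users s).card = N.edges := by
  unfold users edges
  simp only [card_filter]
  rw [sum_comm]
  refine sum_congr rfl fun v hv => ?_
  rw [← card_filter, k]
  congr 1
  ext s
  rw [mem_filter]
  exact ⟨fun h => h.2, fun h => ⟨supp_sub_sym hv h, h⟩⟩

theorem sum_sym (N : Net F X Y A) (f : X ⊕ ℕ → ℕ) :
    ∑ s ∈ N.sym, f s = ∑ x, f (Sum.inl x) + ∑ u ∈ N.U, f (Sum.inr u) := by
  unfold sym
  rw [sum_disjSum]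

theorem sum_deg (N : Net F X Y A) :
    ∑ s ∈ N.sym, (eqs N.H N.U s).card = N.edges + N.U.card := by
  rw [sum_sym, ← sum_users, sum_sym]
  have h1 : ∑ u ∈ N.U, (eqs N.H N.U (Sum.inr u)).card =
      ∑ u ∈ N.U, ((N.users (Sum.inr u)).card + 1) :=
    sum_congr rfl fun u hu => card_eqs_inr hu
  rw [h1, sum_add_distrib, sum_const, smul_eq_mul, mul_one]
  simp only [eqs_inl]
  ring

/-- the light symbols -/
noncomputable def Ef (N : Net F X Y A) (Δ : ℕ) : Finset (X ⊕ ℕ) :=
  N.sym.filter fun s => (eqs N.H N.U s).card ≤ Δ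

theorem card_Ef (N : Net F X Y A) (Δ : ℕ) :
    (Δ + 1) * (Fintype.card X + N.U.card) ≤ (Δ + 1) * (N.Ef Δ).card + (N.edges + N.U.card) := by
  rw [← N.sum_deg, ← N.card_sym]
  have h3 : ∑ s ∈ N.sym, (Δ + 1) ≤ ∑ s ∈ N.sym, ((if (eqs N.H N.U s).card ≤ Δ then (Δ + 1)
      else 0) + (eqs N.H N.U s).card) := by
    refine sum_le_sum fun s _ => ?_
    by_cases h : (eqs N.H N.U s).card ≤ Δ
    · rw [if_pos h]
      exact Nat.le_add_right _ _
    · rw [if_neg h]
      omega
  rw [sum_const, smul_eq_mul, sum_add_distrib, ← sum_filter, sum_const, smul_eq_mul] at h3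
  unfold Ef
  nlinarith

/-- solutions of the equations are given by points -/
theorem sol_form {E : Finset (X ⊕ ℕ)} (hE : E ⊆ N.sym) {x : X ⊕ ℕ → F}
    (hx : Sol N.H E N.U x) (v : ℕ) (hv : v ∈ N.U) :
    x (Sum.inr v) = dotProduct (N.L v) (fun z => x (Sum.inl z)) := by
  set z : X → F := fun z => x (Sum.inl z) with hz
  induction v using Nat.strong_induction_on with
  | _ v ih =>
  have h1 := hx.2 v hv
  have h2 : ∑ e ∈ E, N.H v e * x e = ∑ e ∈ N.sym, N.H v e * x e := by
    refine sum_subset hE fun e _ he => ?_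
    rw [hx.1 e he, mul_zero]
  rw [h2] at h1
  have h3 : ∑ e ∈ N.sym, N.H v e * x e = x (Sum.inr v) - ∑ e ∈ (N.row v).support,
      N.row v e * x e := by
    unfold H
    simp only [sub_mul, sum_sub_distrib, ite_mul, one_mul, zero_mul]
    rw [sum_ite_eq', if_pos (mem_sym_inr.2 hv)]
    congr 1
    symm
    refine sum_subset (supp_sub_sym hv) fun e _ he => ?_
    rw [Finsupp.notMem_support_iff.1 he, zero_mul]
  rw [h3, sub_eq_zero] at h1
  rw [h1, ← N.form v hv, Finsupp.linearCombination_apply, Finsupp.sum, sum_dotProduct]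
  refine sum_congr rfl fun e he => ?_
  rw [smul_dotProduct, smul_eq_mul]
  congr 1
  rcases e with x' | u
  · simp [vec, hz]
  · exact ih u (N.early v hv u he).2 (N.early v hv u he).1

theorem out_inj [Fintype Y] (hA2 : ∀ ψ : Y → F, ψ ≠ 0 → 3 ≤ wt ψ + wt (∑ y, ψ y • A y)) :
    Function.Injective N.out := by
  classical
  intro y y' h
  by_contra hne
  obtain ⟨_, c, hc, hL⟩ := N.hout y
  obtain ⟨_, c', hc', hL'⟩ := N.hout y'
  rw [← h, hL] at hL'
  set ψ : Y → F := Pi.single y c - Pi.single y' c' with hψ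
  have h1 : ψ y = c := by
    rw [hψ, Pi.sub_apply, Pi.single_eq_same, Pi.single_eq_of_ne hne, sub_zero]
  have h2 : ψ y' = -c' := by
    rw [hψ, Pi.sub_apply, Pi.single_eq_same, Pi.single_eq_of_ne (fun h => hne h.symm), zero_sub]
  have h3 : ∀ w, w ≠ y → w ≠ y' → ψ w = 0 := by
    intro w hw hw'
    rw [hψ, Pi.sub_apply, Pi.single_eq_of_ne hw, Pi.single_eq_of_ne hw', sub_zero]
  have h4 := hA2 ψ (fun h0 => hc (by rw [← h1, h0]; rfl))
  have h5 : ∑ w, ψ w • A w = 0 := by
    rw [← sum_subset (subset_univ {y, y'})]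
    · rw [sum_pair hne, h1, h2, neg_smul, hL', add_neg_cancel]
    · intro w _ hw
      rw [mem_insert, mem_singleton, not_or] at hw
      rw [h3 w hw.1 hw.2, zero_smul]
  have h6 : wt ψ ≤ 2 := by
    rw [wt_eq]
    refine (card_le_card (t := {y, y'}) fun w hw => ?_).trans card_le_two
    rw [mem_filter] at hw
    by_contra hcon
    rw [mem_insert, mem_singleton, not_or] at hcon
    exact hw.2 (h3 w hcon.1 hcon.2)
  have h7 : wt (0 : X → F) = 0 := by
    rw [wt_eq]
    simp
  rw [h5, h7] at h4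
  omega

theorem dist_fwd [Fintype Y] (hinj : Function.Injective N.out) {D : ℕ}
    (hA : ∀ z : X → F, z ≠ 0 → D ≤ wt z + wt fun y => dotProduct (A y) z)
    {E : Finset (X ⊕ ℕ)} (hE : E ⊆ N.sym) : Dist N.H E N.U D := by
  classical
  intro x hx hne
  set z : X → F := fun z => x (Sum.inl z) with hz
  have hz0 : z ≠ 0 := by
    intro h0
    apply hne
    funext s
    rcases s with x' | u
    · exact congrFun h0 x'
    · by_cases hu : u ∈ N.U
      · rw [sol_form hE hx u hu, ← hz, h0, dotProduct_zero]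
        rfl
      · rw [hx.1 _ fun h => hu (mem_sym_inr.1 (hE h))]
        rfl
  refine (hA z hz0).trans ?_
  rw [wt_eq, wt_eq]
  have h1 : ((univ.filter fun i => z i ≠ 0).disjSum
      (univ.filter fun y => dotProduct (A y) z ≠ 0)).card ≤ (spt E x).card := by
    refine card_le_card_of_injOn (fun s => Sum.elim Sum.inl (fun y => Sum.inr (N.out y)) s) ?_ ?_
    · intro s hs
      rw [mem_coe, mem_disjSum] at hs
      unfold spt
      rw [mem_coe, mem_filter]
      rcases hs with ⟨a, ha, rfl⟩ | ⟨b, hb, rfl⟩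
      · rw [mem_filter] at ha
        have h2 : x (Sum.inl a) ≠ 0 := ha.2
        refine ⟨?_, h2⟩
        by_contra h3
        exact h2 (hx.1 _ h3)
      · rw [mem_filter] at hb
        obtain ⟨h2, c, hc, h3⟩ := N.hout b
        have h4 : x (Sum.inr (N.out b)) ≠ 0 := by
          rw [sol_form hE hx _ h2, h3, smul_dotProduct, smul_eq_mul]
          exact mul_ne_zero hc hb.2
        refine ⟨?_, h4⟩
        by_contra h5
        exact h4 (hx.1 _ h5)
    · intro s _ t _ h
      rcases s with a | b <;> rcases t with a' | b'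
      · simpa using h
      · simp at h
      · simp at h
      · simp only [Sum.elim_inr, Sum.inr.injEq] at h
        rw [hinj h]
  rw [card_disjSum] at h1
  exact h1

end fin

end Net

end Pool.Agent.W946.Lc
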