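import Pool.Agent.W946.LcNum

set_option autoImplicit false

/-!
# Linear circuits
-/

namespace Pool.Agent.W946.Lc

open Finset

/-- A linear circuit over `F` with inputs `x_0, ..., x_{n-1}`: a finite directed acyclic graph
whose nodes are the inputs (`Sum.inl`) and the gates (`Sum.inr`), numbered in a topological order.
`tails k` is the set of the nodes from which there is an edge to the gate `k`, and `scalar k s` is
the scalar on the edge from `s` to `k`. -/
structure LinCircuit (F : Type*) (n : ℕ) where
  /-- the number of gates -/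
  gates : ℕ
  /-- the tails of the edges into a gate -/
  tails : (k : Fin gates) → Finset (Fin n ⊕ Fin (k : ℕ))
  /-- the scalars on the edges -/
  scalar : (k : Fin gates) → Fin n ⊕ Fin (k : ℕ) → F

namespace LinCircuit

variable {F : Type*} [Field F] {n : ℕ}

/-- The linear form computed by a gate, as the vector of its coefficients: the sum, over the edges
into the gate, of the scalar times the form at the tail. -/
noncomputable def form (C : LinCircuit F n) (k : Fin C.gates) : Fin n → F :=
  ∑ s ∈ C.tails k, C.scalar k s •
    (match s with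
    | .inl x => Pi.single x 1
    | .inr j => C.form ⟨(j : ℕ), j.2.trans k.2⟩)
termination_by (k : ℕ)
decreasing_by exact j.2

/-- the linear form at a node -/
noncomputable def node (C : LinCircuit F n) : Fin n ⊕ Fin C.gates → Fin n → F :=
  Sum.elim (fun x => Pi.single x 1) C.form

/-- The circuit computes `x ↦ A x`: every row of `A` is the linear form at some node. -/
def Computes (C : LinCircuit F n) (A : Matrix (Fin n) (Fin n) F) : Prop :=
  ∀ i, ∃ s, C.node s = A i

/-- the number of edges -/
def edges (C : LinCircuit F n) : ℕ := ∑ k, (C.tails k).card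

/-- the size: the number of nodes plus the number of edges -/
def size (C : LinCircuit F n) : ℕ := n + C.gates + C.edges

/-- the number of additions of two numbers needed to evaluate the gates -/
def additions (C : LinCircuit F n) : ℕ := ∑ k, ((C.tails k).card - 1)

/-- the number of a node -/
def emb {k : ℕ} : Fin n ⊕ Fin k → Fin n ⊕ ℕ := Sum.map id (fun j => (j : ℕ))

/-- the rows of the circuit -/
noncomputable def row (C : LinCircuit F n) (v : ℕ) : Fin n ⊕ ℕ →₀ F :=
  if h : v < C.gates then ∑ s ∈ C.tails ⟨v, h⟩, Finsupp.single (emb s) (C.scalar ⟨v, h⟩ s) else 0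

/-- the forms of the circuit -/
noncomputable def L (C : LinCircuit F n) (v : ℕ) : Fin n → F :=
  if h : v < C.gates then C.form ⟨v, h⟩ else 0

theorem L_of_lt (C : LinCircuit F n) {v : ℕ} (h : v < C.gates) : C.L v = C.form ⟨v, h⟩ :=
  dif_pos h

theorem row_support (C : LinCircuit F n) {v : ℕ} (h : v < C.gates) :
    (C.row v).support ⊆ (C.tails ⟨v, h⟩).image emb := by
  classical
  rw [row, dif_pos h]
  intro s hs
  have h1 := Finsupp.support_finsetSum hs
  rw [mem_biUnion] at h1
  obtain ⟨t, ht, hst⟩ := h1
  rw [mem_image]
  exact ⟨t, ht, (mem_singleton.1 (Finsupp.support_single_subset hst)).symm⟩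

theorem card_row_support (C : LinCircuit F n) {v : ℕ} (h : v < C.gates) :
    (C.row v).support.card ≤ (C.tails ⟨v, h⟩).card :=
  (card_le_card (C.row_support h)).trans card_image_le

theorem form_row (C : LinCircuit F n) {v : ℕ} (h : v < C.gates) :
    Finsupp.linearCombination F (vec C.L) (C.row v) = C.L v := by
  rw [row, dif_pos h, L_of_lt C h, form, map_sum]
  refine sum_congr rfl fun s _ => ?_
  rw [Finsupp.linearCombination_single]
  congr 1
  rcases s with x | j
  · rfl
  · exact L_of_lt C (j.2.trans h)

/-- the circuit as a net -/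
noncomputable def toNet (C : LinCircuit F n) (A : Fin n → Fin n → F) (out : Fin n → Fin C.gates)
    (ho : ∀ i, C.form (out i) = A i) : Net F (Fin n) (Fin n) A where
  U := range C.gates
  row := C.row
  L := C.L
  out := fun i => out i
  early := by
    intro v hv u hu
    rw [mem_range] at hv
    have h1 := C.row_support hv hu
    rw [mem_image] at h1
    obtain ⟨s, _, hs⟩ := h1
    rcases s with x | j
    · simp [emb] at hs
    · have h2 : (j : ℕ) = u := by simpa [emb] using hs
      rw [mem_range, ← h2]
      exact ⟨j.2.trans hv, j.2⟩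
  form := fun v hv => C.form_row (mem_range.1 hv)
  hout := fun i => ⟨mem_range.2 (out i).2, 1, one_ne_zero, by
    rw [one_smul, L_of_lt C (out i).2, ← ho i]⟩

theorem toNet_edges (C : LinCircuit F n) (A : Fin n → Fin n → F) (out : Fin n → Fin C.gates)
    (ho : ∀ i, C.form (out i) = A i) : (C.toNet A out ho).edges ≤ C.edges := by
  change ∑ v ∈ range C.gates, (C.row v).support.card ≤ _
  rw [edges, ← Fin.sum_univ_eq_sum_range (fun v => (C.row v).support.card)]
  exact sum_le_sum fun k _ => C.card_row_support k.2

theorem toNet_adds (C : LinCircuit F n) (A : Fin n → Fin n → F) (out : Fin n → Fin C.gates)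
    (ho : ∀ i, C.form (out i) = A i) : (C.toNet A out ho).adds ≤ C.additions := by
  change ∑ v ∈ range C.gates, ((C.row v).support.card - 1) ≤ _
  rw [additions, ← Fin.sum_univ_eq_sum_range (fun v => (C.row v).support.card - 1)]
  exact sum_le_sum fun k _ => Nat.sub_le_sub_right (C.card_row_support k.2) 1

end LinCircuit

universe u

/-- **Lower bounds for linear circuits.** -/
theorem bound (δ : ℝ) (hδ : 0 < δ) : ∃ M : ℝ, 0 < M ∧ ∀ (F : Type u) [Field F] (n : ℕ),
    1 ≤ n → ∀ A : Matrix (Fin n) (Fin n) F,
    (∀ x : Fin n → F, x ≠ 0 → M * (1 + Real.log n) ≤ (wt x : ℝ) + wt (A.mulVec x)) →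
    (∀ y : Fin n → F, y ≠ 0 → M * (1 + Real.log n) ≤ (wt y : ℝ) + wt (Matrix.vecMul y A)) →
    ∀ C : LinCircuit F n, C.Computes A → (4 - δ) * n ≤ C.additions ∧ (6 - δ) * n ≤ C.edges ∧
      (8 - δ) * n ≤ C.size := by
  obtain ⟨M, hM, h⟩ := main.{u} δ hδ
  refine ⟨max M 3, by positivity, ?_⟩
  intro F _ n hn A hA hA' C hC
  have hlogn : 0 ≤ Real.log n := Real.log_nonneg (by exact_mod_cast hn)
  have hMle : M * (1 + Real.log n) ≤ max M 3 * (1 + Real.log n) :=
    mul_le_mul_of_nonneg_right (le_max_left _ _) (by linarith)
  have h3le : 3 ≤ max M 3 * (1 + Real.log n) := by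
    have : 3 ≤ max M 3 := le_max_right _ _
    nlinarith
  have hvec : ∀ y : Fin n → F, Matrix.vecMul y A = ∑ i, y i • A i := by
    intro y
    funext j
    rw [Finset.sum_apply]
    rfl
  -- the outputs are gates
  have hout : ∀ i, ∃ k : Fin C.gates, C.form k = A i := by
    intro i
    obtain ⟨s, hs⟩ := hC i
    rcases s with x | k
    · exfalso
      have h1 := h3le.trans (hA' (Pi.single i 1) (fun h0 => by simpa using congrFun h0 i))
      have h2 : Matrix.vecMul (Pi.single i 1 : Fin n → F) A = Pi.single x 1 := by
        rw [hvec, Finset.sum_eq_single i]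
        · rw [Pi.single_eq_same, one_smul, ← hs]
          rfl
        · intro y' _ hne
          rw [Pi.single_eq_of_ne hne, zero_smul]
        · intro h'
          exact absurd (mem_univ _) h'
      rw [h2] at h1
      have h4 := wt_single_le i (1 : F)
      have h5 := wt_single_le x (1 : F)
      have h6 : ((wt (Pi.single i (1 : F) : Fin n → F) + wt (Pi.single x (1 : F) : Fin n → F) :
          ℕ) : ℝ) ≤ 2 := by exact_mod_cast (by omega)
      push_cast at h6
      linarith
    · exact ⟨k, hs⟩
  choose out ho using hout
  obtain ⟨k1, k2, k3⟩ := h F n hn A (fun z hz => hMle.trans (hA z hz))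
    (fun ψ hψ => hMle.trans (by rw [← hvec]; exact hA' ψ hψ)) (C.toNet A out ho)
  have e1 : ((C.toNet A out ho).adds : ℝ) ≤ C.additions := by exact_mod_cast C.toNet_adds A out ho
  have e2 : ((C.toNet A out ho).edges : ℝ) ≤ C.edges := by exact_mod_cast C.toNet_edges A out ho
  have e3 : (C.toNet A out ho).U.card = C.gates := card_range _
  have e4 : (C.size : ℝ) = n + C.gates + C.edges := by
    rw [LinCircuit.size]
    push_cast
    ring
  rw [e3] at k3
  exact ⟨k1.trans e1, k2.trans e2, by rw [e4]; linarith⟩

end Pool.Agent.W946.Lc
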