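import Pool.Agent.W946.SzGates

set_option autoImplicit false

/-!
# The lower bound on the size
-/

namespace Pool.Agent.W946.Sz

open Finset Pool.Agent.H88R3.MM Pool.Agent.H522R2 Pool.Agent.H522R2.Circuit Pool.Agent.W946.Kos

theorem pick {K : ℕ} (hK : 0 < K) {η : ℝ} (hη : 0 < η) :
    ∃ m₀ : ℕ, ∀ m : ℕ, m₀ ≤ m → ∃ i : ℕ, 1 ≤ i ∧ K * (4 * i + 3) ≤ m ∧
      8 * (m : ℝ) ^ 2 ≤ (1 + η) ^ i := by
  have hKr : (0 : ℝ) < K := by exact_mod_cast hK
  have h1 := tendsto_pow_const_div_const_pow_of_one_lt 2 (show (1 : ℝ) < 1 + η by linarith)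
  have h2 : ∀ᶠ n : ℕ in Filter.atTop, (n : ℝ) ^ 2 / (1 + η) ^ n < 1 / (2048 * (K : ℝ) ^ 2) :=
    h1.eventually_lt_const (by positivity)
  obtain ⟨I₀, hI₀⟩ := Filter.eventually_atTop.1 h2
  refine ⟨8 * K * (I₀ + 1) + 6 * K, fun m hm => ?_⟩
  have hdm := Nat.div_add_mod m (8 * K)
  have hmod := Nat.mod_lt m (show 0 < 8 * K by omega)
  set i := m / (8 * K) with hi
  have hiI : I₀ + 1 ≤ i := by
    rw [hi, Nat.le_div_iff_mul_le (by omega)]
    nlinarith
  refine ⟨i, by omega, ?_, ?_⟩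
  · have h6 : 6 * K ≤ m := le_trans (Nat.le_add_left _ _) hm
    have h8 : 8 * K * i ≤ m := Nat.mul_div_le _ _
    nlinarith
  · have h3 := hI₀ i (by omega)
    have hi1 : (1 : ℝ) ≤ i := by exact_mod_cast (show 1 ≤ i by omega)
    have h4 : (m : ℝ) ≤ 8 * K * (i + 1) := by
      have : m ≤ 8 * K * (i + 1) := by nlinarith
      exact_mod_cast this
    have h5 : (m : ℝ) ≤ 16 * K * i := by nlinarith
    have hm0 : (0 : ℝ) ≤ m := by positivity
    have h6 : (m : ℝ) ^ 2 ≤ (16 * K * i) ^ 2 := pow_le_pow_left₀ hm0 h5 2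
    have h7 : (2048 * (K : ℝ) ^ 2) * (i : ℝ) ^ 2 ≤ (1 + η) ^ i := by
      rw [div_lt_div_iff₀ (by positivity) (by positivity)] at h3
      nlinarith
    nlinarith

theorem bound_of_params {F : Type*} [Field F] {m : ℕ} {C : Circuit F (Vars m)} (hm : 2 ≤ m)
    (hC : ∀ i j, ∃ k : Fin C.nodes, C.poly k = entry F m i j) {η : ℝ} (hη : 0 < η) {i Δ r : ℕ}
    (hΔ : 0 < Δ) (hi : 1 ≤ i) (hs : (C.size : ℝ) ≤ (1 + η) ^ i)
    (hT : Δ * ((1 + Δ) ^ r * (4 * i + 3)) ≤ m) :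
    (2 : ℝ) ^ r * (3 * (2 * (m : ℝ) ^ 2 - 5 * C.size / (Δ + 1)) -
      (1 + η) * (C.size - 2 * (m : ℝ) ^ 2)) ≤ 3 * (2 * (m : ℝ) ^ 2) := by
  classical
  have : Nonempty (Vars m) := ⟨Sum.inl (⟨0, by omega⟩, ⟨0, by omega⟩)⟩
  obtain ⟨S⟩ := exists_sys C
  have h1 := leaders_add_le S hm hC
  have h2 := S.heavy Δ
  have h3 := S.dist hC hΔ hT
  have hns : C.nonscalarCount ≤ C.size := C.nonscalarCount_le_mulCount.trans C.mulCount_le_size
  have hcard : (EE C).card = 2 * m ^ 2 + (CC C).card := by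
    rw [card_EE]
    congr 1
    rw [Fintype.card_sum, Fintype.card_prod, Fintype.card_fin]
    ring
  have hc : ((CC C).card : ℝ) ≤ C.size - 2 * (m : ℝ) ^ 2 := by
    have : ((CC C).card : ℝ) + 2 * (m : ℝ) ^ 2 ≤ C.size := by exact_mod_cast h1
    linarith
  have h4 := rounds (H := S.H) (Δ := Δ) hη hi r (S.light Δ) (CC C) (fun c _ => S.row_card _ c)
    (fun e he => (mem_filter.1 he).2.1) ?_ h3
  · set K' : ℝ := ((S.light Δ).card : ℝ) - (CC C).card with hK'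
    have hΔr : (0 : ℝ) < (Δ : ℝ) + 1 := by positivity
    have h5 : 2 * (m : ℝ) ^ 2 - 5 * C.size / (Δ + 1) ≤ K' := by
      have h6 : (Δ + 1) * (2 * m ^ 2 + (CC C).card) ≤ (Δ + 1) * (S.light Δ).card +
          5 * C.size := by
        rw [hcard] at h2
        have : (CC C).card ≤ C.size := by omega
        omega
      have h7 : ((Δ : ℝ) + 1) * (2 * (m : ℝ) ^ 2 + (CC C).card) ≤
          ((Δ : ℝ) + 1) * (S.light Δ).card + 5 * C.size := by exact_mod_cast h6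
      have h8 : 2 * (m : ℝ) ^ 2 - K' ≤ 5 * C.size / (Δ + 1) := by
        rw [le_div_iff₀ hΔr, hK']
        nlinarith
      linarith
    have h6 : K' ≤ 2 * (m : ℝ) ^ 2 := by
      have h7 : (S.light Δ).card ≤ 2 * m ^ 2 + (CC C).card := by
        rw [← hcard]
        exact card_le_card (filter_subset _ _)
      have h8 : ((S.light Δ).card : ℝ) ≤ 2 * (m : ℝ) ^ 2 + (CC C).card := by exact_mod_cast h7
      rw [hK']
      linarith
    have h7 : 3 * (2 * (m : ℝ) ^ 2 - 5 * C.size / (Δ + 1)) -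
      (1 + η) * (C.size - 2 * (m : ℝ) ^ 2) ≤ 3 * K' - (1 + η) * (CC C).card := by
      have := mul_le_mul_of_nonneg_left hc (show (0 : ℝ) ≤ 1 + η by linarith)
      linarith
    have h8 := mul_le_mul_of_nonneg_left h7 (show (0 : ℝ) ≤ 2 ^ r by positivity)
    linarith
  · refine le_trans ?_ hs
    exact_mod_cast (show (CC C).card ≤ C.size by omega)

universe u

theorem size_bound (δ : ℝ) (hδ : 0 < δ) : ∃ m₀ : ℕ, ∀ (F : Type u) [Field F] (m : ℕ)
    (C : Circuit F (Vars m)), m₀ ≤ m →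
    (∀ i j, ∃ k : Fin C.nodes, C.poly k = entry F m i j) →
    (8 - δ) * (m : ℝ) ^ 2 ≤ C.size := by
  -- the parameters
  set η : ℝ := min (δ / 18) (1 / 2) with hηdef
  have hη : 0 < η := lt_min (by positivity) (by norm_num)
  have hη1 : 18 * η ≤ δ := by
    have := min_le_left (δ / 18) (1 / 2 : ℝ)
    rw [← hηdef] at this
    linarith
  have hη2 : η ≤ 1 / 2 := min_le_right _ _
  obtain ⟨Δ, hΔ⟩ := exists_nat_gt (20 / η)
  have hΔ0 : 0 < Δ := by
    have : (0 : ℝ) < Δ := lt_trans (by positivity) hΔ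
    exact_mod_cast this
  obtain ⟨r, hr⟩ := pow_unbounded_of_one_lt (1 / η) (show (1 : ℝ) < 2 by norm_num)
  obtain ⟨m₀, hm₀⟩ := pick (K := Δ * (1 + Δ) ^ r) (by positivity) hη
  refine ⟨max m₀ 2, fun F _ m C hm hC => ?_⟩
  obtain ⟨i, hi, hT, hp⟩ := hm₀ m (le_trans (le_max_left _ _) hm)
  have hm2 : 2 ≤ m := le_trans (le_max_right _ _) hm
  by_contra hcon
  push Not at hcon
  set M : ℝ := (m : ℝ) ^ 2 with hM
  have hM0 : 0 < M := by
    have : (0 : ℝ) < m := by exact_mod_cast (show 0 < m by omega)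
    positivity
  have hs8 : (C.size : ℝ) < 8 * M := by nlinarith
  have h1 := bound_of_params hm2 hC hη hΔ0 hi (hs8.le.trans hp) (r := r) (by
    rw [← mul_assoc]; exact hT)
  rw [← hM] at h1
  -- the number of heavy symbols
  have h2 : 5 * (C.size : ℝ) / (Δ + 1) ≤ 2 * η * M := by
    rw [div_le_iff₀ (by positivity)]
    have h3 : 20 < η * Δ := by
      rw [div_lt_iff₀ hη] at hΔ
      linarith
    nlinarith [mul_pos hη hM0]
  have h3 : 1 ≤ η * 2 ^ r := by
    rw [div_lt_iff₀ hη] at hr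
    linarith
  set s : ℝ := (C.size : ℝ) with hsdef
  set Y : ℝ := 3 * (2 * M - 5 * s / (Δ + 1)) - (1 + η) * (s - 2 * M) with hY
  -- upper bound for `Y`
  have h4 : Y ≤ 6 * η * M := by
    by_cases hY0 : Y ≤ 0
    · exact hY0.trans (by positivity)
    · push Not at hY0
      have h5 : Y ≤ Y * (η * 2 ^ r) := le_mul_of_one_le_right hY0.le h3
      have h6 : Y * (η * 2 ^ r) = η * (2 ^ r * Y) := by ring
      rw [h6] at h5
      have h7 := mul_le_mul_of_nonneg_left h1 hη.le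
      linarith
  have h5 : 6 * M - 6 * η * M - (1 + η) * (s - 2 * M) ≤ 6 * η * M := by
    have : Y ≥ 6 * M - 6 * η * M - (1 + η) * (s - 2 * M) := by
      rw [hY]
      linarith
    linarith
  have h6 : s - 2 * M < (6 - 18 * η) * M := by nlinarith
  have h7 : (1 + η) * (s - 2 * M) ≤ (1 + η) * ((6 - 18 * η) * M) :=
    mul_le_mul_of_nonneg_left h6.le (by linarith)
  nlinarith [mul_pos hη hM0, mul_pos hη (mul_pos hη hM0)]

end Pool.Agent.W946.Sz
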