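import Pool.Agent.W946.LcFin
import Pool.Agent.W946.SzFin

set_option autoImplicit false

/-!
# The bounds for linear circuits: constants
-/

namespace Pool.Agent.W946.Lc

open Finset Pool.Agent.W946.Sz

theorem num_aux {n m G h Kf Kb S₁ S₂ c q t ε η R D : ℝ} (hn : 0 < n) (hη : 0 < η)
    (hR : 3 ≤ η * R) (hR0 : 0 < R) (hε : 0 < ε) (hεη : 4 * ε ≤ η) (hD : 12 ≤ η * D) (hD0 : 0 < D)
    (h0 : G = n + h) (h1 : R * (3 * Kf - S₁ - ε * G) ≤ 3 * Kf)
    (h2 : R * (3 * Kb - S₂ - ε * G) ≤ 3 * Kb) (h3 : S₁ + G + c + t ≤ m)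
    (h4 : S₂ + h + 2 * n + n + q ≤ m + c) (h5 : 0 ≤ q) (h6 : Kf - ε * G ≤ q + h) (h7 : 0 ≤ t)
    (h8 : Kb - ε * G ≤ t + G - c) (h9 : D * n ≤ D * Kf + m + G) (h10 : Kf ≤ n)
    (h11 : D * n ≤ D * Kb + m) (h12 : Kb ≤ n) (h13 : 2 * G ≤ m) (hh : 0 ≤ h) (hm : m < 8 * n) :
    (4 - 5 * η) * n ≤ m - G ∧ (6 - 7 * η) * n ≤ m ∧ (8 - 7 * η) * n ≤ n + G + m := by
  have hG : G ≤ 4 * n := by linarith
  have hεG : ε * G ≤ η * n := by
    have e1 : ε * G ≤ ε * (4 * n) := mul_le_mul_of_nonneg_left hG hε.le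
    have e2 : (4 * ε) * n ≤ η * n := mul_le_mul_of_nonneg_right hεη hn.le
    linarith
  have hKf : n - η * n ≤ Kf := by
    have e1 : 12 * n ≤ η * D * n := mul_le_mul_of_nonneg_right hD hn.le
    have e2 : D * (n - η * n) ≤ D * Kf := by nlinarith
    exact le_of_mul_le_mul_left e2 hD0
  have hKb : n - η * n ≤ Kb := by
    have e1 : 12 * n ≤ η * D * n := mul_le_mul_of_nonneg_right hD hn.le
    have e2 : D * (n - η * n) ≤ D * Kb := by nlinarith
    exact le_of_mul_le_mul_left e2 hD0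
  have hr : ∀ K S : ℝ, K ≤ n → R * (3 * K - S - ε * G) ≤ 3 * K →
      3 * K - S - ε * G ≤ η * n := by
    intro K S hK hS
    have e1 : R * (3 * K - S - ε * G) ≤ R * (η * n) := by
      have : 3 * n ≤ η * R * n := mul_le_mul_of_nonneg_right hR hn.le
      nlinarith
    exact le_of_mul_le_mul_left e1 hR0
  have hS₁ := hr Kf S₁ h10 h1
  have hS₂ := hr Kb S₂ h12 h2
  have g1 : 3 * n - 5 * (η * n) ≤ S₁ := by linarith
  have g2 : 3 * n - 5 * (η * n) ≤ S₂ := by linarith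
  have hηn : 0 < η * n := mul_pos hη hn
  clear h1 h2 hr hεη hR hD h9 h11
  have k1 : (4 - 5 * η) * n = 4 * n - 5 * (η * n) := by ring
  have k2 : (6 - 7 * η) * n = 6 * n - 7 * (η * n) := by ring
  have k3 : (8 - 7 * η) * n = 8 * n - 7 * (η * n) := by ring
  rw [k1, k2, k3]
  have k4 : 6 * n - 7 * (η * n) ≤ m := by
    rcases le_total n h with h14 | h14 <;> linarith
  refine ⟨by linarith, k4, by linarith⟩

variable {F X Y : Type*} [Field F] [DecidableEq X] {A : Y → X → F}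

theorem edges_eq {N : Net F X Y A} (h : ∀ v ∈ N.U, 1 ≤ N.k v) :
    N.edges = N.adds + N.U.card := by
  unfold Net.edges Net.adds
  rw [card_eq_sum_ones, ← sum_add_distrib]
  refine sum_congr rfl fun v hv => ?_
  have := h v hv
  omega

open Net in
/-- the bounds for circuits without redundant gates -/
theorem nice_bound {n : ℕ} (hn : 1 ≤ n) {A : Fin n → Fin n → F} {N : Net F (Fin n) (Fin n) A}
    (hN : N.Nice) {Δ i r : ℕ} {ε η : ℝ} (hε : 0 < ε) (hη : 0 < η) (hΔ : 1 ≤ Δ)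
    (hi : 1 ≤ i) (hpow : 4 * (n : ℝ) ≤ (1 + ε) ^ i) (hεη : 4 * ε ≤ η) (hD : 12 ≤ η * (Δ + 1))
    (hR : 3 ≤ η * 2 ^ r)
    (hA : ∀ z : Fin n → F, z ≠ 0 → (1 + Δ) * ((2 + Δ) ^ r * (4 * i + 3)) ≤
      wt z + wt fun y => dotProduct (A y) z)
    (hA' : ∀ ψ : Fin n → F, ψ ≠ 0 → (1 + Δ) * ((2 + Δ) ^ r * (4 * i + 3)) ≤
      wt ψ + wt (∑ y, ψ y • A y)) :
    (4 - 5 * η) * n ≤ N.adds ∧ (6 - 7 * η) * n ≤ N.edges ∧
      (8 - 7 * η) * n ≤ n + N.U.card + N.edges := by
  have : Nonempty (Fin n) := ⟨⟨0, hn⟩⟩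
  have hn0 : (0 : ℝ) < n := by exact_mod_cast hn
  have hk : ∀ v ∈ N.U, 2 ≤ N.k v := fun v hv => two_le_k hN hv
  have he := edges_eq (N := N) fun v hv => (by omega : 1 ≤ 2).trans (hk v hv)
  have her : (N.edges : ℝ) = N.adds + N.U.card := by exact_mod_cast he
  have h2U : 2 * (N.U.card : ℝ) ≤ N.edges := by
    have h1 : ∑ v ∈ N.U, 2 ≤ N.edges := sum_le_sum fun v hv => hk v hv
    rw [sum_const, smul_eq_mul] at h1
    have h2 : (N.U.card : ℝ) * 2 ≤ N.edges := by exact_mod_cast h1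
    linarith
  have hU0 : (0 : ℝ) ≤ N.U.card := by positivity
  by_cases hm : (N.edges : ℝ) < 8 * n
  · obtain ⟨Kf, Kb, S₁, S₂, c, q, t, h0, h1, h2, h3, h4, h5, h6, h7, h8, h9, h10, h11, h12,
      h13, _⟩ := ineqs hN hε hΔ hi (r := r)
        ((by linarith : (N.U.card : ℝ) ≤ 4 * n).trans hpow) hA hA'
    simp only [Fintype.card_fin] at h0 h4 h9 h10 h11 h12
    obtain ⟨k1, k2, k3⟩ := num_aux (D := (Δ : ℝ) + 1) hn0 hη hR (by positivity) hε hεη hD
      (by positivity) h0 h1 h2 (by linarith) (by linarith) h5 h6 h7 h8 (by linarith) h10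
      (by linarith) h12 h13 (by positivity) hm
    exact ⟨by linarith, k2, k3⟩
  · push Not at hm
    have hηn : 0 < η * n := mul_pos hη hn0
    refine ⟨by nlinarith, by nlinarith, by nlinarith⟩

theorem wt_single_le {Z : Type*} [Fintype Z] [DecidableEq Z] (i : Z) (c : F) :
    wt (Pi.single i c : Z → F) ≤ 1 := by
  classical
  rw [wt_eq]
  refine (card_le_card (t := {i}) fun j hj => ?_).trans (card_singleton i).le
  rw [mem_filter] at hj
  rw [mem_singleton]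
  by_contra h
  apply hj.2
  rw [Pi.single_eq_of_ne h]

universe u

/-- **Linear circuits for matrices with large dual distances.** -/
theorem main (δ : ℝ) (hδ : 0 < δ) : ∃ M : ℝ, 0 < M ∧ ∀ (F : Type u) [Field F] (n : ℕ),
    1 ≤ n → ∀ A : Fin n → Fin n → F,
    (∀ z : Fin n → F, z ≠ 0 → M * (1 + Real.log n) ≤
      (wt z : ℝ) + wt fun y => dotProduct (A y) z) →
    (∀ ψ : Fin n → F, ψ ≠ 0 → M * (1 + Real.log n) ≤ (wt ψ : ℝ) + wt (∑ y, ψ y • A y)) →
    ∀ N : Net F (Fin n) (Fin n) A, (4 - δ) * n ≤ N.adds ∧ (6 - δ) * n ≤ N.edges ∧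
      (8 - δ) * n ≤ n + N.U.card + N.edges := by
  set η : ℝ := δ / 7 with hηdef
  have hη : 0 < η := by positivity
  obtain ⟨Δ, hΔ⟩ := exists_nat_gt (12 / η)
  have hΔ0 : 1 ≤ Δ := by
    have : (0 : ℝ) < Δ := lt_trans (by positivity) hΔ
    exact_mod_cast this
  obtain ⟨r, hr⟩ := pow_unbounded_of_one_lt (3 / η) (show (1 : ℝ) < 2 by norm_num)
  set ε : ℝ := η / 4 with hεdef
  have hε : 0 < ε := by positivity
  have hlog : 0 < Real.log (1 + ε) := Real.log_pos (by linarith)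
  set B : ℝ := (1 + Δ) * (2 + Δ) ^ r with hB
  have hB0 : 0 < B := by positivity
  refine ⟨B * (8 / Real.log (1 + ε) + 11), by positivity, ?_⟩
  intro F _ n hn A hA hA' N
  have hn0 : (0 : ℝ) < n := by exact_mod_cast hn
  have hlogn : 0 ≤ Real.log n := Real.log_nonneg (by exact_mod_cast hn)
  set i : ℕ := ⌈Real.log (4 * n) / Real.log (1 + ε)⌉₊ + 1 with hi
  have hi1 : Real.log (4 * n) / Real.log (1 + ε) ≤ i := by
    rw [hi]
    push_cast
    exact (Nat.le_ceil _).trans (by linarith)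
  have hlog4 : Real.log (4 * n) ≤ 2 * (1 + Real.log n) := by
    rw [Real.log_mul (by norm_num) hn0.ne']
    have : Real.log 4 ≤ 2 := by
      have h1 := Real.log_le_sub_one_of_pos (show (0 : ℝ) < 2 by norm_num)
      have h2 : Real.log 4 = Real.log 2 + Real.log 2 := by
        rw [← Real.log_mul (by norm_num) (by norm_num)]
        norm_num
      linarith
    linarith
  have hlog4' : 0 ≤ Real.log (4 * n) := Real.log_nonneg (by
    have : (1 : ℝ) ≤ n := by exact_mod_cast hn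
    linarith)
  have hi2 : (i : ℝ) ≤ 2 * (1 + Real.log n) / Real.log (1 + ε) + 2 := by
    rw [hi]
    push_cast
    have h1 := Nat.ceil_lt_add_one (div_nonneg hlog4' hlog.le)
    have h2 : Real.log (4 * n) / Real.log (1 + ε) ≤ 2 * (1 + Real.log n) / Real.log (1 + ε) :=
      div_le_div_of_nonneg_right hlog4 hlog.le
    linarith
  have hpow : 4 * (n : ℝ) ≤ (1 + ε) ^ i := by
    rw [div_le_iff₀ hlog, ← Real.log_pow] at hi1
    exact (Real.log_le_log_iff (by positivity) (by positivity)).1 hi1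
  have hDr : (((1 + Δ) * ((2 + Δ) ^ r * (4 * i + 3)) : ℕ) : ℝ) ≤
      B * (8 / Real.log (1 + ε) + 11) * (1 + Real.log n) := by
    push_cast
    have h1 : (1 + (Δ : ℝ)) * ((2 + Δ) ^ r * (4 * i + 3)) = B * (4 * i + 3) := by
      rw [hB]
      ring
    rw [h1, mul_assoc B (8 / Real.log (1 + ε) + 11)]
    refine mul_le_mul_of_nonneg_left ?_ hB0.le
    have h2 : 8 / Real.log (1 + ε) * (1 + Real.log n) =
        4 * (2 * (1 + Real.log n) / Real.log (1 + ε)) := by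
      field_simp
      ring
    rw [add_mul, h2]
    linarith
  have hX : ∀ z : Fin n → F, z ≠ 0 → (1 + Δ) * ((2 + Δ) ^ r * (4 * i + 3)) ≤
      wt z + wt fun y => dotProduct (A y) z := by
    intro z hz
    have := hDr.trans (hA z hz)
    exact_mod_cast this
  have hY : ∀ ψ : Fin n → F, ψ ≠ 0 → (1 + Δ) * ((2 + Δ) ^ r * (4 * i + 3)) ≤
      wt ψ + wt (∑ y, ψ y • A y) := by
    intro ψ hψ
    have := hDr.trans (hA' ψ hψ)
    exact_mod_cast this
  have h3 : 3 ≤ (1 + Δ) * ((2 + Δ) ^ r * (4 * i + 3)) := by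
    have h1 : 1 ≤ (2 + Δ) ^ r := Nat.one_le_pow _ _ (by omega)
    have h2 : 4 * i + 3 ≤ (2 + Δ) ^ r * (4 * i + 3) := Nat.le_mul_of_pos_left _ h1
    nlinarith
  have : Nonempty (Fin n) := ⟨⟨0, hn⟩⟩
  have hrow : ∀ (y x : Fin n) (c : F), A y ≠ c • (Pi.single x 1 : Fin n → F) := by
    intro y x c h
    have h1 := h3.trans (hY (Pi.single y 1) (fun h0 => by simpa using congrFun h0 y))
    have h2 : ∑ y', (Pi.single y 1 : Fin n → F) y' • A y' = A y := by
      rw [Finset.sum_eq_single y]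
      · rw [Pi.single_eq_same, one_smul]
      · intro y' _ hne
        rw [Pi.single_eq_of_ne hne, zero_smul]
      · intro h'
        exact absurd (mem_univ _) h'
    rw [h2, h, ← Pi.single_smul, smul_eq_mul, mul_one] at h1
    have h4 := wt_single_le y (1 : F)
    have h5 := wt_single_le x c
    omega
  obtain ⟨N', hN', e1, e2, e3⟩ := Net.exists_nice hrow N.U.card N rfl
  obtain ⟨k1, k2, k3⟩ := nice_bound hn hN' hε hη hΔ0 (by omega) hpow (by rw [hεdef]; linarith)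
    (by rw [div_lt_iff₀ hη] at hΔ; nlinarith) (by rw [div_lt_iff₀ hη] at hr; linarith) hX hY
  have e1' : (N'.edges : ℝ) ≤ N.edges := by exact_mod_cast e1
  have e2' : (N'.adds : ℝ) ≤ N.adds := by exact_mod_cast e2
  have e3' : (N'.U.card : ℝ) ≤ N.U.card := by exact_mod_cast e3
  have hηn : 0 < η * n := mul_pos hη hn0
  have hδη : δ = 7 * η := by rw [hηdef]; ring
  rw [hδη]
  refine ⟨by nlinarith, by nlinarith, by nlinarith⟩

end Pool.Agent.W946.Lc
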