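import Pool.Agent.W946.SzRounds

set_option autoImplicit false

/-!
# Sparse systems of linear equations: equations with many unknowns

As in `SzRounds`, but an equation with `r` unknowns counts `max (r - 2) 1`.
-/

namespace Pool.Agent.W946.Sz

open Finset

variable {F S Ch : Type*} [Field F] [DecidableEq S] [DecidableEq Ch] {H : Ch → S → F}

/-- the weight of an equation -/
noncomputable def phi (H : Ch → S → F) (E : Finset S) (c : Ch) : ℕ := max ((row H E c).card - 2) 1

open Classical in
/-- the unknowns in exactly one equation -/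
noncomputable def E1 (H : Ch → S → F) (E : Finset S) (C : Finset Ch) : Finset S :=
  E.filter fun e => (eqs H C e).card = 1

/-- their equations -/
noncomputable def C1 (H : Ch → S → F) (E : Finset S) (C : Finset Ch) : Finset Ch :=
  (E1 H E C).biUnion fun e => eqs H C e

omit [DecidableEq S] [DecidableEq Ch] in
theorem mem_eqs {C : Finset Ch} {e : S} {c : Ch} : c ∈ eqs H C e ↔ c ∈ C ∧ H c e ≠ 0 := by
  classical
  unfold eqs
  simp only [mem_filter]

omit [DecidableEq S] [DecidableEq Ch] in
theorem mem_row {E : Finset S} {e : S} {c : Ch} : e ∈ row H E c ↔ e ∈ E ∧ H c e ≠ 0 := by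
  classical
  unfold row
  simp only [mem_filter]

omit [DecidableEq S] [DecidableEq Ch] in
theorem mem_E1 {E : Finset S} {C : Finset Ch} {e : S} :
    e ∈ E1 H E C ↔ e ∈ E ∧ (eqs H C e).card = 1 := by
  classical
  unfold E1
  simp only [mem_filter]

omit [DecidableEq Ch] in
theorem Dist.pos {E : Finset S} {C : Finset Ch} (hd : Dist H E C 2) {e : S} (he : e ∈ E) :
    1 ≤ (eqs H C e).card := by
  by_contra h0
  have h1 : eqs H C e = ∅ := card_eq_zero.1 (by omega)
  have h2 : Sol H E C (Pi.single e 1 : S → F) := by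
    refine ⟨fun e' he' => ?_, fun c hc => ?_⟩
    · rw [Pi.single_eq_of_ne]
      rintro rfl
      exact he' he
    · rw [sum_single c e he, mul_one]
      by_contra h3
      have : c ∈ eqs H C e := mem_eqs.2 ⟨hc, h3⟩
      rw [h1] at this
      exact notMem_empty c this
  have h3 := hd _ h2 (fun h => by simpa using congrFun h e)
  have h4 := spt_single_le E e (1 : F)
  omega

open Classical in
/-- elimination of the unknowns in exactly one equation -/
theorem peel {E : Finset S} {C : Finset Ch} {Δ T : ℕ} (hcol : ∀ e ∈ E, (eqs H C e).card ≤ Δ)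
    (hT : 3 ≤ T) (hd : Dist H E C ((1 + Δ) * T)) :
    C1 H E C ⊆ C ∧ (C1 H E C).card = (E1 H E C).card ∧
      Dist H (E \ E1 H E C) (C \ C1 H E C) T := by
  have hdT : Dist H E C 3 := hd.mono (by nlinarith)
  set E₁ := E1 H E C with hE₁
  have hE₁E : E₁ ⊆ E := filter_subset _ _
  have hE₁1 : ∀ e ∈ E₁, (eqs H C e).card = 1 := fun e he => (mem_E1.1 he).2
  have heq : ∀ e ∈ E₁, ∀ c ∈ eqs H C e, eqs H C e = {c} := by
    intro e he c hc
    obtain ⟨c', hc'⟩ := card_eq_one.1 (hE₁1 e he)
    rw [hc'] at hc ⊢
    rw [mem_singleton.1 hc]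
  have hdisj : ∀ e ∈ E₁, ∀ e' ∈ E₁, e ≠ e' → Disjoint (eqs H C e) (eqs H C e') := by
    intro e he e' he' hne
    rw [disjoint_left]
    intro c hc hc'
    have h1 := heq e he c hc
    have h2 := heq e' he' c hc'
    have hce : H c e ≠ 0 := (mem_eqs.1 hc).2
    have hce' : H c e' ≠ 0 := (mem_eqs.1 hc').2
    set x : S → F := (H c e') • (Pi.single e 1 : S → F) + (-(H c e)) • (Pi.single e' 1 : S → F)
      with hx
    have h3 : Sol H E C x := by
      refine ⟨fun z hz => ?_, fun c₂ hc₂ => ?_⟩
      · have hz1 : z ≠ e := fun h => hz (h ▸ hE₁E he)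
        have hz2 : z ≠ e' := fun h => hz (h ▸ hE₁E he')
        simp [hx, Pi.single_eq_of_ne hz1, Pi.single_eq_of_ne hz2]
      · have h4 : ∑ z ∈ E, H c₂ z * x z = H c e' * H c₂ e - H c e * H c₂ e' := by
          have h5 := sum_single (H := H) c₂ e (hE₁E he) 1
          have h6 := sum_single (H := H) c₂ e' (hE₁E he') 1
          rw [mul_one] at h5 h6
          rw [← h5, ← h6, mul_sum, mul_sum, ← sum_sub_distrib]
          refine sum_congr rfl fun z _ => ?_
          simp only [hx, Pi.add_apply, Pi.smul_apply, smul_eq_mul]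
          ring
        rw [h4]
        by_cases h7 : c₂ = c
        · rw [h7]
          ring
        · have h8 : H c₂ e = 0 := by
            by_contra h8
            have : c₂ ∈ eqs H C e := mem_eqs.2 ⟨hc₂, h8⟩
            rw [h1, mem_singleton] at this
            exact h7 this
          have h9 : H c₂ e' = 0 := by
            by_contra h9
            have : c₂ ∈ eqs H C e' := mem_eqs.2 ⟨hc₂, h9⟩
            rw [h2, mem_singleton] at this
            exact h7 this
          rw [h8, h9]
          ring
    have h4 : x ≠ 0 := by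
      intro h5
      have h6 := congrFun h5 e
      simp [hx, Pi.single_eq_of_ne hne] at h6
      exact hce' h6
    have h5 := hdT x h3 h4
    have h6 := spt_add_le (E := E) (Pi.single e 1 : S → F) (Pi.single e' 1) (H c e') (-(H c e))
    have h7 := spt_single_le E e (1 : F)
    have h8 := spt_single_le E e' (1 : F)
    rw [← hx] at h6
    omega
  set C₁ := C1 H E C with hC₁
  have hmemC₁ : ∀ c, c ∈ C₁ ↔ ∃ e ∈ E₁, c ∈ eqs H C e := by
    intro c
    rw [hC₁, C1, mem_biUnion]
  have hC₁C : C₁ ⊆ C := by
    intro c hc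
    obtain ⟨e, _, h⟩ := (hmemC₁ c).1 hc
    exact (mem_eqs.1 h).1
  have hC₁card : C₁.card = E₁.card := by
    rw [hC₁, C1, card_biUnion fun e he e' he' hne => hdisj e he e' he' hne,
      sum_congr rfl fun e he => hE₁1 e he, sum_const, smul_eq_mul, mul_one]
  refine ⟨hC₁C, hC₁card, ?_⟩
  intro x' hx' hne'
  set L : Ch → F := fun c => ∑ e ∈ E \ E₁, H c e * x' e with hL
  set x : S → F := fun e => if e ∈ E₁ then -∑ c ∈ eqs H C e, (H c e)⁻¹ * L c else x' e with hx
  have hxE' : ∀ e, e ∉ E₁ → x e = x' e := fun e he => by rw [hx]; exact if_neg he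
  have hxE₁ : ∀ e ∈ E₁, x e = -∑ c ∈ eqs H C e, (H c e)⁻¹ * L c := fun e he => by
    rw [hx]; exact if_pos he
  have hsol : Sol H E C x := by
    refine ⟨fun e he => ?_, fun c hc => ?_⟩
    · rw [hxE' e fun h => he (hE₁E h)]
      exact hx'.1 e fun h => he (mem_sdiff.1 h).1
    · rw [← sum_sdiff hE₁E]
      have h1 : ∑ e ∈ E \ E₁, H c e * x e = L c := by
        rw [hL]
        exact sum_congr rfl fun e he => by rw [hxE' e (mem_sdiff.1 he).2]
      rw [h1]
      by_cases hc₁ : c ∈ C₁
      · obtain ⟨e₀, he₀, hce₀⟩ := (hmemC₁ c).1 hc₁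
        have h2 : ∑ e ∈ E₁, H c e * x e = H c e₀ * x e₀ := by
          refine sum_eq_single e₀ (fun e he hne => ?_) fun h => absurd he₀ h
          have : H c e = 0 := by
            by_contra h3
            have h4 : c ∈ eqs H C e := mem_eqs.2 ⟨hc, h3⟩
            exact disjoint_left.1 (hdisj e he e₀ he₀ hne) h4 hce₀
          rw [this, zero_mul]
        have h3 : H c e₀ ≠ 0 := (mem_eqs.1 hce₀).2
        rw [h2, hxE₁ e₀ he₀, heq e₀ he₀ c hce₀, sum_singleton]
        field_simp
        ring
      · have h2 : ∑ e ∈ E₁, H c e * x e = 0 := by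
          refine sum_eq_zero fun e he => ?_
          have : H c e = 0 := by
            by_contra h3
            exact hc₁ ((hmemC₁ c).2 ⟨e, he, mem_eqs.2 ⟨hc, h3⟩⟩)
          rw [this, zero_mul]
        rw [h2, add_zero]
        exact hx'.2 c (mem_sdiff.2 ⟨hc, hc₁⟩)
  have hxne : x ≠ 0 := by
    obtain ⟨e, he⟩ := Function.ne_iff.1 hne'
    intro h0
    have heE : e ∈ E \ E₁ := by
      by_contra h
      exact he (hx'.1 e h)
    apply he
    rw [← hxE' e (mem_sdiff.1 heE).2, h0]
  have h1 := hd x hsol hxne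
  set A := spt (E \ E₁) x' with hA
  set A₁ := E₁.filter fun e => x e ≠ 0 with hA₁
  have h2 : (spt E x).card ≤ A.card + A₁.card := by
    refine (card_le_card ?_).trans (card_union_le _ _)
    intro e he
    unfold spt at he
    rw [mem_filter] at he
    rw [mem_union]
    by_cases h : e ∈ E₁
    · exact Or.inr (mem_filter.2 ⟨h, he.2⟩)
    · refine Or.inl (mem_filter.2 ⟨mem_sdiff.2 ⟨he.1, h⟩, ?_⟩)
      rw [← hxE' e h]
      exact he.2
  have h3 : A₁.card ≤ Δ * A.card := by
    have h4 : A₁.card = (A₁.biUnion fun e => eqs H C e).card := by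
      rw [card_biUnion fun e he e' he' hne => hdisj e (mem_filter.1 he).1 e'
        (mem_filter.1 he').1 hne, sum_congr rfl fun e he => hE₁1 e (mem_filter.1 he).1,
        sum_const, smul_eq_mul, mul_one]
    have h5 : (A₁.biUnion fun e => eqs H C e) ⊆ A.biUnion fun e => eqs H C e := by
      intro c hc
      obtain ⟨e, he, hce⟩ := mem_biUnion.1 hc
      rw [mem_filter] at he
      have h6 : L c ≠ 0 := by
        intro h7
        apply he.2
        rw [hxE₁ e he.1, heq e he.1 c hce, sum_singleton, h7, mul_zero, neg_zero]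
      obtain ⟨e', he', h7⟩ := exists_ne_zero_of_sum_ne_zero h6
      refine mem_biUnion.2 ⟨e', mem_filter.2 ⟨he', right_ne_zero_of_mul h7⟩, ?_⟩
      exact mem_eqs.2 ⟨(mem_eqs.1 hce).1, left_ne_zero_of_mul h7⟩
    rw [h4]
    refine (card_le_card h5).trans (card_biUnion_le.trans ?_)
    refine (sum_le_card_nsmul _ _ Δ fun e he => hcol e ?_).trans (le_of_eq ?_)
    · exact (mem_sdiff.1 (mem_filter.1 he).1).1
    · rw [smul_eq_mul, mul_comm]
  have h4 : (1 + Δ) * T ≤ (1 + Δ) * A.card := by nlinarith
  exact Nat.le_of_mul_le_mul_left h4 (by omega)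

/-- **Sparse systems with large distance**, general form. -/
theorem rounds' {i Δ : ℕ} {ε : ℝ} (hε : 0 < ε) (hi : 1 ≤ i) (r : ℕ) :
    ∀ (E : Finset S) (C : Finset Ch),
    (∀ e ∈ E, (eqs H C e).card ≤ Δ) → (C.card : ℝ) ≤ (1 + ε) ^ i →
    Dist H E C ((1 + Δ) ^ r * (4 * i + 3)) →
    (2 : ℝ) ^ r * (3 * ((E.card : ℝ) - C.card) - ∑ c ∈ C, (phi H E c : ℝ) - ε * C.card) ≤
      3 * ((E.card : ℝ) - C.card) := by
  classical
  induction r with
  | zero =>
    intro E C _ _ _
    rw [pow_zero, one_mul]
    have h1 : (0 : ℝ) ≤ ∑ c ∈ C, (phi H E c : ℝ) := sum_nonneg fun c _ => by positivity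
    have h2 : (0 : ℝ) ≤ ε * C.card := by positivity
    linarith
  | succ r ih =>
    intro E C hcol hC hd
    have hT : 4 * i + 3 ≤ (1 + Δ) ^ r * (4 * i + 3) :=
      Nat.le_mul_of_pos_left _ (by positivity)
    obtain ⟨p1, p2, p3⟩ := peel hcol (show 3 ≤ (1 + Δ) ^ r * (4 * i + 3) by omega)
      (hd.mono (le_of_eq (by rw [pow_succ]; ring)))
    have hEE : E1 H E C ⊆ E := fun e he => (mem_E1.1 he).1
    have hE'card : (E \ E1 H E C).card + (E1 H E C).card = E.card :=
      card_sdiff_add_card_eq_card hEE
    have hC'card : (C \ C1 H E C).card + (C1 H E C).card = C.card :=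
      card_sdiff_add_card_eq_card p1
    have hdT : Dist H E C (4 * i + 3) := hd.mono (hT.trans (by
      rw [pow_succ]
      have : 0 < 1 + Δ := by omega
      nlinarith [Nat.zero_le ((1 + Δ) ^ r * (4 * i + 3))]))
    have h7 := ih (E \ E1 H E C) (C \ C1 H E C) (fun e he => ?_) ?_ p3
    · have hE' : ((E \ E1 H E C).card : ℝ) = E.card - (E1 H E C).card := by
        rw [← hE'card]; push_cast; ring
      have hC' : ((C \ C1 H E C).card : ℝ) = C.card - (E1 H E C).card := by
        rw [← hC'card, p2]; push_cast; ring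
      rw [hE', hC'] at h7
      have hK : (E.card : ℝ) - (E1 H E C).card - (C.card - (E1 H E C).card) =
          E.card - C.card := by ring
      rw [hK] at h7
      refine le_trans ?_ h7
      rw [pow_succ, mul_assoc]
      refine mul_le_mul_of_nonneg_left ?_ (by positivity)
      -- the weights
      have hphi : ∑ c ∈ C \ C1 H E C, (phi H (E \ E1 H E C) c : ℝ) + (E1 H E C).card ≤
          ∑ c ∈ C, (phi H E c : ℝ) := by
        rw [← sum_sdiff p1]
        refine add_le_add (sum_le_sum fun c _ => ?_) ?_
        · have : phi H (E \ E1 H E C) c ≤ phi H E c := by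
            unfold phi
            have h8 : (row H (E \ E1 H E C) c).card ≤ (row H E c).card :=
              card_le_card fun e he => mem_row.2 ⟨(mem_sdiff.1 (mem_row.1 he).1).1,
                (mem_row.1 he).2⟩
            omega
          exact_mod_cast this
        · rw [← p2]
          have h8 : ∑ c ∈ C1 H E C, (1 : ℝ) ≤ ∑ c ∈ C1 H E C, (phi H E c : ℝ) := by
            refine sum_le_sum fun c _ => ?_
            have : 1 ≤ phi H E c := le_max_right _ _
            exact_mod_cast this
          rwa [sum_const, nsmul_eq_mul, mul_one] at h8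
      -- counting
      set P := E.filter fun e => (eqs H C e).card ≤ 2 with hP
      have h1 := few_light (P := P) (filter_subset _ _) (fun e he => (mem_filter.1 he).2) hε hi
        hC hdT
      have h2 : 3 * E.card ≤ (∑ c ∈ C, phi H E c + 2 * C.card) +
          ((E1 H E C).card + P.card) := by
        have h3 : ∑ e ∈ E, (eqs H C e).card ≤ ∑ c ∈ C, phi H E c + 2 * C.card := by
          rw [count_inc]
          have h5 : ∑ c ∈ C, (row H E c).card ≤ ∑ c ∈ C, (phi H E c + 2) := by
            refine sum_le_sum fun c _ => ?_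
            unfold phi
            omega
          rw [sum_add_distrib, sum_const, smul_eq_mul] at h5
          omega
        have h4 : ∑ e ∈ E, 3 ≤ ∑ e ∈ E, ((eqs H C e).card +
            ((if (eqs H C e).card = 1 then 1 else 0) +
              if (eqs H C e).card ≤ 2 then 1 else 0)) := by
          refine sum_le_sum fun e he => ?_
          have := (hdT.mono (show 2 ≤ 4 * i + 3 by omega)).pos he
          split_ifs <;> omega
        rw [sum_const, smul_eq_mul, sum_add_distrib, sum_add_distrib, ← card_filter,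
          ← card_filter] at h4
        have h5 : (E.filter fun e => (eqs H C e).card = 1).card = (E1 H E C).card := by
          congr 1
        have h6 : (E.filter fun e => (eqs H C e).card ≤ 2).card = P.card := rfl
        omega
      have h3 : 3 * (E.card : ℝ) ≤ (∑ c ∈ C, (phi H E c : ℝ) + 2 * C.card) +
          ((E1 H E C).card + P.card) := by exact_mod_cast h2
      have h5 : (0 : ℝ) ≤ ε * (E1 H E C).card := by positivity
      nlinarith
    · refine le_trans (card_le_card ?_) (hcol e (mem_sdiff.1 he).1)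
      intro c hc
      exact mem_eqs.2 ⟨(mem_sdiff.1 (mem_eqs.1 hc).1).1, (mem_eqs.1 hc).2⟩
    · refine le_trans ?_ hC
      exact_mod_cast card_le_card (sdiff_subset (s := C) (t := C1 H E C))

end Pool.Agent.W946.Sz
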