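import Pool.Agent.H634R2.Clique
import Pool.Agent.NPC.Dec
import Pool.Agent.H671R2.PolyAuto

/-!
# Checking that lists describe graphs
-/

set_option autoImplicit false

namespace Pool.Agent.W946

open Pool.Agent.NPC Pool.Agent.NPC.H634R2

theorem nodup_map_iff {α γ : Type} (f : α → γ) (l : List α) :
    (l.map f).Nodup ↔ ∀ p ∈ l.zipIdx, ∀ q ∈ l.zipIdx, p.2 = q.2 ∨ f p.1 ≠ f q.1 := by
  constructor
  · intro h p hp q hq
    by_contra hcon
    push Not at hcon
    obtain ⟨p1, p2⟩ := p
    obtain ⟨q1, q2⟩ := q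
    rw [List.mem_zipIdx_iff_getElem?] at hp hq
    simp only at hp hq hcon
    obtain ⟨hp1, hp2⟩ := List.getElem?_eq_some_iff.1 hp
    obtain ⟨hq1, hq2⟩ := List.getElem?_eq_some_iff.1 hq
    have := (List.Nodup.getElem_inj_iff h (i := p2) (j := q2) (hi := by simpa using hp1)
      (hj := by simpa using hq1)).1 (by simp [hp2, hq2, hcon.2])
    exact hcon.1 this
  · intro h
    rw [List.nodup_iff_injective_getElem]
    intro i j hij
    by_contra hne
    have hi : i.1 < l.length := by simpa using i.2
    have hj : j.1 < l.length := by simpa using j.2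
    have h1 := h (l[i.1], i.1) (by rw [List.mem_zipIdx_iff_getElem?]; simp)
      (l[j.1], j.1) (by rw [List.mem_zipIdx_iff_getElem?]; simp)
    simp only at h1
    rcases h1 with h1 | h1
    · exact hne (Fin.ext h1)
    · apply h1
      simpa using hij

/-- test for `IsGraph` -/
def chkGraph (V : List ℕ) (E : List (ℕ × ℕ)) : Bool :=
  (V.zipIdx.all fun p => V.zipIdx.all fun q => decide (p.2 = q.2) || !decide (p.1 = q.1)) &&
  ((E.all fun e => decide (e.1 ∈ V) && (decide (e.2 ∈ V) && !decide (e.1 = e.2))) &&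
  (E.zipIdx.all fun p => E.zipIdx.all fun q => decide (p.2 = q.2) ||
    !(decide (p.1 = q.1) || decide (p.1 = (q.1.2, q.1.1)))))

theorem chkGraph_iff (V : List ℕ) (E : List (ℕ × ℕ)) : chkGraph V E = true ↔ IsGraph V E := by
  unfold chkGraph IsGraph
  have h1 : V.Nodup ↔ (V.map id).Nodup := by rw [List.map_id]
  rw [h1, nodup_map_iff, nodup_map_iff]
  simp only [Bool.and_eq_true, List.all_eq_true, Bool.or_eq_true, decide_eq_true_eq,
    Bool.not_eq_true', decide_eq_false_iff_not, id, ne_eq, Bool.or_eq_false_iff, Sym2.eq_iff]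
  refine and_congr Iff.rfl (and_congr Iff.rfl ?_)
  refine forall₂_congr fun p _ => forall₂_congr fun q _ => or_congr Iff.rfl ?_
  rw [← not_or]
  refine not_congr (or_congr ?_ ?_)
  · exact Prod.ext_iff
  · exact Prod.ext_iff

theorem chkGraph_poly {α : Type} [TEnc α] {f : α → List ℕ} {g : α → List (ℕ × ℕ)} (hf : Poly f)
    (hg : Poly g) : Poly (fun a => chkGraph (f a) (g a)) := by
  unfold chkGraph
  fun_prop

/-- the number of edges in the list `E` with exactly one end in `X` -/
def cutSize (E : List (ℕ × ℕ)) (X : Finset ℕ) : ℕ :=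
  E.countP (fun e => decide (e.1 ∈ X) != decide (e.2 ∈ X))

theorem cutSize_append (E E' : List (ℕ × ℕ)) (X : Finset ℕ) :
    cutSize (E ++ E') X = cutSize E X + cutSize E' X := by
  simp [cutSize, List.countP_append]

end Pool.Agent.W946
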