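import Pool.Agent.W946.RBST

/-!
# The red-blue cut problem in directed graphs
-/

set_option autoImplicit false

namespace Pool.Agent.W946

open Pool.Agent.NPC Pool.Agent.NPC.H634R2

/-- `V` lists the vertices and `A` the arcs of a finite simple digraph: vertices are listed once,
arcs join two distinct vertices, no arc is listed twice (two opposite arcs are allowed). -/
def IsDigraph (V : List ℕ) (A : List (ℕ × ℕ)) : Prop :=
  V.Nodup ∧ (∀ a ∈ A, a.1 ∈ V ∧ a.2 ∈ V ∧ a.1 ≠ a.2) ∧ A.Nodup

/-- the number of the arcs in the list `A` that leave `X` -/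
def outSize (A : List (ℕ × ℕ)) (X : Finset ℕ) : ℕ :=
  A.countP (fun a => decide (a.1 ∈ X) && !decide (a.2 ∈ X))

/-- An instance: the list of the vertices, the list of the red arcs and the list of the blue arcs
of a digraph, and two numbers `r`, `b`. -/
abbrev DicutInstance : Type := (List ℕ × (List (ℕ × ℕ) × List (ℕ × ℕ))) × (ℕ × ℕ)

/-- The red-blue cut problem for digraphs: the lists `V` and `R ++ B` describe a finite simple
digraph, and there is a nonempty proper subset `X` of the set of the vertices such that at most `r`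
red and at most `b` blue arcs leave `X`. -/
def RedBlueDicut (I : DicutInstance) : Prop :=
  let V := I.1.1
  let R := I.1.2.1
  let B := I.1.2.2
  let r := I.2.1
  let b := I.2.2
  IsDigraph V (R ++ B) ∧ ∃ X : Finset ℕ, X.Nonempty ∧ (∀ v ∈ X, v ∈ V) ∧ (∃ v ∈ V, v ∉ X) ∧
    outSize R X ≤ r ∧ outSize B X ≤ b

/-! ### Membership in NP -/

/-- test for `IsDigraph` -/
def chkDi (V : List ℕ) (A : List (ℕ × ℕ)) : Bool :=
  (V.zipIdx.all fun p => V.zipIdx.all fun q => decide (p.2 = q.2) || !decide (p.1 = q.1)) &&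
  ((A.all fun e => decide (e.1 ∈ V) && (decide (e.2 ∈ V) && !decide (e.1 = e.2))) &&
  (A.zipIdx.all fun p => A.zipIdx.all fun q => decide (p.2 = q.2) || !decide (p.1 = q.1)))

theorem chkDi_iff (V : List ℕ) (A : List (ℕ × ℕ)) : chkDi V A = true ↔ IsDigraph V A := by
  unfold chkDi IsDigraph
  have h1 : V.Nodup ↔ (V.map id).Nodup := by rw [List.map_id]
  have h2 : A.Nodup ↔ (A.map id).Nodup := by rw [List.map_id]
  rw [h1, h2, nodup_map_iff, nodup_map_iff]
  simp only [Bool.and_eq_true, List.all_eq_true, Bool.or_eq_true, decide_eq_true_eq,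
    Bool.not_eq_true', decide_eq_false_iff_not, id, ne_eq]

theorem chkDi_poly {α : Type} [TEnc α] {f : α → List ℕ} {g : α → List (ℕ × ℕ)} (hf : Poly f)
    (hg : Poly g) : Poly (fun a => chkDi (f a) (g a)) := by
  unfold chkDi
  fun_prop

/-- the verifier -/
def chkDicut (p : DicutInstance × List ℕ) : Bool :=
  chkDi p.1.1.1 (p.1.1.2.1 ++ p.1.1.2.2) &&
  ((!p.2.isEmpty) && ((p.2.all fun v => decide (v ∈ p.1.1.1)) &&
  ((p.1.1.1.any fun v => !decide (v ∈ p.2)) &&
  (decide ((p.1.1.2.1.filter fun e => decide (e.1 ∈ p.2) && !decide (e.2 ∈ p.2)).length ≤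
    p.1.2.1) &&
  decide ((p.1.1.2.2.filter fun e => decide (e.1 ∈ p.2) && !decide (e.2 ∈ p.2)).length ≤
    p.1.2.2)))))

theorem chkDicut_poly : Poly chkDicut := by
  unfold chkDicut
  refine Poly.and (chkDi_poly (by fun_prop) (by fun_prop)) ?_
  fun_prop

theorem outSize_eq (E : List (ℕ × ℕ)) (w : List ℕ) :
    (E.filter fun e => decide (e.1 ∈ w) && !decide (e.2 ∈ w)).length =
      outSize E w.toFinset := by
  unfold outSize
  rw [List.countP_eq_length_filter]
  congr 2
  funext e
  simp only [List.mem_toFinset]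

theorem chkDicut_iff (I : DicutInstance) (w : List ℕ) : chkDicut (I, w) = true ↔
    IsDigraph I.1.1 (I.1.2.1 ++ I.1.2.2) ∧ w.toFinset.Nonempty ∧
    (∀ v ∈ w.toFinset, v ∈ I.1.1) ∧ (∃ v ∈ I.1.1, v ∉ w.toFinset) ∧
    outSize I.1.2.1 w.toFinset ≤ I.2.1 ∧ outSize I.1.2.2 w.toFinset ≤ I.2.2 := by
  unfold chkDicut
  simp only [outSize_eq, Bool.and_eq_true, chkDi_iff, decide_eq_true_eq, Bool.not_eq_true',
    decide_eq_false_iff_not, List.all_eq_true, List.mem_toFinset, List.any_eq_true]
  refine and_congr Iff.rfl (and_congr ?_ Iff.rfl)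
  cases w with
  | nil => simp
  | cons a l => simp

theorem inNPP_redBlueDicut : InNPP RedBlueDicut := by
  refine inNPP_of (β := List ℕ) chkDicut_poly Polynomial.X ?_
  intro I
  constructor
  · rintro ⟨h1, X, h2, h3, h4, h5, h6⟩
    have e : (I.1.1.filter fun v => decide (v ∈ X)).toFinset = X := by
      ext v
      simp only [List.mem_toFinset, List.mem_filter, decide_eq_true_eq]
      exact ⟨fun h => h.2, fun h => ⟨h3 v h, h⟩⟩
    refine ⟨I.1.1.filter fun v => decide (v ∈ X), ?_, ?_⟩
    · rw [Polynomial.eval_X]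
      refine (sz_filter_le _ _).trans ?_
      obtain ⟨⟨V, RB⟩, q⟩ := I
      simp only [sz_pair]
      omega
    · rw [chkDicut_iff, e]
      exact ⟨h1, h2, h3, h4, h5, h6⟩
  · rintro ⟨w, _, hw⟩
    rw [chkDicut_iff] at hw
    obtain ⟨h1, h2, h3, h4, h5, h6⟩ := hw
    exact ⟨h1, w.toFinset, h2, h3, h4, h5, h6⟩

/-! ### The reduction from the clique problem -/

/-- `0, …, N - 1`, where `N = 2 m + 6` -/
def rE (E : List (ℕ × ℕ)) : List ℕ := List.range (2 * E.length + 6)

@[fun_prop]
theorem poly_rE {α : Type} [TEnc α] {f : α → List (ℕ × ℕ)} (hf : Poly f) :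
    Poly (fun a => rE (f a)) := by
  have h : Poly (fun a => List.range ((f a ++ (f a ++ [((0 : ℕ), (0 : ℕ)), (0, 0), (0, 0), (0, 0),
      (0, 0), (0, 0)])).length)) :=
    Poly.range_length (by fun_prop)
  refine h.congr fun a => ?_
  unfold rE
  congr 1
  simp only [List.length_append, List.length_cons, List.length_nil]
  omega

/-- the vertices other than those in the two large cliques -/
def diY (V : List ℕ) (E : List (ℕ × ℕ)) : List ℕ :=
  V.map (fun v => 4 * v) ++ E.zipIdx.map (fun p => 4 * p.2 + 1)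

/-- vertices -/
def diV (V : List ℕ) (E : List (ℕ × ℕ)) : List ℕ :=
  diY V E ++ ((rE E).map (fun j => 4 * j + 2) ++ (rE E).map (fun j => 4 * j + 3))

/-- all arcs between the vertices `4 j + c`, `j < N` -/
def diClique (l : List ℕ) (c : ℕ) : List (ℕ × ℕ) :=
  l.flatMap (fun i => (l.filter (fun j => !decide (i = j))).map (fun j => (4 * i + c, 4 * j + c)))

/-- red arcs -/
def diR (V : List ℕ) (E : List (ℕ × ℕ)) : List (ℕ × ℕ) :=
  V.map (fun v => (2, 4 * v)) ++ (diClique (rE E) 2 ++ (diClique (rE E) 3 ++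
    ((diY V E).flatMap (fun y => (rE E).map (fun j => (y, 4 * j + 2))) ++
    (diY V E).flatMap (fun y => (rE E).map (fun j => (4 * j + 3, y))))))

/-- the blue arcs for the edge `e` with number `i` -/
def diBlueOf (e : ℕ × ℕ) (i : ℕ) : List (ℕ × ℕ) :=
  [(4 * e.1, 4 * i + 1), (4 * e.2, 4 * i + 1), (4 * i + 1, 3)]

/-- blue arcs -/
def diB (E : List (ℕ × ℕ)) : List (ℕ × ℕ) := E.zipIdx.flatMap (fun p => diBlueOf p.1 p.2)

/-- the reduction -/
def diRed (J : (List ℕ × List (ℕ × ℕ)) × ℕ) : DicutInstance :=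
  if J.2 * (J.2 - 1) ≤ 2 * J.1.2.length then
    ((diV J.1.1 J.1.2, (diR J.1.1 J.1.2, diB J.1.2)),
      (J.2, J.1.2.length - J.2 * (J.2 - 1) / 2))
  else (([], ([], [])), (0, 0))

theorem diRed_poly : Poly diRed := by
  unfold diRed diV diR diB diBlueOf diClique diY
  refine Poly.ite ?_ ?_ ?_
  all_goals fun_prop

/-! ### The digraph is simple -/

theorem mem_rE {E : List (ℕ × ℕ)} {j : ℕ} : j ∈ rE E ↔ j < 2 * E.length + 6 := by
  simp [rE]

theorem nodup_rE (E : List (ℕ × ℕ)) : (rE E).Nodup := List.nodup_range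

theorem mem_diY {V : List ℕ} {E : List (ℕ × ℕ)} {y : ℕ} : y ∈ diY V E ↔
    (∃ v ∈ V, 4 * v = y) ∨ ∃ p ∈ E.zipIdx, 4 * p.2 + 1 = y := by
  simp only [diY, List.mem_append, List.mem_map]

theorem mem_diV {V : List ℕ} {E : List (ℕ × ℕ)} {y : ℕ} : y ∈ diV V E ↔
    y ∈ diY V E ∨ (∃ j ∈ rE E, 4 * j + 2 = y) ∨ ∃ j ∈ rE E, 4 * j + 3 = y := by
  simp only [diV, List.mem_append, List.mem_map]

theorem mod_diY {V : List ℕ} {E : List (ℕ × ℕ)} {y : ℕ} (h : y ∈ diY V E) : y % 4 ≤ 1 := by
  rw [mem_diY] at h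
  rcases h with ⟨v, _, rfl⟩ | ⟨p, _, rfl⟩ <;> omega

theorem nodup_diY {V : List ℕ} {E : List (ℕ × ℕ)} (hV : V.Nodup) : (diY V E).Nodup := by
  unfold diY
  rw [List.nodup_append]
  refine ⟨hV.map (fun a b h => by simpa using h), ?_, ?_⟩
  · have h1 : (E.zipIdx.map Prod.snd).Nodup := by
      rw [List.zipIdx_map_snd]
      exact List.nodup_range'
    have := h1.map (f := fun i => 4 * i + 1) (fun a b h => by simpa using h)
    rwa [List.map_map] at this
  · intro a ha b hb
    simp only [List.mem_map] at ha hb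
    obtain ⟨v, _, rfl⟩ := ha
    obtain ⟨p, _, rfl⟩ := hb
    omega

theorem mem_diClique {l : List ℕ} {c : ℕ} {e : ℕ × ℕ} : e ∈ diClique l c ↔
    ∃ i ∈ l, ∃ j ∈ l, i ≠ j ∧ e = (4 * i + c, 4 * j + c) := by
  unfold diClique
  simp only [List.mem_flatMap, List.mem_map, List.mem_filter, Bool.not_eq_true',
    decide_eq_false_iff_not]
  constructor
  · rintro ⟨i, hi, j, ⟨hj, hij⟩, rfl⟩
    exact ⟨i, hi, j, hj, hij, rfl⟩
  · rintro ⟨i, hi, j, hj, hij, rfl⟩
    exact ⟨i, hi, j, ⟨hj, hij⟩, rfl⟩

theorem nodup_diClique {l : List ℕ} (hl : l.Nodup) (c : ℕ) : (diClique l c).Nodup := by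
  unfold diClique
  rw [List.nodup_flatMap]
  refine ⟨fun i _ => (hl.filter _).map (fun a b h => by simpa using h), ?_⟩
  rw [List.nodup_iff_pairwise_ne] at hl
  refine hl.imp ?_
  intro a b hab
  simp only [Function.onFun, List.disjoint_left, List.mem_map, not_exists, not_and]
  rintro _ ⟨x, _, rfl⟩ y _ h
  simp only [Prod.mk.injEq] at h
  omega

theorem nodup_flatMap_prod {l l' : List ℕ} (hl : l.Nodup) (hl' : l'.Nodup)
    (F : ℕ → ℕ → ℕ × ℕ) (hF : ∀ a a' b b', F a b = F a' b' → a = a' ∧ b = b') :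
    (l.flatMap (fun a => l'.map (fun b => F a b))).Nodup := by
  rw [List.nodup_flatMap]
  refine ⟨fun i _ => hl'.map (fun a b h => (hF _ _ _ _ h).2), ?_⟩
  rw [List.nodup_iff_pairwise_ne] at hl
  refine hl.imp ?_
  intro a b hab
  simp only [Function.onFun, List.disjoint_left, List.mem_map, not_exists, not_and]
  rintro _ ⟨x, _, rfl⟩ y _ h
  exact hab (hF _ _ _ _ h).1.symm

theorem nodup_diB {E : List (ℕ × ℕ)} (hE : ∀ e ∈ E, e.1 ≠ e.2) : (diB E).Nodup := by
  unfold diB
  rw [List.nodup_flatMap]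
  have h1 : (E.zipIdx.map Prod.snd).Nodup := by
    rw [List.zipIdx_map_snd]
    exact List.nodup_range'
  rw [List.nodup_iff_pairwise_ne, List.pairwise_map] at h1
  refine ⟨?_, h1.imp ?_⟩
  · intro p hp
    have := hE p.1 (List.fst_mem_of_mem_zipIdx hp)
    simp only [diBlueOf, List.nodup_cons, List.mem_cons, List.not_mem_nil, or_false,
      Prod.mk.injEq, not_or, not_false_eq_true, List.nodup_nil, and_true]
    omega
  · rintro ⟨p1, p2⟩ ⟨q1, q2⟩ hne
    simp only [Function.onFun, List.disjoint_left, diBlueOf, List.mem_cons, List.not_mem_nil,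
      or_false] at hne ⊢
    rintro _ (rfl | rfl | rfl) h <;> simp only [Prod.mk.injEq] at h <;> omega

theorem mod_diR {V : List ℕ} {E : List (ℕ × ℕ)} {e : ℕ × ℕ} (h : e ∈ diR V E) :
    e ∈ V.map (fun v => (2, 4 * v)) ∨ (e.1 % 4 = 2 ∧ e.2 % 4 = 2) ∨ (e.1 % 4 = 3 ∧ e.2 % 4 = 3) ∨
    (e.1 % 4 ≤ 1 ∧ e.2 % 4 = 2) ∨ (e.1 % 4 = 3 ∧ e.2 % 4 ≤ 1) := by
  unfold diR at h
  simp only [List.mem_append, mem_diClique, List.mem_flatMap] at h
  rcases h with h | h | h | h | h
  · exact Or.inl h
  · obtain ⟨i, _, j, _, _, rfl⟩ := h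
    simp only; omega
  · obtain ⟨i, _, j, _, _, rfl⟩ := h
    simp only; omega
  · obtain ⟨y, hy, h⟩ := h
    have := mod_diY hy
    rw [List.mem_map] at h
    obtain ⟨j, _, rfl⟩ := h
    simp only; omega
  · obtain ⟨y, hy, h⟩ := h
    have := mod_diY hy
    rw [List.mem_map] at h
    obtain ⟨j, _, rfl⟩ := h
    simp only; omega

theorem isDigraph_red {V : List ℕ} {E : List (ℕ × ℕ)} (h : IsGraph V E) :
    IsDigraph (diV V E) (diR V E ++ diB E) := by
  obtain ⟨hV, hE, hN⟩ := h
  have hY := nodup_diY (E := E) hV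
  have hr := nodup_rE E
  refine ⟨?_, ?_, ?_⟩
  · unfold diV
    rw [List.nodup_append, List.nodup_append]
    refine ⟨hY, ⟨hr.map (fun a b h => by simpa using h), hr.map (fun a b h => by simpa using h),
      ?_⟩, ?_⟩
    · intro a ha b hb
      simp only [List.mem_map] at ha hb
      obtain ⟨v, _, rfl⟩ := ha
      obtain ⟨p, _, rfl⟩ := hb
      omega
    · intro a ha b hb
      have := mod_diY ha
      simp only [List.mem_append, List.mem_map] at hb
      rcases hb with ⟨j, _, rfl⟩ | ⟨j, _, rfl⟩ <;> omega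
  · intro e he
    have m0 : 0 ∈ rE E := by rw [mem_rE]; omega
    have mS : ∀ j ∈ rE E, 4 * j + 2 ∈ diV V E := fun j hj => mem_diV.2 (Or.inr (Or.inl ⟨j, hj, rfl⟩))
    have mT : ∀ j ∈ rE E, 4 * j + 3 ∈ diV V E := fun j hj => mem_diV.2 (Or.inr (Or.inr ⟨j, hj, rfl⟩))
    have mV : ∀ v ∈ V, 4 * v ∈ diV V E := fun v hv => mem_diV.2 (Or.inl (mem_diY.2
      (Or.inl ⟨v, hv, rfl⟩)))
    rw [List.mem_append] at he
    rcases he with he | he
    · unfold diR at he
      simp only [List.mem_append, mem_diClique, List.mem_flatMap, List.mem_map] at he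
      rcases he with ⟨v, hv, rfl⟩ | ⟨i, hi, j, hj, hij, rfl⟩ | ⟨i, hi, j, hj, hij, rfl⟩ |
        ⟨y, hy, j, hj, rfl⟩ | ⟨y, hy, j, hj, rfl⟩
      · exact ⟨mS 0 m0, mV v hv, by simp only; omega⟩
      · exact ⟨mS i hi, mS j hj, by simp only; omega⟩
      · exact ⟨mT i hi, mT j hj, by simp only; omega⟩
      · have := mod_diY hy
        exact ⟨mem_diV.2 (Or.inl hy), mS j hj, by simp only; omega⟩
      · have := mod_diY hy
        exact ⟨mT j hj, mem_diV.2 (Or.inl hy), by simp only; omega⟩
    · unfold diB diBlueOf at he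
      simp only [List.mem_flatMap, List.mem_cons, List.not_mem_nil, or_false] at he
      obtain ⟨p, hp, he⟩ := he
      obtain ⟨g1, g2, g3⟩ := hE p.1 (List.fst_mem_of_mem_zipIdx hp)
      have mE : 4 * p.2 + 1 ∈ diV V E := mem_diV.2 (Or.inl (mem_diY.2 (Or.inr ⟨p, hp, rfl⟩)))
      rcases he with rfl | rfl | rfl
      · exact ⟨mV _ g1, mE, by simp only; omega⟩
      · exact ⟨mV _ g2, mE, by simp only; omega⟩
      · exact ⟨mE, mT 0 m0, by simp only; omega⟩
  · rw [List.nodup_append]
    refine ⟨?_, nodup_diB (fun e he => (hE e he).2.2), ?_⟩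
    · unfold diR
      rw [List.nodup_append]
      refine ⟨hV.map (fun a b h => by simpa using h), ?_, ?_⟩
      · rw [List.nodup_append]
        refine ⟨nodup_diClique hr 2, ?_, ?_⟩
        · rw [List.nodup_append]
          refine ⟨nodup_diClique hr 3, ?_, ?_⟩
          · rw [List.nodup_append]
            refine ⟨nodup_flatMap_prod hY hr _ ?_, nodup_flatMap_prod hY hr _ ?_, ?_⟩
            · intro a a' b b' h
              simp only [Prod.mk.injEq] at h
              omega
            · intro a a' b b' h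
              simp only [Prod.mk.injEq] at h
              omega
            · intro a ha b hb
              simp only [List.mem_flatMap, List.mem_map] at ha hb
              obtain ⟨y, hy, j, _, rfl⟩ := ha
              obtain ⟨y', hy', j', _, rfl⟩ := hb
              have := mod_diY hy
              simp only [ne_eq, Prod.mk.injEq]
              omega
          · intro a ha b hb
            rw [mem_diClique] at ha
            obtain ⟨i, _, j, _, _, rfl⟩ := ha
            simp only [List.mem_append, List.mem_flatMap, List.mem_map] at hb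
            rcases hb with ⟨y, hy, j', _, rfl⟩ | ⟨y, hy, j', _, rfl⟩ <;>
              have := mod_diY hy <;> simp only [ne_eq, Prod.mk.injEq] <;> omega
        · intro a ha b hb
          rw [mem_diClique] at ha
          obtain ⟨i, _, j, _, _, rfl⟩ := ha
          simp only [List.mem_append, mem_diClique, List.mem_flatMap, List.mem_map] at hb
          rcases hb with ⟨i', _, j', _, _, rfl⟩ | ⟨y, hy, j', _, rfl⟩ | ⟨y, hy, j', _, rfl⟩
          · simp only [ne_eq, Prod.mk.injEq]; omega
          · have := mod_diY hy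
            simp only [ne_eq, Prod.mk.injEq]; omega
          · have := mod_diY hy
            simp only [ne_eq, Prod.mk.injEq]; omega
      · intro a ha b hb
        rw [List.mem_map] at ha
        obtain ⟨v, _, rfl⟩ := ha
        simp only [List.mem_append, mem_diClique, List.mem_flatMap, List.mem_map] at hb
        rcases hb with ⟨i', _, j', _, _, rfl⟩ | ⟨i', _, j', _, _, rfl⟩ | ⟨y, hy, j', _, rfl⟩ |
          ⟨y, hy, j', _, rfl⟩
        · simp only [ne_eq, Prod.mk.injEq]; omega
        · simp only [ne_eq, Prod.mk.injEq]; omega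
        · have := mod_diY hy
          simp only [ne_eq, Prod.mk.injEq]; omega
        · have := mod_diY hy
          simp only [ne_eq, Prod.mk.injEq]; omega
    · intro a ha b hb hab
      subst hab
      have h1 := mod_diR ha
      simp only [diB, diBlueOf, List.mem_flatMap, List.mem_cons, List.not_mem_nil, or_false] at hb
      rw [List.mem_map] at h1
      obtain ⟨p, _, hb⟩ := hb
      rcases h1 with ⟨v, _, rfl⟩ | h1
      · rcases hb with hb | hb | hb <;> simp only [Prod.mk.injEq] at hb <;> omega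
      · rcases hb with rfl | rfl | rfl <;> simp only at h1 <;> omega

/-! ### Correctness -/

theorem le_outSize {A : List (ℕ × ℕ)} {X : Finset ℕ} (s : Finset ℕ) (f : ℕ → ℕ × ℕ)
    (hf : ∀ a ∈ s, f a ∈ A ∧ (f a).1 ∈ X ∧ (f a).2 ∉ X) (hinj : Set.InjOn f s) :
    s.card ≤ outSize A X := by
  unfold outSize
  rw [List.countP_eq_length_filter, ← Finset.card_image_of_injOn hinj]
  refine (Finset.card_le_card ?_).trans (List.toFinset_card_le _)
  intro e he
  rw [Finset.mem_image] at he
  obtain ⟨a, ha, rfl⟩ := he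
  obtain ⟨h1, h2, h3⟩ := hf a ha
  simp only [List.mem_toFinset, List.mem_filter, Bool.and_eq_true, decide_eq_true_eq,
    Bool.not_eq_true', decide_eq_false_iff_not]
  exact ⟨h1, h2, h3⟩

theorem outSize_clique {l : List ℕ} (hl : l.Nodup) {c : ℕ} {X : Finset ℕ} {i j : ℕ} (hi : i ∈ l)
    (hj : j ∈ l) (hiX : 4 * i + c ∈ X) (hjX : 4 * j + c ∉ X) :
    l.length ≤ 2 * outSize (diClique l c) X := by
  have h1 : (l.toFinset.filter (fun a => 4 * a + c ∈ X)).card ≤ outSize (diClique l c) X := by
    refine le_outSize _ (fun a => (4 * a + c, 4 * j + c)) ?_ ?_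
    · intro a ha
      simp only [Finset.mem_filter, List.mem_toFinset] at ha
      refine ⟨mem_diClique.2 ⟨a, ha.1, j, hj, ?_, rfl⟩, ha.2, hjX⟩
      rintro rfl
      exact hjX ha.2
    · intro a _ b _ hab
      simpa using hab
  have h2 : (l.toFinset.filter (fun a => ¬ 4 * a + c ∈ X)).card ≤ outSize (diClique l c) X := by
    refine le_outSize _ (fun a => (4 * i + c, 4 * a + c)) ?_ ?_
    · intro a ha
      simp only [Finset.mem_filter, List.mem_toFinset] at ha
      refine ⟨mem_diClique.2 ⟨i, hi, a, ha.1, ?_, rfl⟩, hiX, ha.2⟩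
      rintro rfl
      exact ha.2 hiX
    · intro a _ b _ hab
      simpa using hab
  have h3 := Finset.card_filter_add_card_filter_not (s := l.toFinset) (fun a => 4 * a + c ∈ X)
  rw [List.toFinset_card_of_nodup hl] at h3
  omega

theorem outSize_append (E E' : List (ℕ × ℕ)) (X : Finset ℕ) :
    outSize (E ++ E') X = outSize E X + outSize E' X := by
  simp [outSize, List.countP_append]

theorem outSize_s {V : List ℕ} (hV : V.Nodup) {X : Finset ℕ} (h0 : 2 ∈ X) :
    outSize (V.map (fun v => (2, 4 * v))) X = (V.toFinset.filter (fun v => 4 * v ∉ X)).card := by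
  unfold outSize
  rw [List.countP_map, List.countP_eq_length_filter, ← List.toFinset_card_of_nodup (hV.filter _)]
  congr 1
  ext v
  simp [h0]

theorem outSize_diB (E : List (ℕ × ℕ)) (X : Finset ℕ) :
    outSize (diB E) X = (E.zipIdx.map (fun p => outSize (diBlueOf p.1 p.2) X)).sum := by
  unfold diB
  rw [outSize, List.countP_flatMap]
  rfl

theorem diRed_correct {V : List ℕ} {E : List (ℕ × ℕ)} (h : IsGraph V E) {k : ℕ} (hk : 2 ≤ k) :
    HasClique V E k ↔ RedBlueDicut (diRed ((V, E), k)) := by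
  rw [hasClique_iff h hk]
  have h2 := two_choose k
  have h2' : k * (k - 1) / 2 = k.choose 2 := (Nat.choose_two_right k).symm
  have hV := h.1
  have hle : ∀ U : Finset ℕ, inside E U ≤ E.length := fun U => List.countP_le_length
  unfold diRed
  simp only
  have huniq : ∀ p ∈ E.zipIdx, ∀ q ∈ E.zipIdx, p.2 = q.2 → p = q := by
    rintro ⟨p1, p2⟩ hp ⟨q1, q2⟩ hq hpq
    rw [List.mem_zipIdx_iff_getElem?] at hp hq
    simp only at hp hq hpq
    subst hpq
    rw [hp] at hq
    rw [Option.some.inj hq]
  have m0 : 0 ∈ rE E := by rw [mem_rE]; omega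
  split_ifs with hc
  · have hkE : k ≤ E.length + 1 := by
      have h3 : 2 * (k - 1) ≤ k * (k - 1) := Nat.mul_le_mul_right _ hk
      omega
    rw [h2']
    constructor
    · rintro ⟨U, hU, hUk, hin⟩
      refine ⟨isDigraph_red h, ?_⟩
      simp only
      let X : Finset ℕ := ((diV V E).toFinset).filter (fun x =>
        (∃ j ∈ rE E, x = 4 * j + 2) ∨ (∃ v ∈ V, v ∉ U ∧ x = 4 * v) ∨
        (∃ p ∈ E.zipIdx, ¬ (p.1.1 ∈ U ∧ p.1.2 ∈ U) ∧ x = 4 * p.2 + 1))
      have hXS : ∀ j ∈ rE E, 4 * j + 2 ∈ X := by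
        intro j hj
        simp only [X, Finset.mem_filter, List.mem_toFinset]
        exact ⟨mem_diV.2 (Or.inr (Or.inl ⟨j, hj, rfl⟩)), Or.inl ⟨j, hj, rfl⟩⟩
      have hXT : ∀ j, 4 * j + 3 ∉ X := by
        intro j
        simp only [X, Finset.mem_filter, not_and]
        rintro _ (⟨i, _, e⟩ | ⟨i, _, _, e⟩ | ⟨i, _, _, e⟩) <;> omega
      have hXv : ∀ v ∈ V, (4 * v ∈ X ↔ v ∉ U) := by
        intro v hv
        simp only [X, Finset.mem_filter, List.mem_toFinset]
        constructor
        · rintro ⟨_, ⟨i, _, e⟩ | ⟨w, _, hw, e⟩ | ⟨p, _, _, e⟩⟩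
          · omega
          · have : v = w := by omega
            rw [this]; exact hw
          · omega
        · intro hvU
          exact ⟨mem_diV.2 (Or.inl (mem_diY.2 (Or.inl ⟨v, hv, rfl⟩))),
            Or.inr (Or.inl ⟨v, hv, hvU, rfl⟩)⟩
      have hXa : ∀ p ∈ E.zipIdx, (4 * p.2 + 1 ∈ X ↔ ¬ (p.1.1 ∈ U ∧ p.1.2 ∈ U)) := by
        intro p hp
        simp only [X, Finset.mem_filter, List.mem_toFinset]
        constructor
        · rintro ⟨_, ⟨i, _, e⟩ | ⟨w, _, hw, e⟩ | ⟨q, hq, hqU, e⟩⟩
          · omega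
          · omega
          · have := huniq p hp q hq (by omega)
            rw [this]; exact hqU
        · intro hvU
          exact ⟨mem_diV.2 (Or.inl (mem_diY.2 (Or.inr ⟨p, hp, rfl⟩))),
            Or.inr (Or.inr ⟨p, hp, hvU, rfl⟩)⟩
      have hX0 : 2 ∈ X := hXS 0 m0
      refine ⟨X, ⟨2, hX0⟩, ?_, ⟨3, ?_, hXT 0⟩, ?_, ?_⟩
      · intro v hv
        simp only [X, Finset.mem_filter, List.mem_toFinset] at hv
        exact hv.1
      · exact mem_diV.2 (Or.inr (Or.inr ⟨0, m0, rfl⟩))
      · unfold diR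
        rw [outSize_append, outSize_s hV hX0]
        have hz : outSize (diClique (rE E) 2 ++ (diClique (rE E) 3 ++
            ((diY V E).flatMap (fun y => (rE E).map (fun j => (y, 4 * j + 2))) ++
            (diY V E).flatMap (fun y => (rE E).map (fun j => (4 * j + 3, y)))))) X = 0 := by
          unfold outSize
          rw [List.countP_eq_zero]
          intro e he
          simp only [List.mem_append, mem_diClique, List.mem_flatMap, List.mem_map] at he
          simp only [Bool.and_eq_true, decide_eq_true_eq, Bool.not_eq_true',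
            decide_eq_false_iff_not, not_and, not_not]
          rcases he with ⟨i, hi, j, hj, hij, rfl⟩ | ⟨i, hi, j, hj, hij, rfl⟩ |
            ⟨y, hy, j, hj, rfl⟩ | ⟨y, hy, j, hj, rfl⟩
          · exact fun _ => hXS j hj
          · exact fun hh => absurd hh (hXT i)
          · exact fun _ => hXS j hj
          · exact fun hh => absurd hh (hXT j)
        rw [hz, add_zero]
        refine (Finset.card_le_card ?_).trans hUk
        intro v hv
        simp only [Finset.mem_filter, List.mem_toFinset] at hv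
        by_contra hvU
        exact hv.2 ((hXv v hv.1).2 hvU)
      · rw [outSize_diB]
        have h3 := sum_zipIdx_le
          (fun e : ℕ × ℕ => if (decide (e.1 ∈ U) && decide (e.2 ∈ U)) then 0 else 1)
          (fun p => outSize (diBlueOf p.1 p.2) X) E (by
            intro p hp
            have hp1 : p.1 ∈ E := List.fst_mem_of_mem_zipIdx hp
            obtain ⟨g1, g2, g3⟩ := h.2.1 p.1 hp1
            have e1 := hXv p.1.1 g1
            have e2 := hXv p.1.2 g2
            have e3 := hXa p hp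
            have e4 := hXT 0
            simp only [mul_zero, zero_add] at e4
            simp only [outSize, diBlueOf, List.countP_cons, List.countP_nil, e1, e2, e3, e4]
            by_cases q1 : p.1.1 ∈ U <;> by_cases q2 : p.1.2 ∈ U <;> simp [q1, q2])
        have h4 := sum_countP E (fun e => decide (e.1 ∈ U) && decide (e.2 ∈ U))
        have h5 : E.countP (fun e => decide (e.1 ∈ U) && decide (e.2 ∈ U)) = inside E U := rfl
        omega
    · rintro ⟨_, X, hne, hX, ⟨z, hzV, hzX⟩, hr, hb⟩
      simp only at hX hzV hr hb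
      -- an edge vertex
      obtain ⟨y₀, hy₀⟩ : ∃ y, y ∈ diY V E := by
        have hpos : 0 < E.length := by
          rcases Nat.eq_zero_or_pos E.length with h0 | h0
          · rw [h0] at hkE; omega
          · exact h0
        refine ⟨4 * 0 + 1, mem_diY.2 (Or.inr ⟨(E[0], 0), ?_, rfl⟩)⟩
        rw [List.mem_zipIdx_iff_getElem?]
        simp
      have hlen : (rE E).length = 2 * E.length + 6 := by simp [rE]
      unfold diR at hr
      rw [outSize_append, outSize_append, outSize_append, outSize_append] at hr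
      -- the cliques are not separated
      have hS : ∀ i ∈ rE E, ∀ j ∈ rE E, 4 * i + 2 ∈ X → 4 * j + 2 ∈ X := by
        intro i hi j hj hiX
        by_contra hjX
        have := outSize_clique (nodup_rE E) hi hj hiX hjX
        omega
      have hT : ∀ i ∈ rE E, ∀ j ∈ rE E, 4 * i + 3 ∈ X → 4 * j + 3 ∈ X := by
        intro i hi j hj hiX
        by_contra hjX
        have := outSize_clique (nodup_rE E) hi hj hiX hjX
        omega
      have hYS : ∀ y ∈ diY V E, y ∈ X → 4 * 0 + 2 ∈ X := by
        intro y hy hyX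
        by_contra hn
        have hn' : ∀ j ∈ rE E, 4 * j + 2 ∉ X := fun j hj hjX => hn (hS j hj 0 m0 hjX)
        have := le_outSize (A := (diY V E).flatMap (fun y => (rE E).map (fun j => (y, 4 * j + 2))))
          (X := X) (rE E).toFinset (fun j => (y, 4 * j + 2)) (by
            intro j hj
            rw [List.mem_toFinset] at hj
            refine ⟨?_, hyX, hn' j hj⟩
            simp only [List.mem_flatMap, List.mem_map]
            exact ⟨y, hy, j, hj, rfl⟩) (fun a _ b _ hab => by simpa using hab)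
        rw [List.toFinset_card_of_nodup (nodup_rE E)] at this
        omega
      have hYT : ∀ y ∈ diY V E, 4 * 0 + 3 ∈ X → y ∈ X := by
        intro y hy hT0
        by_contra hyX
        have := le_outSize (A := (diY V E).flatMap (fun y => (rE E).map (fun j => (4 * j + 3, y))))
          (X := X) (rE E).toFinset (fun j => (4 * j + 3, y)) (by
            intro j hj
            rw [List.mem_toFinset] at hj
            refine ⟨?_, hT 0 m0 j hj hT0, hyX⟩
            simp only [List.mem_flatMap, List.mem_map]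
            exact ⟨y, hy, j, hj, rfl⟩) (fun a _ b _ hab => by simpa using hab)
        rw [List.toFinset_card_of_nodup (nodup_rE E)] at this
        omega
      have hX0 : 4 * 0 + 2 ∈ X := by
        obtain ⟨x, hx⟩ := hne
        rcases mem_diV.1 (hX x hx) with hy | ⟨j, hj, rfl⟩ | ⟨j, hj, rfl⟩
        · exact hYS x hy hx
        · exact hS j hj 0 m0 hx
        · exact hYS y₀ hy₀ (hYT y₀ hy₀ (hT j hj 0 m0 hx))
      have hX3 : 4 * 0 + 3 ∉ X := by
        intro hT0
        rcases mem_diV.1 hzV with hy | ⟨j, hj, rfl⟩ | ⟨j, hj, rfl⟩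
        · exact hzX (hYT z hy hT0)
        · exact hzX (hS 0 m0 j hj hX0)
        · exact hzX (hT 0 m0 j hj hT0)
      simp only [mul_zero, zero_add] at hX0 hX3
      let U : Finset ℕ := V.toFinset.filter (fun v => 4 * v ∉ X)
      have hUv : ∀ v ∈ V, (4 * v ∈ X ↔ v ∉ U) := by
        intro v hv
        simp only [U, Finset.mem_filter, List.mem_toFinset, not_and, not_not]
        exact ⟨fun h _ => h, fun h => h hv⟩
      rw [outSize_s hV hX0] at hr
      refine ⟨U, ?_, ?_, ?_⟩
      · intro v hv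
        simp only [U, Finset.mem_filter, List.mem_toFinset] at hv
        exact hv.1
      · have : U.card = (V.toFinset.filter (fun v => 4 * v ∉ X)).card := rfl
        omega
      · rw [outSize_diB] at hb
        have h3 := sum_zipIdx_ge
          (fun e : ℕ × ℕ => if (decide (e.1 ∈ U) && decide (e.2 ∈ U)) then 0 else 1)
          (fun p => outSize (diBlueOf p.1 p.2) X) E (by
            intro p hp
            have hp1 : p.1 ∈ E := List.fst_mem_of_mem_zipIdx hp
            obtain ⟨g1, g2, g3⟩ := h.2.1 p.1 hp1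
            have e1 := hUv p.1.1 g1
            have e2 := hUv p.1.2 g2
            simp only [outSize, diBlueOf, List.countP_cons, List.countP_nil, e1, e2, hX3]
            by_cases q1 : p.1.1 ∈ U <;> by_cases q2 : p.1.2 ∈ U <;>
              by_cases q3 : 4 * p.2 + 1 ∈ X <;> simp [q1, q2, q3])
        have h4 := sum_countP E (fun e => decide (e.1 ∈ U) && decide (e.2 ∈ U))
        have h5 : E.countP (fun e => decide (e.1 ∈ U) && decide (e.2 ∈ U)) = inside E U := rfl
        omega
  · constructor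
    · rintro ⟨U, _, _, hin⟩
      have := hle U
      omega
    · rintro ⟨_, X, _, _, ⟨z, hz, _⟩, _⟩
      simp at hz

theorem npHardP_redBlueDicut : NPHardP RedBlueDicut := by
  refine (hardPr_CLIQUE.trans (Pr' := fun _ => True) diRed_poly
    (fun _ _ => trivial) ?_).toHardI.toNPHardP
  rintro ⟨⟨V, E⟩, k⟩ ⟨hG, hk⟩
  rw [← diRed_correct hG hk]
  exact ⟨fun h => h.2, fun h => ⟨hG, h⟩⟩

end Pool.Agent.W946
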