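import Pool.Agent.W946.RBBase

/-!
# The unweighted red-blue `s`-`t` cut problem in undirected graphs
-/

set_option autoImplicit false

namespace Pool.Agent.W946

open Pool.Agent.NPC Pool.Agent.NPC.H634R2

/-- An instance: the list of the vertices, the list of the red edges and the list of the blue edges
of a graph, two vertices `s`, `t` and two numbers `r`, `b`. -/
abbrev CutInstance : Type :=
  (List ℕ × (List (ℕ × ℕ) × List (ℕ × ℕ))) × ((ℕ × ℕ) × (ℕ × ℕ))

/-- The unweighted red-blue `s`-`t` cut problem for undirected graphs: the lists `V` and `R ++ B`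
describe a finite simple graph, `s ≠ t` are vertices, and there is a set `X` of vertices with
`s ∈ X`, `t ∉ X`, such that at most `r` red and at most `b` blue edges have exactly one end in
`X`. -/
def RedBlueSTCut (I : CutInstance) : Prop :=
  let V := I.1.1
  let R := I.1.2.1
  let B := I.1.2.2
  let s := I.2.1.1
  let t := I.2.1.2
  let r := I.2.2.1
  let b := I.2.2.2
  IsGraph V (R ++ B) ∧ s ∈ V ∧ t ∈ V ∧ s ≠ t ∧
    ∃ X : Finset ℕ, (∀ v ∈ X, v ∈ V) ∧ s ∈ X ∧ t ∉ X ∧ cutSize R X ≤ r ∧ cutSize B X ≤ b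

/-! ### Membership in NP -/

/-- the verifier -/
def chkST (p : CutInstance × List ℕ) : Bool :=
  chkGraph p.1.1.1 (p.1.1.2.1 ++ p.1.1.2.2) &&
  (decide (p.1.2.1.1 ∈ p.1.1.1) && (decide (p.1.2.1.2 ∈ p.1.1.1) &&
  (!decide (p.1.2.1.1 = p.1.2.1.2) && ((p.2.all fun v => decide (v ∈ p.1.1.1)) &&
  (decide (p.1.2.1.1 ∈ p.2) && (!decide (p.1.2.1.2 ∈ p.2) &&
  (decide ((p.1.1.2.1.filter fun e => xor (decide (e.1 ∈ p.2)) (decide (e.2 ∈ p.2))).length ≤
    p.1.2.2.1) &&
  decide ((p.1.1.2.2.filter fun e => xor (decide (e.1 ∈ p.2)) (decide (e.2 ∈ p.2))).length ≤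
    p.1.2.2.2))))))))

theorem chkST_poly : Poly chkST := by
  unfold chkST
  refine Poly.and (chkGraph_poly (by fun_prop) (by fun_prop)) ?_
  fun_prop

theorem cutSize_eq (E : List (ℕ × ℕ)) (w : List ℕ) :
    (E.filter fun e => xor (decide (e.1 ∈ w)) (decide (e.2 ∈ w))).length =
      cutSize E w.toFinset := by
  unfold cutSize
  rw [List.countP_eq_length_filter]
  congr 2
  funext e
  simp only [List.mem_toFinset]

theorem chkST_iff (I : CutInstance) (w : List ℕ) : chkST (I, w) = true ↔
    IsGraph I.1.1 (I.1.2.1 ++ I.1.2.2) ∧ I.2.1.1 ∈ I.1.1 ∧ I.2.1.2 ∈ I.1.1 ∧ I.2.1.1 ≠ I.2.1.2 ∧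
    (∀ v ∈ w.toFinset, v ∈ I.1.1) ∧ I.2.1.1 ∈ w.toFinset ∧ I.2.1.2 ∉ w.toFinset ∧
    cutSize I.1.2.1 w.toFinset ≤ I.2.2.1 ∧ cutSize I.1.2.2 w.toFinset ≤ I.2.2.2 := by
  unfold chkST
  simp only [cutSize_eq, Bool.and_eq_true, chkGraph_iff, decide_eq_true_eq, Bool.not_eq_true',
    decide_eq_false_iff_not, List.all_eq_true, List.mem_toFinset, ne_eq]

theorem sz_filter_le {α : Type} [TEnc α] (l : List α) (p : α → Bool) :
    sz (l.filter p) ≤ sz l := by
  induction l with
  | nil => simp
  | cons a l ih =>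
    rw [List.filter_cons]
    split_ifs
    · simp only [sz_list_cons]; omega
    · simp only [sz_list_cons]; omega

theorem inNPP_redBlueSTCut : InNPP RedBlueSTCut := by
  refine inNPP_of (β := List ℕ) chkST_poly Polynomial.X ?_
  intro I
  constructor
  · rintro ⟨h1, h2, h3, h4, X, hX, h5, h6, h7, h8⟩
    have e : (I.1.1.filter fun v => decide (v ∈ X)).toFinset = X := by
      ext v
      simp only [List.mem_toFinset, List.mem_filter, decide_eq_true_eq]
      exact ⟨fun h => h.2, fun h => ⟨hX v h, h⟩⟩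
    refine ⟨I.1.1.filter fun v => decide (v ∈ X), ?_, ?_⟩
    · rw [Polynomial.eval_X]
      refine (sz_filter_le _ _).trans ?_
      obtain ⟨⟨V, RB⟩, q⟩ := I
      simp only [sz_pair]
      omega
    · rw [chkST_iff, e]
      exact ⟨h1, h2, h3, h4, hX, h5, h6, h7, h8⟩
  · rintro ⟨w, _, hw⟩
    rw [chkST_iff] at hw
    obtain ⟨h1, h2, h3, h4, hX, h5, h6, h7, h8⟩ := hw
    exact ⟨h1, h2, h3, h4, w.toFinset, hX, h5, h6, h7, h8⟩

/-! ### The reduction from the clique problem -/

/-- the blue edges for the edge `e` with number `i` -/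
def blueOf (e : ℕ × ℕ) (i : ℕ) : List (ℕ × ℕ) :=
  [(2 * e.1 + 2, 2 * e.2 + 2), (2 * e.1 + 2, 4 * i + 3), (4 * i + 3, 1), (2 * e.2 + 2, 4 * i + 5),
    (4 * i + 5, 1)]

/-- vertices -/
def redV (V : List ℕ) (E : List (ℕ × ℕ)) : List ℕ :=
  0 :: 1 :: (V.map (fun v => 2 * v + 2) ++
    E.zipIdx.flatMap (fun p => [4 * p.2 + 3, 4 * p.2 + 5]))

/-- red edges -/
def redR (V : List ℕ) : List (ℕ × ℕ) := V.map (fun v => (0, 2 * v + 2))

/-- blue edges -/
def redB (E : List (ℕ × ℕ)) : List (ℕ × ℕ) := E.zipIdx.flatMap (fun p => blueOf p.1 p.2)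

/-- the reduction -/
def red (J : (List ℕ × List (ℕ × ℕ)) × ℕ) : CutInstance :=
  if J.2 * (J.2 - 1) ≤ 2 * J.1.2.length then
    ((redV J.1.1 J.1.2, (redR J.1.1, redB J.1.2)),
      ((0, 1), (J.2, 2 * J.1.2.length - J.2 * (J.2 - 1))))
  else (([0, 1], ([(0, 1)], [])), ((0, 1), (0, 0)))

theorem red_poly : Poly red := by
  unfold red redV redR redB blueOf
  refine Poly.ite ?_ ?_ ?_
  all_goals fun_prop

theorem pairwise_zipIdx {α γ : Type} (f : α → γ) {l : List α} (h : (l.map f).Nodup) :
    l.zipIdx.Pairwise (fun p q => p.2 ≠ q.2 ∧ f p.1 ≠ f q.1) := by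
  have h1 : (l.zipIdx.map Prod.snd).Nodup := by
    rw [List.zipIdx_map_snd]
    exact List.nodup_range'
  have h2 : (l.zipIdx.map (fun p => f p.1)).Nodup := by
    have : l.zipIdx.map (fun p => f p.1) = l.map f := by
      conv_rhs => rw [← List.zipIdx_map_fst 0 l, List.map_map]
      rfl
    rw [this]; exact h
  rw [List.nodup_iff_pairwise_ne, List.pairwise_map] at h1 h2
  exact h1.and h2

theorem isGraph_red {V : List ℕ} {E : List (ℕ × ℕ)} (h : IsGraph V E) :
    IsGraph (redV V E) (redR V ++ redB E) := by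
  obtain ⟨hV, hE, hN⟩ := h
  have hpw := pairwise_zipIdx (fun e : ℕ × ℕ => s(e.1, e.2)) hN
  refine ⟨?_, ?_, ?_⟩
  · unfold redV
    rw [List.nodup_cons, List.nodup_cons, List.nodup_append]
    refine ⟨?_, ?_, ?_, ?_, ?_⟩
    · simp only [List.mem_cons, List.mem_append, List.mem_map, List.mem_flatMap, not_or]
      refine ⟨by omega, ?_, ?_⟩
      · rintro ⟨v, _, hv⟩; omega
      · rintro ⟨p, _, hp⟩
        simp at hp
    · simp only [List.mem_append, List.mem_map, List.mem_flatMap, not_or]
      refine ⟨?_, ?_⟩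
      · rintro ⟨v, _, hv⟩; omega
      · rintro ⟨p, _, hp⟩
        simp at hp
    · exact hV.map (fun a b hab => by simpa using hab)
    · rw [List.nodup_flatMap]
      refine ⟨fun p _ => by simp, hpw.imp ?_⟩
      rintro ⟨p1, p2⟩ ⟨q1, q2⟩ ⟨h1, -⟩
      simp only [List.disjoint_left, Function.onFun] at h1 ⊢
      intro x hx hy
      simp only [List.mem_cons, List.not_mem_nil, or_false] at hx hy
      omega
    · intro a ha b hb
      simp only [List.mem_map, List.mem_flatMap, List.mem_cons, List.not_mem_nil, or_false]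
        at ha hb
      obtain ⟨v, _, rfl⟩ := ha
      obtain ⟨p, _, hp⟩ := hb
      omega
  · intro e he
    rw [List.mem_append] at he
    rcases he with he | he
    · unfold redR at he
      rw [List.mem_map] at he
      obtain ⟨v, hv, rfl⟩ := he
      refine ⟨by simp [redV], ?_, by simp⟩
      simp only [redV, List.mem_cons, List.mem_append, List.mem_map]
      exact Or.inr (Or.inr (Or.inl ⟨v, hv, rfl⟩))
    · unfold redB at he
      rw [List.mem_flatMap] at he
      obtain ⟨p, hp, hpe⟩ := he
      have hp1 : p.1 ∈ E := List.fst_mem_of_mem_zipIdx hp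
      obtain ⟨h1, h2, h3⟩ := hE p.1 hp1
      have m1 : 2 * p.1.1 + 2 ∈ redV V E := by
        simp only [redV, List.mem_cons, List.mem_append, List.mem_map]
        exact Or.inr (Or.inr (Or.inl ⟨_, h1, rfl⟩))
      have m2 : 2 * p.1.2 + 2 ∈ redV V E := by
        simp only [redV, List.mem_cons, List.mem_append, List.mem_map]
        exact Or.inr (Or.inr (Or.inl ⟨_, h2, rfl⟩))
      have m3 : 4 * p.2 + 3 ∈ redV V E := by
        simp only [redV, List.mem_cons, List.mem_append, List.mem_flatMap]
        exact Or.inr (Or.inr (Or.inr ⟨p, hp, by simp⟩))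
      have m4 : 4 * p.2 + 5 ∈ redV V E := by
        simp only [redV, List.mem_cons, List.mem_append, List.mem_flatMap]
        exact Or.inr (Or.inr (Or.inr ⟨p, hp, by simp⟩))
      have m5 : 1 ∈ redV V E := by simp [redV]
      unfold blueOf at hpe
      simp only [List.mem_cons, List.not_mem_nil, or_false] at hpe
      rcases hpe with rfl | rfl | rfl | rfl | rfl
      · exact ⟨m1, m2, by simpa using h3⟩
      · exact ⟨m1, m3, by simp only; omega⟩
      · exact ⟨m3, m5, by simp only; omega⟩
      · exact ⟨m2, m4, by simp only; omega⟩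
      · exact ⟨m4, m5, by simp only; omega⟩
  · rw [List.map_append, List.nodup_append]
    refine ⟨?_, ?_, ?_⟩
    · unfold redR
      rw [List.map_map]
      refine hV.map ?_
      intro a b hab
      simp only [Function.comp, Sym2.eq_iff] at hab
      omega
    · unfold redB
      rw [List.map_flatMap, List.nodup_flatMap]
      refine ⟨?_, hpw.imp ?_⟩
      · intro p hp
        have hp1 : p.1 ∈ E := List.fst_mem_of_mem_zipIdx hp
        obtain ⟨h1, h2, h3⟩ := hE p.1 hp1
        simp only [blueOf, List.map_cons, List.map_nil, List.nodup_cons, List.mem_cons,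
          List.not_mem_nil, or_false, Sym2.eq_iff, not_or, not_false_eq_true, List.nodup_nil,
          and_true]
        omega
      · rintro ⟨p1, p2⟩ ⟨q1, q2⟩ ⟨h1, h2⟩
        simp only [Sym2.eq_iff, ne_eq, not_or] at h1 h2
        simp only [List.disjoint_left, Function.onFun]
        intro x hx hy
        simp only [blueOf, List.map_cons, List.map_nil, List.mem_cons, List.not_mem_nil,
          or_false] at hx hy
        rcases hx with rfl | rfl | rfl | rfl | rfl <;>
          simp only [Sym2.eq_iff] at hy <;> omega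
    · intro a ha b hb hab
      subst hab
      simp only [redR, redB, List.mem_map, List.mem_flatMap] at ha hb
      obtain ⟨_, ⟨v, _, rfl⟩, rfl⟩ := ha
      obtain ⟨e, ⟨p, _, hp⟩, he⟩ := hb
      simp only [blueOf, List.mem_cons, List.not_mem_nil, or_false] at hp
      rcases hp with rfl | rfl | rfl | rfl | rfl <;>
          simp only [Sym2.eq_iff] at he <;> omega

theorem two_choose (k : ℕ) : 2 * k.choose 2 = k * (k - 1) := by
  rw [Nat.choose_two_right, Nat.mul_div_cancel' (Nat.even_mul_pred_self k).two_dvd]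

theorem cutSize_redR {V : List ℕ} (hV : V.Nodup) {X : Finset ℕ} (h0 : 0 ∈ X) :
    cutSize (redR V) X = (V.toFinset.filter (fun v => 2 * v + 2 ∉ X)).card := by
  unfold cutSize redR
  rw [List.countP_map, List.countP_eq_length_filter, ← List.toFinset_card_of_nodup (hV.filter _)]
  congr 1
  ext v
  simp [h0]

theorem sum_countP {α : Type} (l : List α) (p : α → Bool) :
    (l.map (fun a => if p a then 0 else 1)).sum + l.countP p = l.length := by
  induction l with
  | nil => simp
  | cons a l ih =>
    rw [List.map_cons, List.sum_cons, List.countP_cons, List.length_cons]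
    split_ifs <;> omega

theorem sum_zipIdx_ge {α : Type} (g : α → ℕ) (F : α × ℕ → ℕ) (l : List α)
    (h : ∀ p ∈ l.zipIdx, g p.1 ≤ F p) : (l.map g).sum ≤ (l.zipIdx.map F).sum := by
  have : l.map g = l.zipIdx.map (fun p => g p.1) := by
    conv_lhs => rw [← List.zipIdx_map_fst 0 l, List.map_map]
    rfl
  rw [this]
  exact List.sum_le_sum h

theorem sum_zipIdx_le {α : Type} (g : α → ℕ) (F : α × ℕ → ℕ) (l : List α)
    (h : ∀ p ∈ l.zipIdx, F p ≤ g p.1) : (l.zipIdx.map F).sum ≤ (l.map g).sum := by
  have : l.map g = l.zipIdx.map (fun p => g p.1) := by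
    conv_lhs => rw [← List.zipIdx_map_fst 0 l, List.map_map]
    rfl
  rw [this]
  exact List.sum_le_sum h

theorem cutSize_redB (E : List (ℕ × ℕ)) (X : Finset ℕ) :
    cutSize (redB E) X = (E.zipIdx.map (fun p => cutSize (blueOf p.1 p.2) X)).sum := by
  unfold redB
  rw [cutSize, List.countP_flatMap]
  rfl

theorem red_correct {V : List ℕ} {E : List (ℕ × ℕ)} (h : IsGraph V E) {k : ℕ} (hk : 2 ≤ k) :
    HasClique V E k ↔ RedBlueSTCut (red ((V, E), k)) := by
  rw [hasClique_iff h hk]
  have h2 := two_choose k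
  have hV := h.1
  have hle : ∀ U : Finset ℕ, inside E U ≤ E.length := fun U => List.countP_le_length
  unfold red
  simp only
  split_ifs with hc
  · constructor
    · rintro ⟨U, hU, hUk, hin⟩
      refine ⟨isGraph_red h, by simp [redV], by simp [redV], by simp, ?_⟩
      simp only
      let X : Finset ℕ := insert 0 (((redV V E).toFinset).filter (fun x =>
        (∃ v ∈ V, v ∉ U ∧ x = 2 * v + 2) ∨
        (∃ p ∈ E.zipIdx, p.1.1 ∉ U ∧ x = 4 * p.2 + 3) ∨
        (∃ p ∈ E.zipIdx, p.1.2 ∉ U ∧ x = 4 * p.2 + 5)))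
      have hX0 : 0 ∈ X := Finset.mem_insert_self _ _
      have hX1 : 1 ∉ X := by
        simp only [X, Finset.mem_insert, Finset.mem_filter, not_or, not_and]
        refine ⟨by omega, fun _ => ⟨?_, ?_, ?_⟩⟩
        · rintro ⟨v, _, _, hv⟩; omega
        · rintro ⟨v, _, _, hv⟩; omega
        · rintro ⟨v, _, _, hv⟩; omega
      have hXv : ∀ v ∈ V, (2 * v + 2 ∈ X ↔ v ∉ U) := by
        intro v hv
        simp only [X, Finset.mem_insert, Finset.mem_filter, List.mem_toFinset]
        constructor
        · rintro (h0 | ⟨_, ⟨w, _, hw, e⟩ | ⟨p, _, _, e⟩ | ⟨p, _, _, e⟩⟩)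
          · omega
          · have : v = w := by omega
            rw [this]; exact hw
          · omega
          · omega
        · intro hvU
          refine Or.inr ⟨?_, Or.inl ⟨v, hv, hvU, rfl⟩⟩
          simp only [redV, List.mem_cons, List.mem_append, List.mem_map]
          exact Or.inr (Or.inr (Or.inl ⟨v, hv, rfl⟩))
      have huniq : ∀ p ∈ E.zipIdx, ∀ q ∈ E.zipIdx, p.2 = q.2 → p = q := by
        rintro ⟨p1, p2⟩ hp ⟨q1, q2⟩ hq hpq
        rw [List.mem_zipIdx_iff_getElem?] at hp hq
        simp only at hp hq hpq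
        subst hpq
        rw [hp] at hq
        rw [Option.some.inj hq]
      have hXa : ∀ p ∈ E.zipIdx, (4 * p.2 + 3 ∈ X ↔ p.1.1 ∉ U) := by
        intro p hp
        simp only [X, Finset.mem_insert, Finset.mem_filter, List.mem_toFinset]
        constructor
        · rintro (h0 | ⟨_, ⟨w, _, hw, e⟩ | ⟨q, hq, hqU, e⟩ | ⟨q, _, _, e⟩⟩)
          · omega
          · omega
          · have := huniq p hp q hq (by omega)
            rw [this]; exact hqU
          · omega
        · intro hvU
          refine Or.inr ⟨?_, Or.inr (Or.inl ⟨p, hp, hvU, rfl⟩)⟩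
          simp only [redV, List.mem_cons, List.mem_append, List.mem_flatMap]
          exact Or.inr (Or.inr (Or.inr ⟨p, hp, by simp⟩))
      have hXb : ∀ p ∈ E.zipIdx, (4 * p.2 + 5 ∈ X ↔ p.1.2 ∉ U) := by
        intro p hp
        simp only [X, Finset.mem_insert, Finset.mem_filter, List.mem_toFinset]
        constructor
        · rintro (h0 | ⟨_, ⟨w, _, hw, e⟩ | ⟨q, hq, hqU, e⟩ | ⟨q, hq, hqU, e⟩⟩)
          · omega
          · omega
          · omega
          · have := huniq p hp q hq (by omega)
            rw [this]; exact hqU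
        · intro hvU
          refine Or.inr ⟨?_, Or.inr (Or.inr ⟨p, hp, hvU, rfl⟩)⟩
          simp only [redV, List.mem_cons, List.mem_append, List.mem_flatMap]
          exact Or.inr (Or.inr (Or.inr ⟨p, hp, by simp⟩))
      refine ⟨X, ?_, hX0, hX1, ?_, ?_⟩
      · intro v hv
        simp only [X, Finset.mem_insert, Finset.mem_filter, List.mem_toFinset] at hv
        rcases hv with rfl | ⟨hv, _⟩
        · simp [redV]
        · exact hv
      · rw [cutSize_redR hV hX0]
        refine (Finset.card_le_card ?_).trans hUk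
        intro v hv
        simp only [Finset.mem_filter, List.mem_toFinset] at hv
        by_contra hvU
        exact hv.2 ((hXv v hv.1).2 hvU)
      · rw [cutSize_redB]
        have h3 := sum_zipIdx_le
          (fun e : ℕ × ℕ => 2 * if (decide (e.1 ∈ U) && decide (e.2 ∈ U)) then 0 else 1)
          (fun p => cutSize (blueOf p.1 p.2) X) E (by
            intro p hp
            have hp1 : p.1 ∈ E := List.fst_mem_of_mem_zipIdx hp
            obtain ⟨g1, g2, g3⟩ := h.2.1 p.1 hp1
            have e1 := hXv p.1.1 g1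
            have e2 := hXv p.1.2 g2
            have e3 := hXa p hp
            have e4 := hXb p hp
            simp only [cutSize, blueOf, List.countP_cons, List.countP_nil, e1, e2, e3, e4, hX1]
            by_cases q1 : p.1.1 ∈ U <;> by_cases q2 : p.1.2 ∈ U <;> simp [q1, q2])
        have h4 := sum_countP E (fun e => decide (e.1 ∈ U) && decide (e.2 ∈ U))
        rw [List.sum_map_mul_left] at h3
        have h5 : E.countP (fun e => decide (e.1 ∈ U) && decide (e.2 ∈ U)) = inside E U := rfl
        omega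
    · rintro ⟨_, _, _, _, X, hX, h0, h1, hr, hb⟩
      simp only at hX h0 h1 hr hb
      let U : Finset ℕ := V.toFinset.filter (fun v => 2 * v + 2 ∉ X)
      have hUv : ∀ v ∈ V, (2 * v + 2 ∈ X ↔ v ∉ U) := by
        intro v hv
        simp only [U, Finset.mem_filter, List.mem_toFinset, not_and, not_not]
        exact ⟨fun h _ => h, fun h => h hv⟩
      refine ⟨U, ?_, ?_, ?_⟩
      · intro v hv
        simp only [U, Finset.mem_filter, List.mem_toFinset] at hv
        exact hv.1
      · rw [← cutSize_redR hV h0]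
        exact hr
      · rw [cutSize_redB] at hb
        have h3 := sum_zipIdx_ge
          (fun e : ℕ × ℕ => 2 * if (decide (e.1 ∈ U) && decide (e.2 ∈ U)) then 0 else 1)
          (fun p => cutSize (blueOf p.1 p.2) X) E (by
            intro p hp
            have hp1 : p.1 ∈ E := List.fst_mem_of_mem_zipIdx hp
            obtain ⟨g1, g2, g3⟩ := h.2.1 p.1 hp1
            have e1 := hUv p.1.1 g1
            have e2 := hUv p.1.2 g2
            simp only [cutSize, blueOf, List.countP_cons, List.countP_nil, e1, e2, h1]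
            by_cases q1 : p.1.1 ∈ U <;> by_cases q2 : p.1.2 ∈ U <;>
              by_cases q3 : 4 * p.2 + 3 ∈ X <;> by_cases q4 : 4 * p.2 + 5 ∈ X <;>
              simp [q1, q2, q3, q4])
        have h4 := sum_countP E (fun e => decide (e.1 ∈ U) && decide (e.2 ∈ U))
        rw [List.sum_map_mul_left] at h3
        have h5 : E.countP (fun e => decide (e.1 ∈ U) && decide (e.2 ∈ U)) = inside E U := rfl
        omega
  · constructor
    · rintro ⟨U, _, _, hin⟩
      have := hle U
      omega
    · rintro ⟨_, _, _, _, X, _, h0, h1, hr, _⟩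
      simp only at h0 h1 hr
      simp [cutSize, h0, h1] at hr

theorem npHardP_redBlueSTCut : NPHardP RedBlueSTCut := by
  refine (hardPr_CLIQUE.trans (Pr' := fun _ => True) red_poly (fun _ _ => trivial) ?_).toHardI.toNPHardP
  rintro ⟨⟨V, E⟩, k⟩ ⟨hG, hk⟩
  rw [← red_correct hG hk]
  exact ⟨fun h => h.2, fun h => ⟨hG, h⟩⟩

end Pool.Agent.W946
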