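import Pool.Agent.W946.SzRounds
import Pool.Agent.W946.KosCirc

set_option autoImplicit false

/-!
# The linear parts of the polynomials computed by a circuit
-/

namespace Pool.Agent.W946.Sz

open Finset Pool.Agent.H88R3.MM Pool.Agent.H522R2 Pool.Agent.H522R2.Circuit Pool.Agent.W946.Kos

section forms

variable {F V : Type*} [Field F]

/-- the linear part -/
noncomputable def lin (C : Circuit F V) (v : Fin C.nodes) : V → F := fun x => D1 x (C.poly v)

/-- the quadratic part -/
noncomputable def qd (C : Circuit F V) (v : Fin C.nodes) : V → V → F :=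
  fun x y => D2 x y (C.poly v)

/-- the node is a gate -/
def IsGate (C : Circuit F V) (v : Fin C.nodes) : Prop :=
  (∃ i j, C.gate v = Gate.add i j) ∨ ∃ i j, C.gate v = Gate.mul i j

theorem poly_var {C : Circuit F V} {v : Fin C.nodes} {x : V} (h : C.gate v = Gate.var x) :
    C.poly v = MvPolynomial.X x := by
  rw [poly, h]

theorem poly_const {C : Circuit F V} {v : Fin C.nodes} {c : F} (h : C.gate v = Gate.const c) :
    C.poly v = MvPolynomial.C c := by
  rw [poly, h]

theorem poly_add {C : Circuit F V} {v : Fin C.nodes} {i j : Fin (v : ℕ)}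
    (h : C.gate v = Gate.add i j) : C.poly v = C.poly (C.up v i) + C.poly (C.up v j) := by
  conv_lhs => rw [poly, h]

theorem poly_mul {C : Circuit F V} {v : Fin C.nodes} {i j : Fin (v : ℕ)}
    (h : C.gate v = Gate.mul i j) : C.poly v = C.poly (C.up v i) * C.poly (C.up v j) := by
  conv_lhs => rw [poly, h]

omit [Field F] in
theorem up_lt {C : Circuit F V} (v : Fin C.nodes) (i : Fin (v : ℕ)) : C.up v i < v := i.2

theorem lin_gate {C : Circuit F V} {v : Fin C.nodes} (h : IsGate C v) :
    ∃ i j : Fin C.nodes, i < v ∧ j < v ∧ ∃ α β : F, lin C v = α • lin C i + β • lin C j := by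
  rcases h with ⟨i, j, h⟩ | ⟨i, j, h⟩
  · refine ⟨C.up v i, C.up v j, up_lt v i, up_lt v j, 1, 1, ?_⟩
    funext x
    simp only [lin, poly_add h, D1_add, Pi.add_apply, one_smul]
  · refine ⟨C.up v i, C.up v j, up_lt v i, up_lt v j,
      MvPolynomial.constantCoeff (C.poly (C.up v j)),
      MvPolynomial.constantCoeff (C.poly (C.up v i)), ?_⟩
    funext x
    simp only [lin, poly_mul h, D1_mul, Pi.add_apply, Pi.smul_apply, smul_eq_mul]
    ring

variable [DecidableEq V]

/-- the linear part is not zero and not proportional to a variable or to an earlier linear part -/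
def IsLeader (C : Circuit F V) (v : Fin C.nodes) : Prop :=
  lin C v ≠ 0 ∧ (∀ (x : V) (a : F), lin C v ≠ a • (Pi.single x 1 : V → F)) ∧
    ∀ u < v, ∀ a : F, lin C v ≠ a • lin C u

/-- the linear form of a symbol -/
noncomputable def vec (C : Circuit F V) : V ⊕ Fin C.nodes → V → F :=
  Sum.elim (fun x => Pi.single x 1) (lin C)

/-- the symbols -/
def Valid (C : Circuit F V) : V ⊕ Fin C.nodes → Prop := Sum.elim (fun _ => True) (IsLeader C)

theorem exists_rep [Nonempty V] (C : Circuit F V) (u : Fin C.nodes) :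
    ∃ (s : V ⊕ Fin C.nodes) (a : F), Valid C s ∧ (∀ v, s = Sum.inr v → v ≤ u) ∧
      lin C u = a • vec C s := by
  induction u using WellFoundedLT.induction with
  | _ u ih =>
  by_cases h0 : lin C u = 0
  · exact ⟨Sum.inl (Classical.arbitrary V), 0, trivial, fun v h => by simp at h, by
      rw [h0, zero_smul]⟩
  by_cases hl : IsLeader C u
  · exact ⟨Sum.inr u, 1, hl, fun v h => (Sum.inr_injective h).ge, (one_smul _ _).symm⟩
  unfold IsLeader at hl
  push Not at hl
  by_cases h1 : ∀ (x : V) (a : F), lin C u ≠ a • (Pi.single x 1 : V → F)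
  · obtain ⟨w, hw, a, ha⟩ := hl h0 h1
    obtain ⟨s, b, hs, hle, hb⟩ := ih w hw
    exact ⟨s, a * b, hs, fun v h => (hle v h).trans hw.le, by rw [ha, hb, smul_smul]⟩
  · push Not at h1
    obtain ⟨x, a, ha⟩ := h1
    exact ⟨Sum.inl x, a, trivial, fun v h => by simp at h, ha⟩

theorem vec_ne_zero {C : Circuit F V} {s : V ⊕ Fin C.nodes} (hs : Valid C s) : vec C s ≠ 0 := by
  rcases s with x | v
  · intro h
    have := congrFun h x
    simp [vec] at this
  · exact hs.1

theorem valid_unique {C : Circuit F V} {s t : V ⊕ Fin C.nodes} (hs : Valid C s)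
    (ht : Valid C t) {a : F} (h : vec C s = a • vec C t) : s = t := by
  have ha : a ≠ 0 := by
    rintro rfl
    rw [zero_smul] at h
    exact vec_ne_zero hs h
  have h' : vec C t = a⁻¹ • vec C s := by rw [h, smul_smul, inv_mul_cancel₀ ha, one_smul]
  rcases s with x | v <;> rcases t with y | w
  · have := congrFun h x
    simp only [vec, Sum.elim_inl, Pi.single_eq_same, Pi.smul_apply, smul_eq_mul] at this
    congr 1
    by_contra hne
    rw [Pi.single_eq_of_ne hne, mul_zero] at this
    exact one_ne_zero this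
  · exact absurd h' (ht.2.1 x _)
  · exact absurd h (hs.2.1 y _)
  · rcases lt_trichotomy v w with h1 | h1 | h1
    · exact absurd h' (ht.2.2 v h1 _)
    · rw [h1]
    · exact absurd h (hs.2.2 w h1 _)

theorem IsLeader.isGate {C : Circuit F V} {v : Fin C.nodes} (h : IsLeader C v) : IsGate C v := by
  cases hg : C.gate v with
  | var z =>
    refine absurd ?_ (h.2.1 z 1)
    funext x
    rw [one_smul]
    simp only [lin, poly_var hg]
    unfold D1
    rw [MvPolynomial.pderiv_X, Pi.single_apply, Pi.single_apply]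
    by_cases hz : z = x
    · rw [if_pos hz, if_pos hz.symm, map_one]
    · rw [if_neg hz, if_neg (fun h' => hz h'.symm), map_zero]
  | const c =>
    refine absurd ?_ h.1
    funext x
    simp only [lin, poly_const hg, D1_C, Pi.zero_apply]
  | add i j => exact Or.inl ⟨i, j, hg⟩
  | mul i j => exact Or.inr ⟨i, j, hg⟩

/-- the data which describe the linear parts -/
structure Sys (C : Circuit F V) where
  rep : Fin C.nodes → V ⊕ Fin C.nodes
  coef : Fin C.nodes → F
  valid : ∀ u, Valid C (rep u)
  le : ∀ u v, rep u = Sum.inr v → v ≤ u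
  lin_eq : ∀ u, lin C u = coef u • vec C (rep u)
  i : Fin C.nodes → Fin C.nodes
  j : Fin C.nodes → Fin C.nodes
  al : Fin C.nodes → F
  be : Fin C.nodes → F
  hi : ∀ v, IsLeader C v → i v < v
  hj : ∀ v, IsLeader C v → j v < v
  hlin : ∀ v, IsLeader C v → lin C v = al v • lin C (i v) + be v • lin C (j v)

theorem exists_sys [Nonempty V] (C : Circuit F V) : Nonempty (Sys C) := by
  classical
  choose rep coef h1 h2 h3 using exists_rep C
  have h4 : ∀ v : Fin C.nodes, ∃ (i j : Fin C.nodes) (α β : F), IsLeader C v →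
      i < v ∧ j < v ∧ lin C v = α • lin C i + β • lin C j := by
    intro v
    by_cases h : IsLeader C v
    · obtain ⟨i, j, hi, hj, α, β, hl⟩ := lin_gate h.isGate
      exact ⟨i, j, α, β, fun _ => ⟨hi, hj, hl⟩⟩
    · exact ⟨v, v, 0, 0, fun h' => absurd h' h⟩
  choose i j α β h5 using h4
  exact ⟨⟨rep, coef, h1, h2, h3, i, j, α, β, fun v hv => (h5 v hv).1, fun v hv => (h5 v hv).2.1,
    fun v hv => (h5 v hv).2.2⟩⟩

variable {C : Circuit F V}

/-- the coefficients of the equations -/
noncomputable def Sys.H (S : Sys C) (v : Fin C.nodes) (s : V ⊕ Fin C.nodes) : F :=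
  (if s = Sum.inr v then 1 else 0) - (S.al v * S.coef (S.i v)) * (if s = S.rep (S.i v) then 1 else 0)
    - (S.be v * S.coef (S.j v)) * (if s = S.rep (S.j v) then 1 else 0)

variable [Fintype V]

open Classical in
/-- all symbols -/
noncomputable def EE (C : Circuit F V) : Finset (V ⊕ Fin C.nodes) := univ.filter (Valid C)

open Classical in
/-- all leaders -/
noncomputable def CC (C : Circuit F V) : Finset (Fin C.nodes) := univ.filter (IsLeader C)

theorem card_EE (C : Circuit F V) : (EE C).card = Fintype.card V + (CC C).card := by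
  classical
  have h : EE C = (univ : Finset V).disjSum (CC C) := by
    ext s
    unfold EE CC Valid
    rw [mem_filter]
    rcases s with x | v
    · simp
    · simp
  rw [h, card_disjSum, card_univ]

theorem Sys.sum_H (S : Sys C) (v : Fin C.nodes) (x : V ⊕ Fin C.nodes → F) :
    ∑ s, S.H v s * x s = x (Sum.inr v) - S.al v * S.coef (S.i v) * x (S.rep (S.i v)) -
      S.be v * S.coef (S.j v) * x (S.rep (S.j v)) := by
  simp only [Sys.H, sub_mul, sum_sub_distrib, ite_mul, one_mul, zero_mul, mul_assoc, ← mul_sum,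
    sum_ite_eq', mem_univ, if_true]

omit [Fintype V] in
theorem Sys.row_card (S : Sys C) (E : Finset (V ⊕ Fin C.nodes)) (v : Fin C.nodes) :
    (row S.H E v).card ≤ 3 := by
  classical
  refine (card_le_card (t := {Sum.inr v, S.rep (S.i v), S.rep (S.j v)}) ?_).trans card_le_three
  intro s hs
  unfold row at hs
  rw [mem_filter] at hs
  by_contra hcon
  simp only [mem_insert, mem_singleton, not_or] at hcon
  apply hs.2
  rw [Sys.H, if_neg hcon.1, if_neg hcon.2.1, if_neg hcon.2.2]
  ring

/-- a solution is given by a point -/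
theorem Sys.sol_eq (S : Sys C) {E : Finset (V ⊕ Fin C.nodes)} {x : V ⊕ Fin C.nodes → F}
    (hx : Sol S.H E (CC C) x) (s : V ⊕ Fin C.nodes) (hs : Valid C s) :
    x s = dotProduct (vec C s) (fun z => x (Sum.inl z)) := by
  set X : V → F := fun z => x (Sum.inl z) with hX
  have key : ∀ w : Fin C.nodes, IsLeader C w → x (Sum.inr w) = dotProduct (lin C w) X := by
    intro w
    induction w using WellFoundedLT.induction with
    | _ w ih =>
    intro hw
    have h1 := hx.2 w (by simp [CC, hw])
    have h2 : ∑ e ∈ E, S.H w e * x e = ∑ e, S.H w e * x e := by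
      refine sum_subset (subset_univ _) fun e _ he => ?_
      rw [hx.1 e he, mul_zero]
    rw [h2, S.sum_H] at h1
    have h3 : ∀ u < w, x (S.rep u) = dotProduct (vec C (S.rep u)) X := by
      intro u hu
      cases hr : S.rep u with
      | inl z => simp [vec, hX]
      | inr w' =>
        have h4 := S.valid u
        rw [hr] at h4
        exact ih w' ((S.le u w' hr).trans_lt hu) h4
    rw [h3 _ (S.hi w hw), h3 _ (S.hj w hw)] at h1
    rw [S.hlin w hw, add_dotProduct, smul_dotProduct, smul_dotProduct, S.lin_eq (S.i w),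
      S.lin_eq (S.j w), smul_dotProduct, smul_dotProduct]
    simp only [smul_eq_mul]
    linear_combination h1
  rcases s with z | w
  · simp [vec, hX]
  · exact key w hs

theorem Sys.lin_dot (S : Sys C) {E : Finset (V ⊕ Fin C.nodes)} {x : V ⊕ Fin C.nodes → F}
    (hx : Sol S.H E (CC C) x) (u : Fin C.nodes) :
    dotProduct (lin C u) (fun z => x (Sum.inl z)) = S.coef u * x (S.rep u) := by
  rw [S.sol_eq hx _ (S.valid u), S.lin_eq u, smul_dotProduct, smul_eq_mul]

theorem Sys.ne_zero (S : Sys C) {E : Finset (V ⊕ Fin C.nodes)} (hE : E ⊆ EE C)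
    {x : V ⊕ Fin C.nodes → F} (hx : Sol S.H E (CC C) x) (h0 : x ≠ 0) :
    (fun z => x (Sum.inl z)) ≠ 0 := by
  intro h
  apply h0
  funext s
  by_cases hs : Valid C s
  · rw [S.sol_eq hx s hs, h, dotProduct_zero, Pi.zero_apply]
  · exact hx.1 s fun h' => hs (by simpa [EE] using hE h')

end forms

end Pool.Agent.W946.Sz
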