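import Pool.Agent.W946.SzCirc

set_option autoImplicit false

/-!
# The linear parts form a code of large distance
-/

namespace Pool.Agent.W946.Sz

open Finset Pool.Agent.H88R3.MM Pool.Agent.H522R2 Pool.Agent.H522R2.Circuit Pool.Agent.W946.Kos

theorem card_le_of_diag {F ι M : Type*} [Field F] [Fintype ι] [DecidableEq ι] [AddCommGroup M]
    [Module F M] (f : ι → M) (φ : ι → M →ₗ[F] F) {c : F} (hc : c ≠ 0)
    (h : ∀ j l, φ l (f j) = if l = j then c else 0) (G : Finset M)
    (hG : ∀ j, f j ∈ Submodule.span F (G : Set M)) : Fintype.card ι ≤ G.card := by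
  have hLI : LinearIndependent F f := by
    rw [Fintype.linearIndependent_iff]
    intro a ha l
    have h1 := congrArg (φ l) ha
    rw [map_sum, map_zero] at h1
    simp only [map_smul, h, smul_eq_mul, mul_ite, mul_zero, sum_ite_eq, mem_univ, if_true] at h1
    exact (mul_eq_zero.1 h1).resolve_right hc
  have hLI' : LinearIndependent F (fun j => (⟨f j, hG j⟩ : Submodule.span F (G : Set M))) :=
    LinearIndependent.of_comp (Submodule.subtype _) hLI
  have : Module.Finite F (Submodule.span F (G : Set M)) :=
    Module.Finite.span_of_finite F G.finite_toSet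
  exact hLI'.fintype_card_le_finrank.trans (finrank_span_finset_le_card G)

section mm

variable {F : Type*} [Field F] {m : ℕ}

open Classical in
/-- the nonscalar products one of whose factors has derivative `≠ 0` at the origin in direction
`X` -/
noncomputable def act (C : Circuit F (Vars m)) (X : Vars m → F) : Finset (Fin C.nodes) :=
  univ.filter fun g => C.IsNonscalar g ∧
    (dotProduct (lin C (inp C g).1) X ≠ 0 ∨ dotProduct (lin C (inp C g).2) X ≠ 0)

theorem sum_D2 (C : Circuit F (Vars m)) (X : Vars m → F) (k : Fin C.nodes) :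
    (fun y => ∑ x, X x * D2 x y (C.poly k)) ∈ Submodule.span F
      ((fun (g : Fin C.nodes) (y : Vars m) =>
        dotProduct (lin C (inp C g).1) X * lin C (inp C g).2 y +
          lin C (inp C g).1 y * dotProduct (lin C (inp C g).2) X) ''
        (act C X : Set (Fin C.nodes))) := by
  classical
  obtain ⟨c, hc⟩ := exists_comb2 C k
  have h1 : (fun y => ∑ x, X x * D2 x y (C.poly k)) =
      ∑ g : {g : Fin C.nodes // C.IsNonscalar g}, c g • (fun y : Vars m =>
        dotProduct (lin C (inp C g.1).1) X * lin C (inp C g.1).2 y +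
          lin C (inp C g.1).1 y * dotProduct (lin C (inp C g.1).2) X) := by
    funext y
    simp only [hc, mul_sum, Finset.sum_apply, Pi.smul_apply, smul_eq_mul]
    rw [sum_comm]
    refine sum_congr rfl fun g _ => ?_
    simp only [dotProduct, sum_mul, mul_sum, mul_add, ← sum_add_distrib]
    exact sum_congr rfl fun x _ => by simp only [lin]; ring
  rw [h1]
  refine Submodule.sum_mem _ fun g _ => Submodule.smul_mem _ _ ?_
  by_cases hg : g.1 ∈ act C X
  · exact Submodule.subset_span ⟨g.1, hg, rfl⟩
  · unfold act at hg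
    rw [mem_filter] at hg
    push Not at hg
    obtain ⟨h2, h3⟩ := hg (mem_univ _) g.2
    have h4 : (fun y : Vars m =>
        dotProduct (lin C (inp C g.1).1) X * lin C (inp C g.1).2 y +
          lin C (inp C g.1).1 y * dotProduct (lin C (inp C g.1).2) X) = 0 := by
      funext y
      rw [h2, h3, zero_mul, mul_zero, add_zero]
      rfl
    rw [h4]
    exact Submodule.zero_mem _

theorem sum_entry_inr (X : Vars m → F) (i j k l : Fin m) :
    ∑ x, X x * D2 x (Sum.inr (k, l)) (entry F m i j) =
      if l = j then X (Sum.inl (i, k)) else 0 := by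
  simp only [D2_entry]
  rw [Fintype.sum_sum_type]
  have h1 : ∀ a : Fin m × Fin m, X (Sum.inr a) *
      symM (Matrix.single i j (1 : F)) (Sum.inr a) (Sum.inr (k, l)) = 0 := by
    intro a
    simp [symM]
  simp only [h1, sum_const_zero, add_zero]
  rw [Finset.sum_eq_single (i, k)]
  · simp only [symM, Matrix.of_apply, if_true, Matrix.single_apply, true_and]
    by_cases h : j = l
    · rw [if_pos h, if_pos h.symm, mul_one]
    · rw [if_neg h, if_neg (fun h' => h h'.symm), mul_zero]
  · rintro ⟨a, b⟩ _ hne
    simp only [symM, Matrix.of_apply, Matrix.single_apply]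
    by_cases h2 : b = k
    · rw [if_pos h2, if_neg, mul_zero]
      rintro ⟨h3, _⟩
      exact hne (by rw [h2, h3])
    · rw [if_neg h2, mul_zero]
  · intro h
    exact absurd (mem_univ _) h

theorem sum_entry_inl (X : Vars m → F) (i j k l : Fin m) :
    ∑ x, X x * D2 x (Sum.inl (l, k)) (entry F m i j) =
      if l = i then X (Sum.inr (k, j)) else 0 := by
  simp only [D2_entry]
  rw [Fintype.sum_sum_type]
  have h1 : ∀ a : Fin m × Fin m, X (Sum.inl a) *
      symM (Matrix.single i j (1 : F)) (Sum.inl a) (Sum.inl (l, k)) = 0 := by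
    intro a
    simp [symM]
  simp only [h1, sum_const_zero, zero_add]
  rw [Finset.sum_eq_single (k, j)]
  · simp only [symM, Matrix.of_apply, if_true, Matrix.single_apply, and_true]
    by_cases h : i = l
    · rw [if_pos h, if_pos h.symm, mul_one]
    · rw [if_neg h, if_neg (fun h' => h h'.symm), mul_zero]
  · rintro ⟨a, b⟩ _ hne
    simp only [symM, Matrix.of_apply, Matrix.single_apply]
    by_cases h2 : k = a
    · rw [if_pos h2, if_neg, mul_zero]
      rintro ⟨_, h3⟩
      exact hne (by rw [h2, h3])
    · rw [if_neg h2, mul_zero]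
  · intro h
    exact absurd (mem_univ _) h

theorem act_card (C : Circuit F (Vars m))
    (hC : ∀ i j, ∃ k : Fin C.nodes, C.poly k = entry F m i j) {X : Vars m → F} (hX : X ≠ 0) :
    m ≤ (act C X).card := by
  classical
  obtain ⟨z, hz⟩ := Function.ne_iff.1 hX
  rw [Pi.zero_apply] at hz
  set G : Finset (Vars m → F) := (act C X).image (fun (g : Fin C.nodes) (y : Vars m) =>
        dotProduct (lin C (inp C g).1) X * lin C (inp C g).2 y +
          lin C (inp C g).1 y * dotProduct (lin C (inp C g).2) X) with hG
  have hmem : ∀ i j, (fun y => ∑ x, X x * D2 x y (entry F m i j)) ∈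
      Submodule.span F (G : Set (Vars m → F)) := by
    intro i j
    obtain ⟨k, hk⟩ := hC i j
    have := sum_D2 C X k
    rw [hk] at this
    rw [hG, coe_image]
    exact this
  have hcard : G.card ≤ (act C X).card := card_image_le
  refine le_trans ?_ hcard
  have hm : Fintype.card (Fin m) = m := Fintype.card_fin m
  rcases z with ⟨i, k⟩ | ⟨k, j⟩
  · refine hm.symm.le.trans (card_le_of_diag (F := F)
      (fun j : Fin m => (fun y => ∑ x, X x * D2 x y (entry F m i j) : Vars m → F))
      (fun l => LinearMap.proj (Sum.inr (k, l))) hz (fun j l => ?_) G fun j => hmem i j)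
    rw [LinearMap.proj_apply]
    exact sum_entry_inr X i j k l
  · refine hm.symm.le.trans (card_le_of_diag (F := F)
      (fun i : Fin m => (fun y => ∑ x, X x * D2 x y (entry F m i j) : Vars m → F))
      (fun l => LinearMap.proj (Sum.inl (l, k))) hz (fun i l => ?_) G fun i => hmem i j)
    rw [LinearMap.proj_apply]
    exact sum_entry_inl X i j k l

variable {C : Circuit F (Vars m)}

open Classical in
/-- the products which use a symbol -/
noncomputable def Sys.use (S : Sys C) (s : Vars m ⊕ Fin C.nodes) : Finset (Fin C.nodes) :=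
  univ.filter fun g => C.IsNonscalar g ∧ (S.rep (inp C g).1 = s ∨ S.rep (inp C g).2 = s)

open Classical in
/-- the symbols which are not used often -/
noncomputable def Sys.light (S : Sys C) (Δ : ℕ) : Finset (Vars m ⊕ Fin C.nodes) :=
  (EE C).filter fun s => (eqs S.H (CC C) s).card ≤ Δ ∧ (S.use s).card ≤ Δ

theorem Sys.dist (S : Sys C) (hC : ∀ i j, ∃ k : Fin C.nodes, C.poly k = entry F m i j)
    {Δ T : ℕ} (hΔ : 0 < Δ) (h : Δ * T ≤ m) : Dist S.H (S.light Δ) (CC C) T := by
  classical
  intro x hx h0
  have hX := S.ne_zero (filter_subset _ _) hx h0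
  have h1 := act_card C hC hX
  have h2 : act C (fun z => x (Sum.inl z)) ⊆ (spt (S.light Δ) x).biUnion S.use := by
    intro g hg
    unfold act at hg
    rw [mem_filter, S.lin_dot hx, S.lin_dot hx] at hg
    rw [mem_biUnion]
    rcases hg.2.2 with h3 | h3
    · have h4 : x (S.rep (inp C g).1) ≠ 0 := right_ne_zero_of_mul h3
      refine ⟨S.rep (inp C g).1, ?_, ?_⟩
      · unfold spt
        rw [mem_filter]
        refine ⟨?_, h4⟩
        by_contra h5
        exact h4 (hx.1 _ h5)
      · unfold Sys.use
        rw [mem_filter]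
        exact ⟨mem_univ _, hg.2.1, Or.inl rfl⟩
    · have h4 : x (S.rep (inp C g).2) ≠ 0 := right_ne_zero_of_mul h3
      refine ⟨S.rep (inp C g).2, ?_, ?_⟩
      · unfold spt
        rw [mem_filter]
        refine ⟨?_, h4⟩
        by_contra h5
        exact h4 (hx.1 _ h5)
      · unfold Sys.use
        rw [mem_filter]
        exact ⟨mem_univ _, hg.2.1, Or.inr rfl⟩
  have h3 : (act C (fun z => x (Sum.inl z))).card ≤ (spt (S.light Δ) x).card * Δ := by
    refine (card_le_card h2).trans (card_biUnion_le.trans ?_)
    refine (sum_le_card_nsmul _ _ Δ fun s hs => ?_).trans (le_of_eq (smul_eq_mul _ _))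
    unfold spt Sys.light at hs
    rw [mem_filter, mem_filter] at hs
    exact hs.1.2.2
  have h4 : Δ * T ≤ Δ * (spt (S.light Δ) x).card := by
    rw [mul_comm Δ (Finset.card _)]
    exact h.trans (h1.trans h3)
  exact Nat.le_of_mul_le_mul_left h4 hΔ

theorem nonscalarCount_eq (C : Circuit F (Vars m)) [DecidablePred C.IsNonscalar] :
    C.nonscalarCount = (univ.filter fun g => C.IsNonscalar g).card := by
  rw [Circuit.nonscalarCount, Nat.card_eq_fintype_card, Fintype.card_subtype]

theorem Sys.sum_use (S : Sys C) : ∑ s ∈ EE C, (S.use s).card ≤ 2 * C.nonscalarCount := by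
  classical
  have h1 : ∑ s ∈ EE C, (S.use s).card ≤ ∑ s, (S.use s).card :=
    sum_le_sum_of_subset (subset_univ _)
  refine h1.trans ?_
  unfold Sys.use
  simp only [card_filter]
  rw [sum_comm, nonscalarCount_eq C, card_filter, mul_sum]
  refine sum_le_sum fun g _ => ?_
  by_cases hg : C.IsNonscalar g
  · rw [if_pos hg]
    simp only [hg, true_and]
    rw [← card_filter]
    refine (card_le_card (t := {S.rep (inp C g).1, S.rep (inp C g).2}) ?_).trans card_le_two
    intro s hs
    rw [mem_filter] at hs
    rw [mem_insert, mem_singleton]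
    rcases hs.2 with h | h
    · exact Or.inl h.symm
    · exact Or.inr h.symm
  · simp [hg]

theorem Sys.heavy (S : Sys C) (Δ : ℕ) :
    (Δ + 1) * (EE C).card ≤ (Δ + 1) * (S.light Δ).card + 3 * (CC C).card +
      2 * C.nonscalarCount := by
  classical
  have h1 : ∑ s ∈ EE C, (eqs S.H (CC C) s).card ≤ 3 * (CC C).card := by
    rw [count_inc]
    refine (sum_le_card_nsmul _ _ 3 fun c _ => S.row_card _ c).trans (le_of_eq ?_)
    rw [smul_eq_mul, mul_comm]
  have h2 := S.sum_use
  have h3 : ∑ s ∈ EE C, (Δ + 1) ≤ ∑ s ∈ EE C, ((if (eqs S.H (CC C) s).card ≤ Δ ∧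
      (S.use s).card ≤ Δ then (Δ + 1) else 0) + ((eqs S.H (CC C) s).card + (S.use s).card)) := by
    refine sum_le_sum fun s _ => ?_
    by_cases h : (eqs S.H (CC C) s).card ≤ Δ ∧ (S.use s).card ≤ Δ
    · rw [if_pos h]
      exact Nat.le_add_right _ _
    · rw [if_neg h]
      omega
  rw [sum_const, smul_eq_mul, sum_add_distrib, sum_add_distrib] at h3
  have h4 : ∑ s ∈ EE C, (if (eqs S.H (CC C) s).card ≤ Δ ∧ (S.use s).card ≤ Δ then (Δ + 1) else 0)
      = (S.light Δ).card * (Δ + 1) := by
    rw [← sum_filter, sum_const, smul_eq_mul]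
    rfl
  rw [h4] at h3
  nlinarith

end mm

end Pool.Agent.W946.Sz
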