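import Pool.Agent.W946.SzDist

set_option autoImplicit false

/-!
# The gates whose linear part is redundant
-/

namespace Pool.Agent.W946.Sz

open Finset Pool.Agent.H88R3.MM Pool.Agent.H522R2 Pool.Agent.H522R2.Circuit Pool.Agent.W946.Kos

section entry

variable {F : Type*} [Field F] {m : ℕ}

/-- the monomials of an entry -/
noncomputable def mono (i j k : Fin m) : Vars m →₀ ℕ :=
  Finsupp.single (Sum.inl (i, k)) 1 + Finsupp.single (Sum.inr (k, j)) 1

theorem mono_inl (i j k k' : Fin m) :
    mono i j k (Sum.inl (i, k')) = if k = k' then 1 else 0 := by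
  classical
  simp [mono, Finsupp.single_apply]

theorem mono_ne_zero {i j k : Fin m} {z : Vars m} (h : mono i j k z ≠ 0) :
    z = Sum.inl (i, k) ∨ z = Sum.inr (k, j) := by
  classical
  by_contra hcon
  rw [not_or] at hcon
  apply h
  rw [mono, Finsupp.add_apply, Finsupp.single_apply, Finsupp.single_apply,
    if_neg (fun h' => hcon.1 h'.symm), if_neg (fun h' => hcon.2 h'.symm), add_zero]

theorem mono_inj {i j k k' : Fin m} (h : mono i j k = mono i j k') : k = k' := by
  have h1 := mono_inl i j k k
  rw [h, mono_inl, if_pos rfl] at h1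
  by_contra hne
  rw [if_neg (fun h' => hne h'.symm)] at h1
  exact zero_ne_one h1

theorem coeff_entry (i j : Fin m) (d : Vars m →₀ ℕ) [DecidableEq (Vars m →₀ ℕ)] :
    (entry F m i j).coeff d = ∑ k, if mono i j k = d then 1 else 0 := by
  unfold entry
  rw [MvPolynomial.coeff_sum]
  refine sum_congr rfl fun k _ => ?_
  rw [MvPolynomial.X, MvPolynomial.X, MvPolynomial.monomial_mul, MvPolynomial.coeff_monomial,
    mul_one, mono]
  by_cases h : Finsupp.single (Sum.inl (i, k)) 1 + Finsupp.single (Sum.inr (k, j)) 1 = d
  · rw [if_pos h, if_pos h]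
  · rw [if_neg h, if_neg h]

theorem coeff_mono (i j k : Fin m) : (entry F m i j).coeff (mono i j k) = 1 := by
  classical
  rw [coeff_entry, Finset.sum_eq_single k]
  · rw [if_pos rfl]
  · intro k' _ hne
    rw [if_neg fun h => hne (mono_inj h)]
  · intro h
    exact absurd (mem_univ _) h

theorem exists_mono {i j : Fin m} {d : Vars m →₀ ℕ} (h : d ∈ (entry F m i j).support) :
    ∃ k, d = mono i j k := by
  classical
  rw [MvPolynomial.mem_support_iff, coeff_entry] at h
  obtain ⟨k, _, hk⟩ := exists_ne_zero_of_sum_ne_zero h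
  refine ⟨k, ?_⟩
  by_contra hne
  exact hk (if_neg fun h' => hne h'.symm)

theorem entry_irreducible (hm : 2 ≤ m) (i j : Fin m) : Irreducible (entry F m i j) := by
  have hs : ∀ k, mono i j k ∈ (entry F m i j).support := by
    intro k
    rw [MvPolynomial.mem_support_iff, coeff_mono]
    exact one_ne_zero
  refine MvPolynomial.irreducible_of_disjoint_support (d := mono i j ⟨0, by omega⟩)
    (i := Sum.inl (i, ⟨0, by omega⟩)) ?_ (hs _) ?_ ?_ ?_
  · refine ⟨mono i j ⟨0, by omega⟩, hs _, mono i j ⟨1, by omega⟩, hs _, fun h => ?_⟩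
    have := mono_inj h
    simp at this
  · rw [mono_inl, if_pos rfl]
  · intro d hd d' hd' hne
    obtain ⟨k, rfl⟩ := exists_mono hd
    obtain ⟨k', rfl⟩ := exists_mono hd'
    change Disjoint (mono i j k).support (mono i j k').support
    rw [Finset.disjoint_left]
    intro z hz hz'
    rw [Finsupp.mem_support_iff] at hz hz'
    have hk : k ≠ k' := fun h => hne (by rw [h])
    rcases mono_ne_zero hz with h1 | h1 <;> rcases mono_ne_zero hz' with h2 | h2
    · rw [h1] at h2
      simp only [Sum.inl.injEq, Prod.mk.injEq, true_and] at h2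
      exact hk h2
    · rw [h1] at h2
      exact absurd h2 (by simp)
    · rw [h1] at h2
      exact absurd h2 (by simp)
    · rw [h1] at h2
      simp only [Sum.inr.injEq, Prod.mk.injEq, and_true] at h2
      exact hk h2
  · intro r hr
    have := hr (mono i j ⟨0, by omega⟩)
    rw [coeff_mono] at this
    exact isUnit_of_dvd_one this

theorem not_nonscalar (hm : 2 ≤ m) {C : Circuit F (Vars m)} {v : Fin C.nodes} {i j : Fin m}
    (h : C.poly v = entry F m i j) : ¬ C.IsNonscalar v := by
  rintro ⟨i', j', hg, h1, h2⟩
  have h3 := (entry_irreducible (F := F) hm i j).isUnit_or_isUnit (h.symm.trans (poly_mul hg))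
  rcases h3 with h3 | h3
  · obtain ⟨r, _, hr⟩ := MvPolynomial.isUnit_iff_eq_C_of_isReduced.1 h3
    exact h1 r hr
  · obtain ⟨r, _, hr⟩ := MvPolynomial.isUnit_iff_eq_C_of_isReduced.1 h3
    exact h2 r hr

theorem D1_entry (i j : Fin m) (x : Vars m) : D1 x (entry F m i j) = 0 := by
  classical
  unfold entry D1
  rw [map_sum, map_sum]
  refine sum_eq_zero fun k _ => ?_
  rw [MvPolynomial.pderiv_mul, map_add, map_mul, map_mul, MvPolynomial.constantCoeff_X,
    MvPolynomial.constantCoeff_X, mul_zero, zero_mul, add_zero]

theorem D2_entry_diag (i j i' j' k : Fin m) :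
    D2 (Sum.inl (i', k)) (Sum.inr (k, j')) (entry F m i j) =
      if (i', j') = (i, j) then 1 else 0 := by
  rw [D2_entry]
  simp only [symM, Matrix.of_apply, if_true, Matrix.single_apply, Prod.mk.injEq]
  by_cases h : i = i' ∧ j = j'
  · rw [if_pos h, if_pos ⟨h.1.symm, h.2.symm⟩]
  · rw [if_neg h, if_neg fun h' => h ⟨h'.1.symm, h'.2.symm⟩]

end entry

section gates

variable {F V : Type*} [Field F] [DecidableEq V] {C : Circuit F V}

theorem Sys.coef_zero (S : Sys C) {u : Fin C.nodes} (h : lin C u = 0) : S.coef u = 0 := by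
  have h1 := S.lin_eq u
  rw [h] at h1
  exact (smul_eq_zero.1 h1.symm).resolve_right (vec_ne_zero (S.valid u))

theorem Sys.lin_zero (S : Sys C) {u : Fin C.nodes} (h : S.coef u = 0) : lin C u = 0 := by
  rw [S.lin_eq u, h, zero_smul]

/-- the quadratic part at a symbol -/
noncomputable def qv (C : Circuit F V) : V ⊕ Fin C.nodes → V → V → F :=
  Sum.elim (fun _ => 0) (qd C)

open Classical in
/-- the gates whose linear part is not zero but redundant -/
noncomputable def DD (C : Circuit F V) : Finset (Fin C.nodes) :=
  univ.filter fun v => IsGate C v ∧ lin C v ≠ 0 ∧ ¬ IsLeader C v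

open Classical in
/-- the nonscalar products without linear part -/
noncomputable def ZZ (C : Circuit F V) : Finset (Fin C.nodes) :=
  univ.filter fun v => C.IsNonscalar v ∧ lin C v = 0

theorem mem_CC {v : Fin C.nodes} [Fintype V] : v ∈ CC C ↔ IsLeader C v := by
  classical
  unfold CC
  simp only [mem_filter, mem_univ, true_and]

theorem mem_DD {v : Fin C.nodes} : v ∈ DD C ↔ IsGate C v ∧ lin C v ≠ 0 ∧ ¬ IsLeader C v := by
  classical
  unfold DD
  simp only [mem_filter, mem_univ, true_and]

omit [DecidableEq V] in
theorem mem_ZZ {v : Fin C.nodes} : v ∈ ZZ C ↔ C.IsNonscalar v ∧ lin C v = 0 := by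
  classical
  unfold ZZ
  simp only [mem_filter, mem_univ, true_and]

theorem Sys.key (S : Sys C) {W : Submodule F (V → V → F)} (h1 : ∀ v ∈ ZZ C, qd C v ∈ W)
    (h2 : ∀ v ∈ DD C, qd C v - S.coef v • qv C (S.rep v) ∈ W) (u : Fin C.nodes) :
    qd C u - S.coef u • qv C (S.rep u) ∈ W := by
  induction u using WellFoundedLT.induction with
  | _ u ih =>
  -- the case of leaders
  by_cases hl : IsLeader C u
  · have h3 : vec C (Sum.inr u) = S.coef u • vec C (S.rep u) := S.lin_eq u
    have h4 : Sum.inr u = S.rep u := valid_unique hl (S.valid u) h3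
    rw [← h4] at h3 ⊢
    have h5 : S.coef u = 1 := by
      have h6 : (1 - S.coef u) • vec C (Sum.inr u) = 0 := by
        rw [sub_smul, one_smul, ← h3, sub_self]
      have h7 := (smul_eq_zero.1 h6).resolve_right (vec_ne_zero (s := Sum.inr u) hl)
      exact (sub_eq_zero.1 h7).symm
    rw [h5, one_smul]
    simp only [qv, Sum.elim_inr, sub_self]
    exact Submodule.zero_mem _
  by_cases h0 : lin C u = 0
  · rw [S.coef_zero h0, zero_smul, sub_zero]
    cases hg : C.gate u with
    | var z =>
      have : qd C u = 0 := by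
        funext x y
        simp only [qd, poly_var hg, D2_X, Pi.zero_apply]
      rw [this]
      exact Submodule.zero_mem _
    | const c =>
      have : qd C u = 0 := by
        funext x y
        simp only [qd, poly_const hg, D2_C, Pi.zero_apply]
      rw [this]
      exact Submodule.zero_mem _
    | add i j =>
      have e1 : qd C u = qd C (C.up u i) + qd C (C.up u j) := by
        funext x y
        simp only [qd, poly_add hg, D2_add, Pi.add_apply]
      have e2 : lin C (C.up u i) + lin C (C.up u j) = 0 := by
        rw [← h0]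
        funext x
        simp only [lin, poly_add hg, D1_add, Pi.add_apply]
      have i1 := ih _ (up_lt u i)
      have i2 := ih _ (up_lt u j)
      have e3 : S.coef (C.up u i) • qv C (S.rep (C.up u i)) +
          S.coef (C.up u j) • qv C (S.rep (C.up u j)) = 0 := by
        by_cases hi : S.coef (C.up u i) = 0
        · have h3 := S.lin_zero hi
          rw [h3, zero_add] at e2
          rw [hi, S.coef_zero e2, zero_smul, zero_smul, add_zero]
        · rw [S.lin_eq (C.up u i), S.lin_eq (C.up u j)] at e2
          have e4 : vec C (S.rep (C.up u i)) =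
              (-(S.coef (C.up u i))⁻¹ * S.coef (C.up u j)) • vec C (S.rep (C.up u j)) := by
            have e5 := congrArg (fun z => (S.coef (C.up u i))⁻¹ • z) (eq_neg_of_add_eq_zero_left e2)
            simp only [smul_smul, inv_mul_cancel₀ hi, one_smul, smul_neg] at e5
            rw [e5, neg_mul, neg_smul]
          have e5 := valid_unique (S.valid _) (S.valid _) e4
          rw [e5, ← add_smul] at e2
          have e6 := (smul_eq_zero.1 e2).resolve_right (vec_ne_zero (S.valid _))
          rw [e5, ← add_smul, e6, zero_smul]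
      have e7 := Submodule.add_mem _ i1 i2
      have e8 : (qd C (C.up u i) - S.coef (C.up u i) • qv C (S.rep (C.up u i))) +
          (qd C (C.up u j) - S.coef (C.up u j) • qv C (S.rep (C.up u j))) = qd C u := by
        rw [e1, sub_add_sub_comm, e3, sub_zero]
      rw [e8] at e7
      exact e7
    | mul i j =>
      by_cases hns : C.IsNonscalar u
      · exact h1 u (mem_ZZ.2 ⟨hns, h0⟩)
      · have h3 : (∃ c : F, C.poly (C.up u i) = MvPolynomial.C c) ∨
            ∃ c : F, C.poly (C.up u j) = MvPolynomial.C c := by
          by_contra hcon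
          push Not at hcon
          exact hns ⟨i, j, hg, hcon.1, hcon.2⟩
        have h4 : ∃ (k : Fin C.nodes) (c : F), k < u ∧ C.poly u = MvPolynomial.C c * C.poly k := by
          rcases h3 with ⟨c, hc⟩ | ⟨c, hc⟩
          · exact ⟨C.up u j, c, up_lt u j, by rw [poly_mul hg, hc]⟩
          · exact ⟨C.up u i, c, up_lt u i, by rw [poly_mul hg, hc, mul_comm]⟩
        obtain ⟨k, c, hk, hp⟩ := h4
        have e1 : qd C u = c • qd C k := by
          funext x y
          simp only [qd, hp, D2_mul, D1_C, D2_C, MvPolynomial.constantCoeff_C, Pi.smul_apply,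
            smul_eq_mul]
          ring
        have e2 : c • lin C k = 0 := by
          rw [← h0]
          funext x
          simp only [lin, hp, D1_mul, D1_C, MvPolynomial.constantCoeff_C, Pi.smul_apply,
            smul_eq_mul]
          ring
        rw [e1]
        rcases smul_eq_zero.1 e2 with hc | hk0
        · rw [hc, zero_smul]
          exact Submodule.zero_mem _
        · have i1 := ih k hk
          rw [S.coef_zero hk0, zero_smul, sub_zero] at i1
          exact Submodule.smul_mem _ _ i1
  · by_cases hgate : IsGate C u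
    · exact h2 u (mem_DD.2 ⟨hgate, h0, hl⟩)
    · cases hg : C.gate u with
      | var z =>
        have h3 : vec C (Sum.inl z) = S.coef u • vec C (S.rep u) := by
          rw [← S.lin_eq u]
          funext x
          simp only [lin, poly_var hg, vec, Sum.elim_inl]
          unfold D1
          rw [MvPolynomial.pderiv_X, Pi.single_apply, Pi.single_apply]
          by_cases hz : z = x
          · rw [if_pos hz, if_pos hz.symm, map_one]
          · rw [if_neg hz, if_neg (fun h' => hz h'.symm), map_zero]
        have h4 : Sum.inl z = S.rep u := valid_unique trivial (S.valid u) h3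
        have h5 : qd C u = 0 := by
          funext x y
          simp only [qd, poly_var hg, D2_X, Pi.zero_apply]
        rw [← h4, h5]
        simp only [qv, Sum.elim_inl, smul_zero, sub_zero]
        exact Submodule.zero_mem _
      | const c =>
        refine absurd ?_ h0
        funext x
        simp only [lin, poly_const hg, D1_C, Pi.zero_apply]
      | add i j => exact absurd (Or.inl ⟨i, j, hg⟩) hgate
      | mul i j => exact absurd (Or.inr ⟨i, j, hg⟩) hgate

end gates

section mm

variable {F : Type*} [Field F] {m : ℕ} {C : Circuit F (Vars m)}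

theorem Sys.sq_le (S : Sys C) (hm : 0 < m)
    (hC : ∀ i j, ∃ k : Fin C.nodes, C.poly k = entry F m i j) :
    m ^ 2 ≤ (ZZ C).card + (DD C).card := by
  classical
  choose out hout using hC
  set G : Finset (Vars m → Vars m → F) := (ZZ C).image (qd C) ∪
    (DD C).image (fun v => qd C v - S.coef v • qv C (S.rep v)) with hG
  have h1 : G.card ≤ (ZZ C).card + (DD C).card :=
    (card_union_le _ _).trans (Nat.add_le_add card_image_le card_image_le)
  refine le_trans ?_ h1
  have h2 : Fintype.card (Fin m × Fin m) = m ^ 2 := by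
    rw [Fintype.card_prod, Fintype.card_fin, sq]
  refine h2.symm.le.trans (card_le_of_diag (F := F) (c := (1 : F))
    (fun a : Fin m × Fin m => qd C (out a.1 a.2))
    (fun a => (LinearMap.proj (Sum.inr ((⟨0, hm⟩ : Fin m), a.2)) : (Vars m → F) →ₗ[F] F) ∘ₗ
      (LinearMap.proj (Sum.inl (a.1, (⟨0, hm⟩ : Fin m))))) one_ne_zero ?_ G ?_)
  · rintro ⟨i, j⟩ ⟨i', j'⟩
    rw [LinearMap.comp_apply, LinearMap.proj_apply, LinearMap.proj_apply]
    simp only [qd, hout]
    exact D2_entry_diag i j i' j' _
  · rintro ⟨i, j⟩
    have h3 := S.key (W := Submodule.span F (G : Set (Vars m → Vars m → F)))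
      (fun v hv => Submodule.subset_span (by
        rw [hG, coe_union, coe_image]
        exact Or.inl ⟨v, hv, rfl⟩))
      (fun v hv => Submodule.subset_span (by
        rw [hG, coe_union, coe_image, coe_image]
        exact Or.inr ⟨v, hv, rfl⟩)) (out i j)
    have h4 : lin C (out i j) = 0 := by
      funext x
      simp only [lin, hout, D1_entry, Pi.zero_apply]
    rw [S.coef_zero h4, zero_smul, sub_zero] at h3
    exact h3

/-- **Many gates are not leaders.** -/
theorem leaders_add_le (S : Sys C) (hm : 2 ≤ m)
    (hC : ∀ i j, ∃ k : Fin C.nodes, C.poly k = entry F m i j) :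
    (CC C).card + 2 * m ^ 2 ≤ C.size := by
  classical
  have h1 := S.sq_le (by omega) hC
  choose out hout using hC
  set O : Finset (Fin C.nodes) := univ.image fun a : Fin m × Fin m => out a.1 a.2 with hO
  have h0m : 0 < m := by omega
  have hinj : Function.Injective fun a : Fin m × Fin m => out a.1 a.2 := by
    rintro ⟨i, j⟩ ⟨i', j'⟩ h
    have h2 : out i j = out i' j' := h
    have h3 : entry F m i j = entry F m i' j' := by rw [← hout, ← hout, h2]
    have h4 := D2_entry_diag (F := F) i j i j ⟨0, h0m⟩
    rw [h3, D2_entry_diag, if_pos rfl] at h4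
    by_contra hne
    rw [if_neg hne] at h4
    exact zero_ne_one h4
  have hOcard : O.card = m ^ 2 := by
    rw [hO, card_image_of_injective _ hinj, card_univ, Fintype.card_prod, Fintype.card_fin, sq]
  have hOlin : ∀ v ∈ O, lin C v = 0 := by
    intro v hv
    rw [hO, mem_image] at hv
    obtain ⟨a, _, rfl⟩ := hv
    funext x
    simp only [lin, hout, D1_entry, Pi.zero_apply]
  have hOns : ∀ v ∈ O, ¬ C.IsNonscalar v := by
    intro v hv
    rw [hO, mem_image] at hv
    obtain ⟨a, _, rfl⟩ := hv
    exact not_nonscalar hm (hout a.1 a.2)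
  have hOgate : ∀ v ∈ O, IsGate C v := by
    intro v hv
    rw [hO, mem_image] at hv
    obtain ⟨⟨i, j⟩, _, rfl⟩ := hv
    have h4 := D2_entry_diag (F := F) i j i j ⟨0, h0m⟩
    rw [if_pos rfl, ← hout i j] at h4
    cases hg : C.gate (out i j) with
    | var z =>
      rw [poly_var hg, D2_X] at h4
      exact absurd h4 zero_ne_one
    | const c =>
      rw [poly_const hg, D2_C] at h4
      exact absurd h4 zero_ne_one
    | add i' j' => exact Or.inl ⟨i', j', hg⟩
    | mul i' j' => exact Or.inr ⟨i', j', hg⟩
  have hsize : C.size = (univ.filter (IsGate C)).card := by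
    rw [Circuit.size, Nat.card_eq_fintype_card, Fintype.card_subtype]
    exact congrArg Finset.card (filter_congr fun _ _ => Iff.rfl)
  have hd1 : Disjoint (CC C) (DD C) := by
    rw [Finset.disjoint_left]
    intro v hv hv'
    exact (mem_DD.1 hv').2.2 (mem_CC.1 hv)
  have hd2 : Disjoint (ZZ C) O := by
    rw [Finset.disjoint_left]
    intro v hv hv'
    exact hOns v hv' (mem_ZZ.1 hv).1
  have hd3 : Disjoint (CC C ∪ DD C) (ZZ C ∪ O) := by
    rw [Finset.disjoint_left]
    intro v hv hv'
    have h2 : lin C v ≠ 0 := by
      rcases mem_union.1 hv with h | h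
      · exact (mem_CC.1 h).1
      · exact (mem_DD.1 h).2.1
    rcases mem_union.1 hv' with h | h
    · exact h2 (mem_ZZ.1 h).2
    · exact h2 (hOlin v h)
  have hsub : (CC C ∪ DD C) ∪ (ZZ C ∪ O) ⊆ univ.filter (IsGate C) := by
    intro v hv
    rw [mem_filter]
    refine ⟨mem_univ _, ?_⟩
    rcases mem_union.1 hv with h | h
    · rcases mem_union.1 h with h | h
      · exact (mem_CC.1 h).isGate
      · exact (mem_DD.1 h).1
    · rcases mem_union.1 h with h | h
      · obtain ⟨i, j, hg, _⟩ := (mem_ZZ.1 h).1
        exact Or.inr ⟨i, j, hg⟩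
      · exact hOgate v h
  have h2 := card_le_card hsub
  rw [card_union_of_disjoint hd3, card_union_of_disjoint hd1, card_union_of_disjoint hd2,
    ← hsize, hOcard] at h2
  omega

end mm

end Pool.Agent.W946.Sz
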