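import Mathlib

set_option autoImplicit false

/-!
# Sparse systems of linear equations with three unknowns in every equation

A system is given by a finite set `E` of unknowns, a finite set `C` of equations and the
coefficients `H c e`. If every equation contains at most three unknowns and all nonzero solutions
have many nonzero coordinates then there are at least about `3 (|E| - |C|)` equations.
-/

namespace Pool.Agent.W946.Sz

open Finset

variable {F S Ch : Type*} [Field F] [DecidableEq S] [DecidableEq Ch]

/-- `x` is supported on `E` and satisfies the equations in `C` -/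
def Sol (H : Ch → S → F) (E : Finset S) (C : Finset Ch) (x : S → F) : Prop :=
  (∀ e, e ∉ E → x e = 0) ∧ ∀ c ∈ C, ∑ e ∈ E, H c e * x e = 0

open Classical in
/-- the support in `E` -/
noncomputable def spt (E : Finset S) (x : S → F) : Finset S := E.filter fun e => x e ≠ 0

/-- all nonzero solutions have at least `T` nonzero coordinates -/
def Dist (H : Ch → S → F) (E : Finset S) (C : Finset Ch) (T : ℕ) : Prop :=
  ∀ x : S → F, Sol H E C x → x ≠ 0 → T ≤ (spt E x).card

open Classical in
/-- the equations which contain an unknown -/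
noncomputable def eqs (H : Ch → S → F) (C : Finset Ch) (e : S) : Finset Ch :=
  C.filter fun c => H c e ≠ 0

open Classical in
/-- the unknowns in an equation -/
noncomputable def row (H : Ch → S → F) (E : Finset S) (c : Ch) : Finset S :=
  E.filter fun e => H c e ≠ 0

variable {H : Ch → S → F} {E : Finset S} {C : Finset Ch}

omit [DecidableEq Ch] in
theorem sum_single (c : Ch) (e : S) (he : e ∈ E) (a : F) :
    ∑ e' ∈ E, H c e' * (Pi.single e a : S → F) e' = H c e * a := by
  rw [Finset.sum_eq_single e]
  · rw [Pi.single_eq_same]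
  · intro e' _ h
    rw [Pi.single_eq_of_ne h, mul_zero]
  · intro h
    exact absurd he h

omit [DecidableEq Ch] in
/-- the support of a linear combination -/
theorem spt_add_le (x y : S → F) (a b : F) :
    (spt E (a • x + b • y)).card ≤ (spt E x).card + (spt E y).card := by
  classical
  refine (card_le_card ?_).trans (card_union_le _ _)
  intro e he
  unfold spt at he ⊢
  rw [mem_filter] at he
  rw [mem_union, mem_filter, mem_filter]
  by_contra hcon
  push Not at hcon
  apply he.2
  have h1 := hcon.1 he.1
  have h2 := hcon.2 he.1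
  simp [h1, h2]

omit [DecidableEq S] [DecidableEq Ch] in
theorem Sol.mono {P : Finset S} (hP : P ⊆ E) {x : S → F} (hx : ∀ e, e ∉ P → x e = 0)
    (hs : ∀ c ∈ C, ∑ e ∈ P, H c e * x e = 0) : Sol H E C x := by
  refine ⟨fun e he => hx e fun h => he (hP h), fun c hc => ?_⟩
  rw [← hs c hc]
  symm
  refine sum_subset hP fun e _ he => ?_
  rw [hx e he, mul_zero]

open Classical in
/-- **Few unknowns occur in at most two equations.** -/
theorem few_light {P : Finset S} (hPE : P ⊆ E) (hdeg : ∀ e ∈ P, (eqs H C e).card ≤ 2)
    {ε : ℝ} (hε : 0 < ε) {i : ℕ} (hi : 1 ≤ i) (hC : (C.card : ℝ) ≤ (1 + ε) ^ i)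
    (hd : Dist H E C (4 * i + 3)) : (P.card : ℝ) ≤ (1 + ε) * C.card := by
  by_contra hcon
  push Not at hcon
  -- unknowns which occur only in the equations of a set
  let PP : Finset Ch → Finset S := fun U => P.filter fun e => ∀ c ∈ C, H c e ≠ 0 → c ∈ U
  have hPC : PP C = P := by
    ext e
    simp only [PP, mem_filter, and_iff_left_iff_imp]
    exact fun _ c hc _ => hc
  -- a minimal set of equations
  obtain ⟨C', hC'C, hC'b, hC'min⟩ : ∃ C' ⊆ C, (1 + ε) * C'.card < ((PP C').card : ℝ) ∧
      ∀ U ⊂ C', ((PP U).card : ℝ) ≤ (1 + ε) * U.card := by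
    have hne : (C.powerset.filter fun U => (1 + ε) * U.card < ((PP U).card : ℝ)).Nonempty :=
      ⟨C, mem_filter.2 ⟨mem_powerset.2 subset_rfl, by rw [hPC]; exact hcon⟩⟩
    obtain ⟨C', hC', hmin⟩ := exists_min_image _ (fun U : Finset Ch => U.card) hne
    rw [mem_filter, mem_powerset] at hC'
    refine ⟨C', hC'.1, hC'.2, fun U hU => ?_⟩
    by_contra h
    push Not at h
    have := hmin U (mem_filter.2 ⟨mem_powerset.2 (hU.1.trans hC'.1), h⟩)
    exact absurd (card_lt_card hU) (not_lt.2 this)
  set Q := PP C' with hQ
  have hQP : Q ⊆ P := filter_subset _ _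
  have hQE : Q ⊆ E := hQP.trans hPE
  have hQC : ∀ e ∈ Q, ∀ c ∈ C, H c e ≠ 0 → c ∈ C' := fun e he => (mem_filter.1 he).2
  -- solutions of the equations in `C'` supported on `Q` are solutions
  have hsol : ∀ x : S → F, (∀ e, e ∉ Q → x e = 0) →
      (∀ c ∈ C', ∑ e ∈ Q, H c e * x e = 0) → Sol H E C x := by
    intro x hx hs
    refine Sol.mono hQE hx fun c hc => ?_
    by_cases hc' : c ∈ C'
    · exact hs c hc'
    · refine sum_eq_zero fun e he => ?_
      by_cases h0 : H c e = 0
      · rw [h0, zero_mul]
      · exact absurd (hQC e he c hc h0) hc'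
  have hspt : ∀ x : S → F, (∀ e, e ∉ Q → x e = 0) → spt E x = spt Q x := by
    intro x hx
    unfold spt
    ext e
    simp only [mem_filter]
    constructor
    · rintro ⟨_, h2⟩
      refine ⟨?_, h2⟩
      by_contra h
      exact h2 (hx e h)
    · rintro ⟨h1, h2⟩
      exact ⟨hQE h1, h2⟩
  -- `C'` is not empty
  have hC'ne : C'.Nonempty := by
    rw [nonempty_iff_ne_empty]
    intro h0
    rw [h0] at hC'b
    simp only [card_empty, Nat.cast_zero, mul_zero, Nat.cast_pos, card_pos] at hC'b
    obtain ⟨e, he⟩ := hC'b
    have heQ : e ∈ Q := he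
    have h1 : Sol H E C (Pi.single e 1 : S → F) := by
      refine hsol _ (fun e' he' => ?_) fun c hc => ?_
      · rw [Pi.single_eq_of_ne]
        rintro rfl
        exact he' heQ
      · rw [h0] at hc
        exact absurd hc (notMem_empty c)
    have h2 := hd _ h1 (fun h => by simpa using congrFun h e)
    have h3 : (spt E (Pi.single e 1 : S → F)).card ≤ 1 := by
      refine (card_le_card ?_).trans (card_singleton e).le
      intro e' he'
      unfold spt at he'
      rw [mem_filter] at he'
      rw [mem_singleton]
      by_contra h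
      exact he'.2 (Pi.single_eq_of_ne h _)
    omega
  -- many unknowns meet a set of equations
  have htouch : ∀ U ⊆ C', U.Nonempty →
      (1 + ε) * U.card < ((Q.filter fun e => ∃ c ∈ U, H c e ≠ 0).card : ℝ) := by
    intro U hU hUne
    have h1 : C' \ U ⊂ C' := by
      refine ⟨sdiff_subset, fun h => ?_⟩
      obtain ⟨c, hc⟩ := hUne
      exact (mem_sdiff.1 (h (hU hc))).2 hc
    have h2 := hC'min _ h1
    have h3 : Q.card ≤ (Q.filter fun e => ∃ c ∈ U, H c e ≠ 0).card + (PP (C' \ U)).card := by
      refine (card_le_card ?_).trans (card_union_le _ _)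
      intro e he
      rw [mem_union, mem_filter]
      by_cases h : ∃ c ∈ U, H c e ≠ 0
      · exact Or.inl ⟨he, h⟩
      · refine Or.inr (mem_filter.2 ⟨hQP he, fun c hc hce => ?_⟩)
        rw [mem_sdiff]
        exact ⟨hQC e he c hc hce, fun hcU => h ⟨c, hcU, hce⟩⟩
    have h4 : (C' \ U).card + U.card = C'.card := card_sdiff_add_card_eq_card hU
    have h5 : ((C' \ U).card : ℝ) = C'.card - U.card := by
      rw [← h4]
      push_cast
      ring
    have h6 : (Q.card : ℝ) ≤ (Q.filter fun e => ∃ c ∈ U, H c e ≠ 0).card +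
        (PP (C' \ U)).card := by exact_mod_cast h3
    rw [h5] at h2
    nlinarith
  obtain ⟨x₀, hx₀⟩ := hC'ne
  -- short vectors with prescribed value
  let B : ℕ → Finset Ch := fun j => C'.filter fun c => ∃ f : S → F, (∀ e, e ∉ Q → f e = 0) ∧
    (spt E f).card ≤ j ∧ ∀ c' ∈ C', c' ≠ x₀ → ∑ e ∈ Q, H c' e * f e = if c' = c then 1 else 0
  have hBC : ∀ j, B j ⊆ C' := fun j => filter_subset _ _
  have hx₀B : ∀ j, x₀ ∈ B j := by
    intro j
    refine mem_filter.2 ⟨hx₀, 0, fun _ _ => rfl, ?_, fun c' _ hne => ?_⟩
    · have : spt E (0 : S → F) = ∅ := by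
        unfold spt
        simp
      rw [this]
      exact Nat.zero_le _
    · rw [if_neg hne]
      exact sum_eq_zero fun e _ => by simp
  have hBmono : ∀ j, B j ⊆ B (j + 1) := by
    intro j c hc
    obtain ⟨h1, f, h2, h3, h4⟩ := mem_filter.1 hc
    exact mem_filter.2 ⟨h1, f, h2, by omega, h4⟩
  have hreach : ∀ j, ∀ e ∈ Q, (∃ c ∈ B j, H c e ≠ 0) → ∀ d ∈ C', H d e ≠ 0 → d ∈ B (j + 1) := by
    intro j e he hc d hd' hde
    obtain ⟨c, hc, hce⟩ := hc
    by_cases hdc : d = c
    · rw [hdc]
      exact hBmono j hc
    by_cases hdx : d = x₀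
    · rw [hdx]
      exact hx₀B _
    have hcC' := hBC j hc
    obtain ⟨_, f, h2, h3, h4⟩ := mem_filter.1 hc
    refine mem_filter.2 ⟨hd', (H d e)⁻¹ • ((Pi.single e 1 : S → F)) +
      (-(H d e)⁻¹ * H c e) • f, ?_, ?_, ?_⟩
    · intro e' he'
      have : e' ≠ e := by
        rintro rfl
        exact he' he
      simp [h2 e' he', Pi.single_eq_of_ne this]
    · refine (spt_add_le _ _ _ _).trans ?_
      have h5 : (spt E (Pi.single e 1 : S → F)).card ≤ 1 := by
        refine (card_le_card ?_).trans (card_singleton e).le
        intro e' he'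
        unfold spt at he'
        rw [mem_filter] at he'
        rw [mem_singleton]
        by_contra h
        exact he'.2 (Pi.single_eq_of_ne h _)
      omega
    · intro c' hc' hne
      have h5 : ∑ e' ∈ Q, H c' e' * ((H d e)⁻¹ • ((Pi.single e 1 : S → F)) +
          (-(H d e)⁻¹ * H c e) • f) e' = (H d e)⁻¹ * H c' e +
          (-(H d e)⁻¹ * H c e) * ∑ e' ∈ Q, H c' e' * f e' := by
        have h6 := sum_single (H := H) c' e he 1
        rw [mul_one] at h6
        rw [← h6, mul_sum, mul_sum, ← sum_add_distrib]
        refine sum_congr rfl fun e' _ => ?_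
        simp only [Pi.add_apply, Pi.smul_apply, smul_eq_mul]
        ring
      rw [h5, h4 c' hc' hne]
      by_cases h7 : c' = c
      · rw [if_pos h7, if_neg (fun h => hdc (h.symm.trans h7)), h7]
        ring
      · rw [if_neg h7, mul_zero, add_zero]
        by_cases h8 : c' = d
        · rw [if_pos h8, h8, inv_mul_cancel₀ hde]
        · rw [if_neg h8]
          have h9 : H c' e = 0 := by
            by_contra h9
            have h10 : ({c, d, c'} : Finset Ch) ⊆ eqs H C e := by
              intro z hz
              simp only [mem_insert, mem_singleton] at hz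
              unfold eqs
              rw [mem_filter]
              rcases hz with rfl | rfl | rfl
              · exact ⟨hC'C hcC', hce⟩
              · exact ⟨hC'C hd', hde⟩
              · exact ⟨hC'C hc', h9⟩
            have h11 := card_le_card h10
            rw [card_insert_of_notMem, card_insert_of_notMem, card_singleton] at h11
            · have := hdeg e (hQP he)
              omega
            · rw [mem_singleton]
              exact fun h => h8 h.symm
            · rw [mem_insert, mem_singleton, not_or]
              exact ⟨fun h => hdc h.symm, fun h => h7 h.symm⟩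
          rw [h9, mul_zero]
  -- few unknowns inside
  have hinner : ∀ j ≤ i, (Q.filter fun e => ∀ c ∈ C', H c e ≠ 0 → c ∈ B j).card ≤
      (B j).card := by
    intro j hj
    have hf : ∀ c : Ch, ∃ f : S → F, c ∈ B j → (∀ e, e ∉ Q → f e = 0) ∧
        (spt E f).card ≤ j ∧ ∀ c' ∈ C', c' ≠ x₀ →
          ∑ e ∈ Q, H c' e * f e = if c' = c then 1 else 0 := by
      intro c
      by_cases hc : c ∈ B j
      · obtain ⟨_, f, hf⟩ := mem_filter.1 hc
        exact ⟨f, fun _ => hf⟩
      · exact ⟨0, fun h => absurd h hc⟩
    choose f hf using hf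
    set Q' := Q.filter fun e => ∀ c ∈ C', H c e ≠ 0 → c ∈ B j with hQ'
    set Bx := (B j).erase x₀ with hBx
    -- the vectors `g e`
    let g : S → S → F := fun e => (Pi.single e 1 : S → F) - ∑ c ∈ Bx, H c e • f c
    have hgQ : ∀ e ∈ Q', ∀ e', e' ∉ Q → g e e' = 0 := by
      intro e he e' he'
      have : e' ≠ e := by
        rintro rfl
        exact he' (mem_filter.1 he).1
      simp only [g, Pi.sub_apply, Finset.sum_apply, Pi.smul_apply, smul_eq_mul]
      rw [Pi.single_eq_of_ne this, zero_sub, neg_eq_zero]
      refine sum_eq_zero fun c hc => ?_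
      rw [(hf c (mem_of_mem_erase hc)).1 e' he', mul_zero]
    have hg0 : ∀ e ∈ Q', ∀ c' ∈ C', c' ≠ x₀ → ∑ e' ∈ Q, H c' e' * g e e' = 0 := by
      intro e he c' hc' hne
      have heQ := (mem_filter.1 he).1
      have h1 : ∑ e' ∈ Q, H c' e' * g e e' = H c' e -
          ∑ c ∈ Bx, H c e * ∑ e' ∈ Q, H c' e' * f c e' := by
        have h6 := sum_single (H := H) c' e heQ 1
        rw [mul_one] at h6
        rw [← h6]
        simp only [mul_sum]
        rw [sum_comm, ← sum_sub_distrib]
        refine sum_congr rfl fun e' _ => ?_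
        simp only [g, Pi.sub_apply, Finset.sum_apply, Pi.smul_apply, smul_eq_mul, mul_sub, mul_sum]
        congr 1
        exact sum_congr rfl fun c _ => by ring
      rw [h1]
      have h2 : ∑ c ∈ Bx, H c e * ∑ e' ∈ Q, H c' e' * f c e' =
          ∑ c ∈ Bx, if c' = c then H c e else 0 := by
        refine sum_congr rfl fun c hc => ?_
        rw [(hf c (mem_of_mem_erase hc)).2.2 c' hc' hne]
        split_ifs <;> simp
      rw [h2, Finset.sum_ite_eq]
      by_cases h3 : c' ∈ Bx
      · rw [if_pos h3, sub_self]
      · rw [if_neg h3, sub_zero]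
        by_contra h4
        apply h3
        rw [hBx, mem_erase]
        exact ⟨hne, (mem_filter.1 he).2 c' hc' h4⟩
    have hgs : ∀ e ∈ Q', (spt E (g e)).card ≤ 2 * j + 1 := by
      intro e he
      have heQ := (mem_filter.1 he).1
      -- only two terms of the sum matter
      have h1 : spt E (g e) ⊆ {e} ∪ (Bx.filter fun c => H c e ≠ 0).biUnion
          fun c => spt E (f c) := by
        intro e' he'
        unfold spt at he'
        rw [mem_filter] at he'
        by_contra hcon
        rw [mem_union, mem_singleton, mem_biUnion, not_or] at hcon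
        push Not at hcon
        apply he'.2
        simp only [g, Pi.sub_apply, Finset.sum_apply, Pi.smul_apply, smul_eq_mul]
        rw [Pi.single_eq_of_ne hcon.1, zero_sub, neg_eq_zero]
        refine sum_eq_zero fun c hc => ?_
        by_cases h0 : H c e = 0
        · rw [h0, zero_mul]
        · have h2 := hcon.2 c (mem_filter.2 ⟨hc, h0⟩)
          have h3 : f c e' = 0 := by
            by_contra h3
            exact h2 (mem_filter.2 ⟨he'.1, h3⟩)
          rw [h3, mul_zero]
      refine (card_le_card h1).trans ((card_union_le _ _).trans ?_)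
      rw [card_singleton]
      have h2 : ((Bx.filter fun c => H c e ≠ 0).biUnion fun c => spt E (f c)).card ≤ 2 * j := by
        refine card_biUnion_le.trans ?_
        refine (sum_le_card_nsmul _ _ j fun c hc => ?_).trans ?_
        · exact (hf c (mem_of_mem_erase (mem_filter.1 hc).1)).2.1
        · rw [smul_eq_mul]
          refine Nat.mul_le_mul_right j (le_trans (card_le_card ?_) (hdeg e (hQP heQ)))
          intro c hc
          rw [mem_filter] at hc
          unfold eqs
          rw [mem_filter]
          exact ⟨hC'C (hBC j (mem_of_mem_erase hc.1)), hc.2⟩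
      omega
    -- any two of them are dependent
    have hdep : ∀ e₁ ∈ Q', ∀ e₂ ∈ Q', g e₁ ≠ 0 → g e₂ ∈ Submodule.span F {g e₁} := by
      intro e₁ he₁ e₂ he₂ hne
      rw [Submodule.mem_span_singleton]
      set μ₁ := ∑ e' ∈ Q, H x₀ e' * g e₁ e' with hμ₁
      set μ₂ := ∑ e' ∈ Q, H x₀ e' * g e₂ e' with hμ₂
      have hμ₁0 : μ₁ ≠ 0 := by
        intro h0
        have h1 : Sol H E C (g e₁) := hsol _ (hgQ e₁ he₁) fun c hc => by
          by_cases h2 : c = x₀
          · rw [h2]
            exact h0
          · exact hg0 e₁ he₁ c hc h2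
        have h2 := hd _ h1 hne
        have h3 := hgs e₁ he₁
        omega
      refine ⟨μ₂ * μ₁⁻¹, ?_⟩
      by_contra h4
      have h5 : Sol H E C ((1 : F) • g e₂ + (-(μ₂ * μ₁⁻¹)) • g e₁) := by
        refine hsol _ (fun e' he' => ?_) fun c hc => ?_
        · simp [hgQ e₁ he₁ e' he', hgQ e₂ he₂ e' he']
        · have h6 : ∑ e ∈ Q, H c e * ((1 : F) • g e₂ + (-(μ₂ * μ₁⁻¹)) • g e₁) e =
              (∑ e ∈ Q, H c e * g e₂ e) - (μ₂ * μ₁⁻¹) * ∑ e ∈ Q, H c e * g e₁ e := by
            rw [mul_sum, ← sum_sub_distrib]
            refine sum_congr rfl fun e _ => ?_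
            simp only [Pi.add_apply, Pi.smul_apply, smul_eq_mul]
            ring
          rw [h6]
          by_cases h2 : c = x₀
          · rw [h2, ← hμ₁, ← hμ₂]
            field_simp
            ring
          · rw [hg0 e₁ he₁ c hc h2, hg0 e₂ he₂ c hc h2]
            ring
      have h6 : (1 : F) • g e₂ + (-(μ₂ * μ₁⁻¹)) • g e₁ ≠ 0 := by
        intro h7
        apply h4
        rw [one_smul, neg_smul, ← sub_eq_add_neg, sub_eq_zero] at h7
        exact h7.symm
      have h7 := hd _ h5 h6
      have h8 := spt_add_le (E := E) (g e₂) (g e₁) 1 (-(μ₂ * μ₁⁻¹))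
      have h9 := hgs e₁ he₁
      have h10 := hgs e₂ he₂
      omega
    -- dimension
    obtain ⟨g₁, hg₁⟩ : ∃ g₁ : S → F, ∀ e ∈ Q', g e ∈ Submodule.span F {g₁} := by
      by_cases h : ∃ e₁ ∈ Q', g e₁ ≠ 0
      · obtain ⟨e₁, he₁, hne⟩ := h
        exact ⟨g e₁, fun e he => hdep e₁ he₁ e he hne⟩
      · push Not at h
        exact ⟨0, fun e he => by rw [h e he]; exact Submodule.zero_mem _⟩
    let G : Finset (S → F) := insert g₁ (Bx.image f)
    have hGcard : G.card ≤ (B j).card := by
      refine (card_insert_le _ _).trans ?_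
      have h1 : (Bx.image f).card ≤ Bx.card := card_image_le
      have h2 : Bx.card + 1 = (B j).card := card_erase_add_one (hx₀B j)
      omega
    have hmem : ∀ e ∈ Q', (Pi.single e 1 : S → F) ∈ Submodule.span F (G : Set (S → F)) := by
      intro e he
      have h1 : (Pi.single e 1 : S → F) = g e + ∑ c ∈ Bx, H c e • f c := by
        simp only [g, sub_add_cancel]
      rw [h1]
      refine Submodule.add_mem _ ?_ (Submodule.sum_mem _ fun c hc => Submodule.smul_mem _ _ ?_)
      · refine Submodule.span_mono ?_ (hg₁ e he)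
        simp [G]
      · refine Submodule.subset_span ?_
        simp only [G, coe_insert, coe_image, Set.mem_insert_iff, Set.mem_image, mem_coe]
        exact Or.inr ⟨c, hc, rfl⟩
    have hLI : LinearIndependent F (fun e : Q' => (Pi.single e.1 1 : S → F)) := by
      rw [Fintype.linearIndependent_iff]
      intro a ha e
      have := congrFun ha e.1
      rw [Finset.sum_apply, Pi.zero_apply] at this
      rw [Finset.sum_eq_single e] at this
      · simpa using this
      · intro e' _ hne
        rw [Pi.smul_apply, Pi.single_eq_of_ne (fun h => hne (Subtype.ext h.symm)), smul_zero]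
      · intro h
        exact absurd (mem_univ _) h
    have hLI' : LinearIndependent F (fun e : Q' =>
        (⟨(Pi.single e.1 1 : S → F), hmem e.1 e.2⟩ : Submodule.span F (G : Set (S → F)))) := by
      refine LinearIndependent.of_comp (Submodule.subtype _) ?_
      exact hLI
    have : Module.Finite F (Submodule.span F (G : Set (S → F))) :=
      Module.Finite.span_of_finite F G.finite_toSet
    have h1 := hLI'.fintype_card_le_finrank
    rw [Fintype.card_coe] at h1
    exact h1.trans ((finrank_span_finset_le_card G).trans hGcard)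
  -- growth
  have hgrow : ∀ j < i, (1 + ε) * (B j).card < ((B (j + 1)).card : ℝ) := by
    intro j hj
    have h1 := htouch (B j) (hBC j) ⟨x₀, hx₀B j⟩
    have h2 : (Q.filter fun e => ∃ c ∈ B j, H c e ≠ 0).card ≤
        (Q.filter fun e => ∀ c ∈ C', H c e ≠ 0 → c ∈ B (j + 1)).card := by
      refine card_le_card fun e he => ?_
      rw [mem_filter] at he ⊢
      exact ⟨he.1, hreach j e he.1 he.2⟩
    have h3 := hinner (j + 1) (by omega)
    refine h1.trans_le ?_
    exact_mod_cast h2.trans h3
  have hpow : ∀ j ≤ i, 1 ≤ j → (1 + ε) ^ j < ((B j).card : ℝ) := by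
    intro j hj h1
    induction j with
    | zero => omega
    | succ j ih =>
      rcases Nat.eq_zero_or_pos j with h0 | h0
      · subst h0
        have h2 := hgrow 0 (by omega)
        have h3 : (1 : ℝ) ≤ (B 0).card := by
          have : 1 ≤ (B 0).card := card_pos.2 ⟨x₀, hx₀B 0⟩
          exact_mod_cast this
        simp only [zero_add, pow_one] at h2 ⊢
        nlinarith
      · have h2 := ih (by omega) h0
        have h3 := hgrow j (by omega)
        rw [pow_succ]
        nlinarith
  have h1 := hpow i le_rfl hi
  have h2 : ((B i).card : ℝ) ≤ C.card := by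
    exact_mod_cast card_le_card ((hBC i).trans hC'C)
  linarith

end Pool.Agent.W946.Sz
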