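import Pool.Agent.W946.SzLin

set_option autoImplicit false

/-!
# Elimination of the unknowns which occur in one equation only
-/

namespace Pool.Agent.W946.Sz

open Finset

variable {F S Ch : Type*} [Field F] [DecidableEq S] [DecidableEq Ch] {H : Ch → S → F}

omit [DecidableEq S] [DecidableEq Ch] in
theorem Dist.mono {E : Finset S} {C : Finset Ch} {T T' : ℕ} (h : Dist H E C T) (hT : T' ≤ T) :
    Dist H E C T' := fun x hx hne => hT.trans (h x hx hne)

theorem spt_single_le (E : Finset S) (e : S) (a : F) :
    (spt E (Pi.single e a : S → F)).card ≤ 1 := by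
  classical
  refine (card_le_card ?_).trans (card_singleton e).le
  intro e' he'
  unfold spt at he'
  rw [mem_filter] at he'
  rw [mem_singleton]
  by_contra h
  apply he'.2
  rw [Pi.single_eq_of_ne h]

open Classical in
omit [DecidableEq S] [DecidableEq Ch] in
theorem count_inc (E : Finset S) (C : Finset Ch) :
    ∑ e ∈ E, (eqs H C e).card = ∑ c ∈ C, (row H E c).card := by
  unfold eqs row
  simp only [card_filter]
  rw [sum_comm]

open Classical in
/-- one round of the elimination -/
theorem step {E : Finset S} {C : Finset Ch} {i Δ T : ℕ} {ε : ℝ} (hε : 0 < ε) (hi : 1 ≤ i)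
    (hrow : ∀ c ∈ C, (row H E c).card ≤ 3) (hcol : ∀ e ∈ E, (eqs H C e).card ≤ Δ)
    (hC : (C.card : ℝ) ≤ (1 + ε) ^ i) (hT : 4 * i + 3 ≤ T) (hd : Dist H E C ((1 + Δ) * T)) :
    ∃ (E' : Finset S) (C' : Finset Ch), (∀ c ∈ C', (row H E' c).card ≤ 3) ∧
      (∀ e ∈ E', (eqs H C' e).card ≤ Δ) ∧ (C'.card : ℝ) ≤ (1 + ε) ^ i ∧ Dist H E' C' T ∧
      (E'.card : ℝ) - C'.card = E.card - C.card ∧
      (1 + ε) * C'.card ≤ 2 * (1 + ε) * C.card - 3 * ((E.card : ℝ) - C.card) := by
  have hdT : Dist H E C (4 * i + 3) := hd.mono (by nlinarith)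
  -- no unknown is free
  have hpos : ∀ e ∈ E, 1 ≤ (eqs H C e).card := by
    intro e he
    by_contra h0
    have h1 : eqs H C e = ∅ := card_eq_zero.1 (by omega)
    have h2 : Sol H E C (Pi.single e 1 : S → F) := by
      refine ⟨fun e' he' => ?_, fun c hc => ?_⟩
      · rw [Pi.single_eq_of_ne]
        rintro rfl
        exact he' he
      · rw [sum_single c e he, mul_one]
        by_contra h3
        have : c ∈ eqs H C e := mem_filter.2 ⟨hc, h3⟩
        rw [h1] at this
        exact notMem_empty c this
    have h3 := hdT _ h2 (fun h => by simpa using congrFun h e)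
    have h4 := spt_single_le E e (1 : F)
    omega
  set E₁ := E.filter fun e => (eqs H C e).card = 1 with hE₁
  have hE₁E : E₁ ⊆ E := filter_subset _ _
  have hE₁1 : ∀ e ∈ E₁, (eqs H C e).card = 1 := fun e he => (mem_filter.1 he).2
  have heq : ∀ e ∈ E₁, ∀ c ∈ eqs H C e, eqs H C e = {c} := by
    intro e he c hc
    obtain ⟨c', hc'⟩ := card_eq_one.1 (hE₁1 e he)
    rw [hc'] at hc ⊢
    rw [mem_singleton.1 hc]
  -- two unknowns of degree one are in different equations
  have hdisj : ∀ e ∈ E₁, ∀ e' ∈ E₁, e ≠ e' → Disjoint (eqs H C e) (eqs H C e') := by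
    intro e he e' he' hne
    rw [disjoint_left]
    intro c hc hc'
    have h1 := heq e he c hc
    have h2 := heq e' he' c hc'
    have hce : H c e ≠ 0 := (mem_filter.1 hc).2
    have hce' : H c e' ≠ 0 := (mem_filter.1 hc').2
    set x : S → F := (H c e') • (Pi.single e 1 : S → F) + (-(H c e)) • (Pi.single e' 1 : S → F)
      with hx
    have h3 : Sol H E C x := by
      refine ⟨fun z hz => ?_, fun c₂ hc₂ => ?_⟩
      · have hz1 : z ≠ e := fun h => hz (h ▸ hE₁E he)
        have hz2 : z ≠ e' := fun h => hz (h ▸ hE₁E he')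
        simp [hx, Pi.single_eq_of_ne hz1, Pi.single_eq_of_ne hz2]
      · have h4 : ∑ z ∈ E, H c₂ z * x z = H c e' * H c₂ e - H c e * H c₂ e' := by
          have h5 := sum_single (H := H) c₂ e (hE₁E he) 1
          have h6 := sum_single (H := H) c₂ e' (hE₁E he') 1
          rw [mul_one] at h5 h6
          rw [← h5, ← h6, mul_sum, mul_sum, ← sum_sub_distrib]
          refine sum_congr rfl fun z _ => ?_
          simp only [hx, Pi.add_apply, Pi.smul_apply, smul_eq_mul]
          ring
        rw [h4]
        by_cases h7 : c₂ = c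
        · rw [h7]
          ring
        · have h8 : H c₂ e = 0 := by
            by_contra h8
            have : c₂ ∈ eqs H C e := mem_filter.2 ⟨hc₂, h8⟩
            rw [h1, mem_singleton] at this
            exact h7 this
          have h9 : H c₂ e' = 0 := by
            by_contra h9
            have : c₂ ∈ eqs H C e' := mem_filter.2 ⟨hc₂, h9⟩
            rw [h2, mem_singleton] at this
            exact h7 this
          rw [h8, h9]
          ring
    have h4 : x ≠ 0 := by
      intro h5
      have h6 := congrFun h5 e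
      simp [hx, Pi.single_eq_of_ne hne] at h6
      exact hce' h6
    have h5 := hdT x h3 h4
    have h6 := spt_add_le (E := E) (Pi.single e 1 : S → F) (Pi.single e' 1) (H c e') (-(H c e))
    have h7 := spt_single_le E e (1 : F)
    have h8 := spt_single_le E e' (1 : F)
    rw [← hx] at h6
    omega
  set C₁ := E₁.biUnion fun e => eqs H C e with hC₁
  have hC₁C : C₁ ⊆ C := by
    intro c hc
    obtain ⟨e, _, h⟩ := mem_biUnion.1 hc
    exact (mem_filter.1 h).1
  have hC₁card : C₁.card = E₁.card := by
    rw [hC₁, card_biUnion fun e he e' he' hne => hdisj e he e' he' hne,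
      sum_congr rfl fun e he => hE₁1 e he, sum_const, smul_eq_mul, mul_one]
  have hE'card : (E \ E₁).card + E₁.card = E.card := card_sdiff_add_card_eq_card hE₁E
  have hC'card : (C \ C₁).card + C₁.card = C.card := card_sdiff_add_card_eq_card hC₁C
  refine ⟨E \ E₁, C \ C₁, ?_, ?_, ?_, ?_, ?_, ?_⟩
  · intro c hc
    refine le_trans (card_le_card ?_) (hrow c (mem_sdiff.1 hc).1)
    exact filter_subset_filter _ sdiff_subset
  · intro e he
    refine le_trans (card_le_card ?_) (hcol e (mem_sdiff.1 he).1)
    exact filter_subset_filter _ sdiff_subset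
  · refine le_trans ?_ hC
    exact_mod_cast card_le_card (sdiff_subset (s := C) (t := C₁))
  · -- distance
    intro x' hx' hne'
    set L : Ch → F := fun c => ∑ e ∈ E \ E₁, H c e * x' e with hL
    set x : S → F := fun e => if e ∈ E₁ then -∑ c ∈ eqs H C e, (H c e)⁻¹ * L c else x' e with hx
    have hxE' : ∀ e, e ∉ E₁ → x e = x' e := fun e he => by rw [hx]; exact if_neg he
    have hxE₁ : ∀ e ∈ E₁, x e = -∑ c ∈ eqs H C e, (H c e)⁻¹ * L c := fun e he => by
      rw [hx]; exact if_pos he
    have hsol : Sol H E C x := by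
      refine ⟨fun e he => ?_, fun c hc => ?_⟩
      · rw [hxE' e fun h => he (hE₁E h)]
        exact hx'.1 e fun h => he (mem_sdiff.1 h).1
      · rw [← sum_sdiff hE₁E]
        have h1 : ∑ e ∈ E \ E₁, H c e * x e = L c := by
          rw [hL]
          exact sum_congr rfl fun e he => by rw [hxE' e (mem_sdiff.1 he).2]
        rw [h1]
        by_cases hc₁ : c ∈ C₁
        · obtain ⟨e₀, he₀, hce₀⟩ := mem_biUnion.1 hc₁
          have h2 : ∑ e ∈ E₁, H c e * x e = H c e₀ * x e₀ := by
            refine sum_eq_single e₀ (fun e he hne => ?_) fun h => absurd he₀ h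
            have : H c e = 0 := by
              by_contra h3
              have h4 : c ∈ eqs H C e := mem_filter.2 ⟨hc, h3⟩
              exact disjoint_left.1 (hdisj e he e₀ he₀ hne) h4 hce₀
            rw [this, zero_mul]
          have h3 : H c e₀ ≠ 0 := (mem_filter.1 hce₀).2
          rw [h2, hxE₁ e₀ he₀, heq e₀ he₀ c hce₀, sum_singleton]
          field_simp
          ring
        · have h2 : ∑ e ∈ E₁, H c e * x e = 0 := by
            refine sum_eq_zero fun e he => ?_
            have : H c e = 0 := by
              by_contra h3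
              exact hc₁ (mem_biUnion.2 ⟨e, he, mem_filter.2 ⟨hc, h3⟩⟩)
            rw [this, zero_mul]
          rw [h2, add_zero]
          exact hx'.2 c (mem_sdiff.2 ⟨hc, hc₁⟩)
    have hxne : x ≠ 0 := by
      obtain ⟨e, he⟩ := Function.ne_iff.1 hne'
      intro h0
      have heE : e ∈ E \ E₁ := by
        by_contra h
        exact he (hx'.1 e h)
      apply he
      rw [← hxE' e (mem_sdiff.1 heE).2, h0]
    have h1 := hd x hsol hxne
    set A := spt (E \ E₁) x' with hA
    set A₁ := E₁.filter fun e => x e ≠ 0 with hA₁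
    have h2 : (spt E x).card ≤ A.card + A₁.card := by
      refine (card_le_card ?_).trans (card_union_le _ _)
      intro e he
      unfold spt at he
      rw [mem_filter] at he
      rw [mem_union]
      by_cases h : e ∈ E₁
      · exact Or.inr (mem_filter.2 ⟨h, he.2⟩)
      · refine Or.inl (mem_filter.2 ⟨mem_sdiff.2 ⟨he.1, h⟩, ?_⟩)
        rw [← hxE' e h]
        exact he.2
    have h3 : A₁.card ≤ Δ * A.card := by
      have h4 : A₁.card = (A₁.biUnion fun e => eqs H C e).card := by
        rw [card_biUnion fun e he e' he' hne => hdisj e (mem_filter.1 he).1 e'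
          (mem_filter.1 he').1 hne, sum_congr rfl fun e he => hE₁1 e (mem_filter.1 he).1,
          sum_const, smul_eq_mul, mul_one]
      have h5 : (A₁.biUnion fun e => eqs H C e) ⊆ A.biUnion fun e => eqs H C e := by
        intro c hc
        obtain ⟨e, he, hce⟩ := mem_biUnion.1 hc
        rw [mem_filter] at he
        have h6 : L c ≠ 0 := by
          intro h7
          apply he.2
          rw [hxE₁ e he.1, heq e he.1 c hce, sum_singleton, h7, mul_zero, neg_zero]
        obtain ⟨e', he', h7⟩ := exists_ne_zero_of_sum_ne_zero h6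
        refine mem_biUnion.2 ⟨e', mem_filter.2 ⟨he', right_ne_zero_of_mul h7⟩, ?_⟩
        exact mem_filter.2 ⟨(mem_filter.1 hce).1, left_ne_zero_of_mul h7⟩
      rw [h4]
      refine (card_le_card h5).trans (card_biUnion_le.trans ?_)
      refine (sum_le_card_nsmul _ _ Δ fun e he => hcol e ?_).trans (le_of_eq ?_)
      · exact (mem_sdiff.1 (mem_filter.1 he).1).1
      · rw [smul_eq_mul, mul_comm]
    have h4 : (1 + Δ) * T ≤ (1 + Δ) * A.card := by nlinarith
    exact Nat.le_of_mul_le_mul_left h4 (by omega)
  · have h1 : ((E \ E₁).card : ℝ) = E.card - E₁.card := by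
      rw [← hE'card]; push_cast; ring
    have h2 : ((C \ C₁).card : ℝ) = C.card - C₁.card := by
      rw [← hC'card]; push_cast; ring
    rw [h1, h2, hC₁card]
    ring
  · -- counting
    set P := E.filter fun e => (eqs H C e).card ≤ 2 with hP
    have h1 := few_light (P := P) (filter_subset _ _) (fun e he => (mem_filter.1 he).2) hε hi hC hdT
    have h2 : 3 * E.card ≤ 3 * C.card + (E₁.card + P.card) := by
      have h3 : ∑ e ∈ E, (eqs H C e).card ≤ 3 * C.card := by
        rw [count_inc]
        refine (sum_le_card_nsmul _ _ 3 hrow).trans (le_of_eq ?_)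
        rw [smul_eq_mul, mul_comm]
      have h4 : ∑ e ∈ E, 3 ≤ ∑ e ∈ E, ((eqs H C e).card + ((if (eqs H C e).card = 1 then 1 else 0) +
          if (eqs H C e).card ≤ 2 then 1 else 0)) := by
        refine sum_le_sum fun e he => ?_
        have := hpos e he
        split_ifs <;> omega
      rw [sum_const, smul_eq_mul, sum_add_distrib, sum_add_distrib, ← card_filter,
        ← card_filter] at h4
      have h5 : (E.filter fun e => (eqs H C e).card = 1).card = E₁.card := rfl
      have h6 : (E.filter fun e => (eqs H C e).card ≤ 2).card = P.card := rfl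
      omega
    have h3 : 3 * (E.card : ℝ) ≤ 3 * C.card + (E₁.card + P.card) := by exact_mod_cast h2
    have h4 : ((C \ C₁).card : ℝ) = C.card - E₁.card := by
      rw [← hC'card, ← hC₁card]; push_cast; ring
    rw [h4]
    have h5 : (0 : ℝ) ≤ E₁.card := by positivity
    nlinarith

open Classical in
/-- **Sparse systems with large distance.** -/
theorem rounds {i Δ : ℕ} {ε : ℝ} (hε : 0 < ε) (hi : 1 ≤ i) (r : ℕ) :
    ∀ (E : Finset S) (C : Finset Ch), (∀ c ∈ C, (row H E c).card ≤ 3) →
    (∀ e ∈ E, (eqs H C e).card ≤ Δ) → (C.card : ℝ) ≤ (1 + ε) ^ i →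
    Dist H E C ((1 + Δ) ^ r * (4 * i + 3)) →
    (2 : ℝ) ^ r * (3 * ((E.card : ℝ) - C.card) - (1 + ε) * C.card) ≤
      3 * ((E.card : ℝ) - C.card) := by
  induction r with
  | zero =>
    intro E C _ _ _ _
    rw [pow_zero, one_mul]
    have : (0 : ℝ) ≤ (1 + ε) * C.card := by positivity
    linarith
  | succ r ih =>
    intro E C hrow hcol hC hd
    have hT : 4 * i + 3 ≤ (1 + Δ) ^ r * (4 * i + 3) :=
      Nat.le_mul_of_pos_left _ (by positivity)
    obtain ⟨E', C', h1, h2, h3, h4, h5, h6⟩ := step hε hi hrow hcol hC hT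
      (hd.mono (le_of_eq (by rw [pow_succ]; ring)))
    have h7 := ih E' C' h1 h2 h3 h4
    rw [h5] at h7
    refine le_trans ?_ h7
    rw [pow_succ, mul_assoc]
    refine mul_le_mul_of_nonneg_left ?_ (by positivity)
    linarith

end Pool.Agent.W946.Sz
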