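import Pool.Agent.W946.XfMat

set_option autoImplicit false

/-!
# Circuits of XOR gates
-/

namespace Pool.Agent.W946.Xf

open Finset Pool.Agent.W946.Lc

/-- A circuit of XOR gates with `n` input bits (a bit is an element of `ZMod 2`): the gates are
numbered in a topological order, the gate `k` adds (modulo `2`) the bits at the nodes in `tails k`
(inputs `Sum.inl` or earlier gates `Sum.inr`) and the constant `const k`. -/
structure XorCircuit (n : ℕ) where
  /-- the number of gates -/
  gates : ℕ
  /-- the nodes from which there is a wire to the gate `k` -/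
  tails : (k : Fin gates) → Finset (Fin n ⊕ Fin (k : ℕ))
  /-- the constant which is added (`1` for a negated gate) -/
  const : Fin gates → ZMod 2

namespace XorCircuit

variable {n : ℕ}

/-- the bit at a gate on the input `x` -/
noncomputable def value (C : XorCircuit n) (x : Fin n → ZMod 2) (k : Fin C.gates) : ZMod 2 :=
  C.const k + ∑ s ∈ C.tails k,
    (match s with
    | .inl i => x i
    | .inr j => C.value x ⟨(j : ℕ), j.2.trans k.2⟩)
termination_by (k : ℕ)
decreasing_by exact j.2

/-- the bit at a node on the input `x` -/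
noncomputable def node (C : XorCircuit n) (x : Fin n → ZMod 2) : Fin n ⊕ Fin C.gates → ZMod 2 :=
  Sum.elim x (C.value x)

/-- The circuit computes `f`: every output bit of `f` is the bit at some node. -/
def Computes (C : XorCircuit n) (f : (Fin n → ZMod 2) → Fin n → ZMod 2) : Prop :=
  ∀ i, ∃ s, ∀ x, C.node x s = f x i

/-- the number of wires -/
def wires (C : XorCircuit n) : ℕ := ∑ k, (C.tails k).card

/-- the size: the number of nodes plus the number of wires -/
def size (C : XorCircuit n) : ℕ := n + C.gates + C.wires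

/-- the number of additions of two bits needed to evaluate the gates (negations are free); for a
circuit in which every gate has two inputs this is the number of gates -/
def additions (C : XorCircuit n) : ℕ := ∑ k, ((C.tails k).card - 1)

/-- the linear part -/
@[reducible] def toLin (C : XorCircuit n) : LinCircuit (ZMod 2) n where
  gates := C.gates
  tails := C.tails
  scalar := fun _ _ => 1

theorem value_eq (C : XorCircuit n) (x : Fin n → ZMod 2) (k : Fin C.gates) :
    C.value x k = dotProduct (C.toLin.form k) x + C.value 0 k := by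
  obtain ⟨k, hk⟩ := k
  induction k using Nat.strong_induction_on with
  | _ k ih =>
    rw [value, value, LinCircuit.form.eq_def C.toLin ⟨k, hk⟩]
    rw [sum_dotProduct, add_left_comm]
    refine congrArg (fun z => C.const ⟨k, hk⟩ + z) ?_
    refine Eq.trans (sum_congr rfl fun s _ => ?_) sum_add_distrib
    rcases s with i | j
    · change x i = dotProduct ((1 : ZMod 2) • (Pi.single i 1 : Fin n → ZMod 2)) x + 0
      rw [one_smul, single_dotProduct, one_mul, add_zero]
    · change C.value x ⟨(j : ℕ), j.2.trans hk⟩ =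
        dotProduct ((1 : ZMod 2) • C.toLin.form ⟨(j : ℕ), j.2.trans hk⟩) x +
          C.value 0 ⟨(j : ℕ), j.2.trans hk⟩
      rw [one_smul]
      exact ih j j.2 (j.2.trans hk)

end XorCircuit

/-- the numbers `a` and `b` have different digits in base four at the places `t < j` -/
def DigitsDiffer (j a b : ℕ) : Prop := ∀ t < j, a / 4 ^ t % 4 ≠ b / 4 ^ t % 4

instance (j a b : ℕ) : Decidable (DigitsDiffer j a b) :=
  inferInstanceAs (Decidable (∀ t < j, a / 4 ^ t % 4 ≠ b / 4 ^ t % 4))

/-- The length-preserving function on `4 ^ j` bits: the output bit `a` is the parity of the input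
bits `b` such that all `j` digits of `b` in base four differ from those of `a`. -/
def digitParity (j : ℕ) (x : Fin (4 ^ j) → ZMod 2) (a : Fin (4 ^ j)) : ZMod 2 :=
  ∑ b : Fin (4 ^ j), if DigitsDiffer j a b then x b else 0

/-- its matrix -/
def mat (j : ℕ) : Matrix (Fin (4 ^ j)) (Fin (4 ^ j)) (ZMod 2) :=
  Matrix.of fun a b => if DigitsDiffer j a b then 1 else 0

theorem mat_mulVec (j : ℕ) (x : Fin (4 ^ j) → ZMod 2) : (mat j).mulVec x = digitParity j x := by
  funext a
  rw [Matrix.mulVec, dotProduct, digitParity]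
  refine sum_congr rfl fun b _ => ?_
  rw [mat, Matrix.of_apply]
  split_ifs <;> simp

theorem mat_transpose (j : ℕ) : (mat j).transpose = mat j := by
  ext a b
  rw [Matrix.transpose_apply, mat, Matrix.of_apply, Matrix.of_apply]
  have : DigitsDiffer j b a ↔ DigitsDiffer j a b :=
    ⟨fun h t ht => (h t ht).symm, fun h t ht => (h t ht).symm⟩
  simp only [this]

theorem digitParity_T (j : ℕ) (x : Fin (4 ^ j) → ZMod 2) (a : Fin (4 ^ j)) :
    digitParity j x a = T j (x ∘ finFunctionFinEquiv) (finFunctionFinEquiv.symm a) := by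
  rw [digitParity, T, ← Equiv.sum_comp finFunctionFinEquiv]
  refine sum_congr rfl fun b _ => ?_
  have h1 : DigitsDiffer j a (finFunctionFinEquiv b) ↔
      ∀ t, (finFunctionFinEquiv.symm a : Fin j → Fin 4) t ≠ b t := by
    have h2 : b = finFunctionFinEquiv.symm (finFunctionFinEquiv b) :=
      (Equiv.symm_apply_apply _ _).symm
    have h3 : ∀ (c : Fin (4 ^ j)) (t : Fin j),
        ((finFunctionFinEquiv.symm c : Fin j → Fin 4) t : ℕ) = (c : ℕ) / 4 ^ (t : ℕ) % 4 :=
      fun c t => rfl
    constructor
    · intro h t h'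
      apply h t t.2
      rw [← h3, ← h3, Equiv.symm_apply_apply, h']
    · intro h t ht h'
      apply h ⟨t, ht⟩
      conv_rhs => rw [h2]
      exact Fin.ext ((h3 a ⟨t, ht⟩).trans (h'.trans (h3 _ ⟨t, ht⟩).symm))
  by_cases h : DigitsDiffer j a (finFunctionFinEquiv b)
  · rw [if_pos h, if_pos (h1.1 h)]
    rfl
  · rw [if_neg h, if_neg fun h' => h (h1.2 h')]

theorem wt_comp {Z Z' : Type*} [Fintype Z] [Fintype Z'] (e : Z ≃ Z') (z : Z' → ZMod 2) :
    wt (z ∘ e) = wt z := by
  rw [wt_sum, wt_sum, ← Equiv.sum_comp e]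
  rfl

theorem mat_uncertainty (j : ℕ) (x : Fin (4 ^ j) → ZMod 2) (hx : x ≠ 0) :
    3 ^ j ≤ wt x * wt ((mat j).mulVec x) := by
  have h1 := uncertainty j (x ∘ finFunctionFinEquiv) (by
    intro h
    apply hx
    funext a
    have := congrFun h (finFunctionFinEquiv.symm a)
    simpa using this)
  rw [wt_comp] at h1
  have h2 : (mat j).mulVec x = T j (x ∘ finFunctionFinEquiv) ∘ finFunctionFinEquiv.symm := by
    rw [mat_mulVec]
    funext a
    exact digitParity_T j x a
  rw [h2, wt_comp]
  exact h1

theorem XorCircuit.computes_lin {j : ℕ} {C : XorCircuit (4 ^ j)}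
    (hC : C.Computes (digitParity j)) : C.toLin.Computes (mat j) := by
  intro a
  obtain ⟨s, hs⟩ := hC a
  have key : ∀ x, C.node x s = dotProduct (C.toLin.node s) x + C.node 0 s := by
    intro x
    rcases s with i | k
    · change x i = dotProduct (Pi.single i 1) x + (0 : ZMod 2)
      rw [single_dotProduct, one_mul, add_zero]
    · exact C.value_eq x k
  have h0 : C.node 0 s = 0 := by
    rw [hs 0, digitParity]
    exact sum_eq_zero fun b _ => by simp
  refine ⟨s, ?_⟩
  funext b
  have h1 := key (Pi.single b 1)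
  rw [h0, add_zero, hs, dotProduct_single, mul_one, digitParity] at h1
  rw [← h1, mat, Matrix.of_apply, Finset.sum_eq_single b]
  · rw [Pi.single_eq_same]
  · intro b' _ hne
    rw [Pi.single_eq_of_ne hne]
    simp
  · intro h
    exact absurd (mem_univ _) h

theorem final (δ : ℝ) (hδ : 0 < δ) : ∃ j₀ : ℕ, ∀ j : ℕ, j₀ ≤ j → ∀ C : XorCircuit (4 ^ j),
    C.Computes (digitParity j) →
      (4 - δ) * 4 ^ j ≤ C.additions ∧ (6 - δ) * 4 ^ j ≤ C.wires ∧ (8 - δ) * 4 ^ j ≤ C.size := by
  obtain ⟨M, hM, h⟩ := bound.{0} δ hδ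
  obtain ⟨n₀, hn₀, h0⟩ := exists_large (2 * M)
  refine ⟨n₀, fun j hj C hC => ?_⟩
  have key : ∀ x : Fin (4 ^ j) → ZMod 2, x ≠ 0 →
      M * (1 + Real.log ((4 ^ j : ℕ) : ℝ)) ≤ (wt x : ℝ) + wt ((mat j).mulVec x) := by
    intro x hx
    have h1 := two_sqrt_le (mat_uncertainty j x hx)
    have h2 : n₀ ≤ 3 ^ j := hj.trans (Nat.lt_pow_self (by norm_num)).le
    have h3 := h0 (3 ^ j) h2
    refine le_trans ?_ (h3.trans h1)
    rw [mul_assoc 2 M, ← mul_assoc, mul_comm (2 : ℝ) M, mul_assoc]
    refine mul_le_mul_of_nonneg_left ?_ hM.le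
    push_cast
    rw [Real.log_pow, Real.log_pow]
    have h4 : Real.log 4 ≤ 2 * Real.log 3 := by
      have : Real.log 4 ≤ Real.log (3 ^ 2) := Real.log_le_log (by norm_num) (by norm_num)
      rwa [Real.log_pow] at this
    have h5 : (0 : ℝ) ≤ j := by positivity
    nlinarith
  have h6 := h (ZMod 2) (4 ^ j) (Nat.one_le_pow _ _ (by norm_num)) (mat j) key (fun y hy => by
    rw [← Matrix.mulVec_transpose, mat_transpose]
    exact key y hy) C.toLin (XorCircuit.computes_lin hC)
  push_cast at h6
  exact h6

end Pool.Agent.W946.Xf
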