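import Pool.Agent.W946.LcEx

set_option autoImplicit false

/-!
# The tensor powers of `J - I` over the field with two elements
-/

namespace Pool.Agent.W946.Xf

open Finset Pool.Agent.W946.Lc

/-- `(T j x) a` is the sum of all `x b` for which all coordinates of `b` differ from those of
`a`. -/
def T (j : ℕ) (x : (Fin j → Fin 4) → ZMod 2) : (Fin j → Fin 4) → ZMod 2 :=
  fun a => ∑ b, if ∀ t, a t ≠ b t then x b else 0

theorem sum_cons {M : Type*} [AddCommMonoid M] {j : ℕ} (g : (Fin (j + 1) → Fin 4) → M) :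
    ∑ a, g a = ∑ a0 : Fin 4, ∑ a' : Fin j → Fin 4, g (Fin.cons a0 a') := by
  rw [← Fintype.sum_prod_type']
  exact (Fintype.sum_equiv (Fin.consEquiv fun _ : Fin (j + 1) => Fin 4) _ _ fun _ => rfl).symm

theorem T_cons {j : ℕ} (x : (Fin (j + 1) → Fin 4) → ZMod 2) (a0 : Fin 4) (a' : Fin j → Fin 4) :
    T (j + 1) x (Fin.cons a0 a') =
      ∑ b0 : Fin 4, if a0 ≠ b0 then T j (fun b' => x (Fin.cons b0 b')) a' else 0 := by
  unfold T
  rw [sum_cons]
  refine sum_congr rfl fun b0 _ => ?_
  by_cases h : a0 ≠ b0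
  · rw [if_pos h]
    refine sum_congr rfl fun b' _ => ?_
    congr 1
    rw [Fin.forall_fin_succ]
    simp only [Fin.cons_zero, Fin.cons_succ, eq_iff_iff]
    exact ⟨fun h' => h'.2, fun h' => ⟨h, h'⟩⟩
  · rw [if_neg h]
    refine sum_eq_zero fun b' _ => if_neg fun h' => ?_
    have := h' 0
    simp only [Fin.cons_zero] at this
    exact h this

/-- the weight as a sum -/
theorem wt_sum {Z : Type*} [Fintype Z] (z : Z → ZMod 2) :
    wt z = ∑ i, if z i ≠ 0 then 1 else 0 := by
  classical
  rw [wt_eq, card_filter]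

theorem base (u : Fin 4 → ZMod 2) (hu : u ≠ 0) :
    3 ≤ (∑ b : Fin 4, if u b ≠ 0 then 1 else 0) *
      ∑ a : Fin 4, if (∑ b, if a ≠ b then u b else 0) ≠ 0 then 1 else 0 := by
  revert u
  decide

theorem uncertainty (j : ℕ) : ∀ x : (Fin j → Fin 4) → ZMod 2, x ≠ 0 →
    3 ^ j ≤ wt x * wt (T j x) := by
  induction j with
  | zero =>
    intro x hx
    have h1 : T 0 x = x := by
      funext a
      have : T 0 x a = ∑ b, x b := by
        unfold T
        exact sum_congr rfl fun b _ => if_pos fun t => t.elim0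
      rw [this, Fintype.sum_unique]
      congr 1
      exact Subsingleton.elim _ _
    rw [h1]
    have h2 : 1 ≤ wt x := by
      obtain ⟨i, hi⟩ := Function.ne_iff.1 hx
      rw [wt_sum]
      refine le_trans ?_ (single_le_sum (f := fun i => if x i ≠ 0 then 1 else 0)
        (fun _ _ => Nat.zero_le _) (mem_univ i))
      exact (if_pos (by simpa using hi)).ge
    simpa using Nat.mul_le_mul h2 h2
  | succ j ih =>
    intro x hx
    classical
    set xs : Fin 4 → (Fin j → Fin 4) → ZMod 2 := fun b0 b' => x (Fin.cons b0 b') with hxs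
    set ys : Fin 4 → (Fin j → Fin 4) → ZMod 2 := fun b0 => T j (xs b0) with hys
    set R : Finset (Fin 4) := univ.filter fun b0 => xs b0 ≠ 0 with hR
    set C : Finset (Fin j → Fin 4) := univ.filter fun a' => (fun b0 => ys b0 a') ≠ 0 with hC
    have hwx : wt x = ∑ b0, wt (xs b0) := by
      rw [wt_sum, sum_cons]
      exact sum_congr rfl fun b0 _ => (wt_sum _).symm
    have hT0 : T j 0 = 0 := by
      funext a
      unfold T
      exact sum_eq_zero fun b _ => by simp
    have hyC : ∀ b0, wt (ys b0) ≤ C.card := by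
      intro b0
      rw [wt_eq]
      refine card_le_card fun a' ha' => ?_
      rw [mem_filter] at ha' ⊢
      refine ⟨mem_univ _, fun h0 => ha'.2 (congrFun h0 b0)⟩
    -- the rows
    have h1 : R.card * 3 ^ j ≤ wt x * C.card := by
      rw [hwx, sum_mul, ← smul_eq_mul]
      calc R.card • 3 ^ j ≤ ∑ b0 ∈ R, wt (xs b0) * C.card := by
            refine card_nsmul_le_sum _ _ _ fun b0 hb0 => ?_
            exact (ih _ (mem_filter.1 hb0).2).trans (Nat.mul_le_mul_left _ (hyC b0))
        _ ≤ ∑ b0, wt (xs b0) * C.card :=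
            sum_le_sum_of_subset (subset_univ _)
    -- the columns
    have hwT : wt (T (j + 1) x) = ∑ a', ∑ a0 : Fin 4,
        if (∑ b0 : Fin 4, if a0 ≠ b0 then ys b0 a' else 0) ≠ 0 then 1 else 0 := by
      rw [wt_sum, sum_cons, sum_comm]
      refine sum_congr rfl fun a' _ => sum_congr rfl fun a0 _ => ?_
      rw [T_cons]
    have h2 : 3 * C.card ≤ wt (T (j + 1) x) * R.card := by
      rw [hwT, sum_mul, mul_comm 3, ← smul_eq_mul]
      calc C.card • 3 ≤ ∑ a' ∈ C, (∑ a0 : Fin 4,
            if (∑ b0 : Fin 4, if a0 ≠ b0 then ys b0 a' else 0) ≠ 0 then 1 else 0) * R.card := by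
            refine card_nsmul_le_sum _ _ _ fun a' ha' => ?_
            refine (base _ (mem_filter.1 ha').2).trans ?_
            rw [mul_comm]
            refine Nat.mul_le_mul_left _ ?_
            rw [← card_filter]
            refine card_le_card fun b0 hb0 => ?_
            rw [mem_filter] at hb0 ⊢
            refine ⟨mem_univ _, fun h0 => hb0.2 ?_⟩
            change T j (xs b0) a' = 0
            rw [h0, hT0]
            rfl
        _ ≤ _ := sum_le_sum_of_subset (subset_univ _)
    -- together
    have hRpos : 0 < R.card := by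
      rw [card_pos]
      obtain ⟨i, hi⟩ := Function.ne_iff.1 hx
      refine ⟨i 0, mem_filter.2 ⟨mem_univ _, fun h0 => hi ?_⟩⟩
      have := congrFun h0 (Fin.tail i)
      simp only [hxs] at this
      rw [Fin.cons_self_tail] at this
      exact this
    have hCpos : 0 < C.card := by
      by_contra h
      have h0 : C.card = 0 := by omega
      rw [h0, mul_zero] at h1
      have : 0 < R.card * 3 ^ j := by positivity
      omega
    have h3 : (R.card * C.card) * 3 ^ (j + 1) ≤ (R.card * C.card) * (wt x * wt (T (j + 1) x)) := by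
      calc (R.card * C.card) * 3 ^ (j + 1) = (R.card * 3 ^ j) * (3 * C.card) := by ring
        _ ≤ (wt x * C.card) * (wt (T (j + 1) x) * R.card) := Nat.mul_le_mul h1 h2
        _ = _ := by ring
    exact Nat.le_of_mul_le_mul_left h3 (by positivity)

end Pool.Agent.W946.Xf
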